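import Pool.Agent.Lib.MP_5591bc_ag.D.Defs
import Pool.Agent.Lib.MP_5591bc_ag.W.Good

/-! From the formal linear property to the degree property. -/

namespace Pool.Agent.Lib.MP_5591bc_ag.D

open Matrix Finset Filter Topology PowerSeries G R V Function
open W (GK mpK)

noncomputable section

theorem good_tay {L : Type*} [Field L] [Algebra L ℂ] (x : ℂ) (p : Polynomial L) :
    tay (fun t => Polynomial.aeval t p) x = τK x p := by
  have := tay_poly (p := x) (p.map (algebraMap L ℂ))
  simp only [Polynomial.eval_map_algebraMap] at this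
  exact this

theorem goodM_ofD {L : Type*} [Field L] [Algebra L ℂ] {n δ : ℕ} {U : Set ℂ} (ho : IsOpen U)
    (hc : IsPreconnected U) {Z : ℂ → Matrix (Fin n) (Fin n) ℂ} (hZ : Hol U Z) {s x : L}
    (hx : algebraMap L ℂ x + algebraMap L ℂ s ∈ U)
    (h : LGoodD L x fun μ : Mo (Fin n) δ =>
      tay (fun z => vk δ (Z (z + algebraMap L ℂ s)) μ) (algebraMap L ℂ x)) :
    W.GoodM U Z δ (s + x) := by
  have e : algebraMap L ℂ (s + x) = algebraMap L ℂ x + algebraMap L ℂ s := by
    rw [map_add, add_comm]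
  refine W.goodM_of ho hc hZ (e ▸ hx) fun F hF => ?_
  rw [e] at hF ⊢
  obtain ⟨g, g1, g2⟩ := h F (by simp only [constantCoeff_tay]; exact hF)
  refine ⟨fun μ => Polynomial.taylor (-s) (g μ), fun μ => by
    rw [Polynomial.taylor_eval, ← g1, add_comm s, add_neg_cancel_right], ?_⟩
  have hp : ∀ (p : Polynomial L) (y : ℂ), AnalyticAt ℂ (fun t : ℂ => Polynomial.aeval t p) y :=
    fun p y => p.differentiable_aeval.analyticAt y
  have hψ : ∀ μ : Mo (Fin n) δ, AnalyticAt ℂ (fun z => vk δ (Z z) μ)
      (algebraMap L ℂ x + algebraMap L ℂ s) := fun μ => by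
    refine DifferentiableOn.analyticAt (s := U) ?_ (ho.mem_nhds hx)
    unfold vk tens
    refine DifferentiableOn.fun_finsetProd fun l _ => ?_
    rcases μ l with _ | a
    exacts [differentiableOn_const _, hZ _ _]
  have ha := fun μ => (hp (Polynomial.taylor (-s) (g μ)) _).fun_mul (hψ μ)
  refine eventually_zero_of_tay (analyticAt_fun_sum univ fun μ _ => ha μ) ?_
  refine (tay_sum _ fun μ _ => ha μ).trans (Eq.trans (sum_congr rfl fun μ _ => ?_) g2)
  beta_reduce
  rw [tay_mul (hp _ _) (hψ μ), ← tay_shift, ← tay_shift, ← good_tay]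
  congr 2
  ext t
  simp [Polynomial.taylor_apply, Polynomial.aeval_comp]

end

end Pool.Agent.Lib.MP_5591bc_ag.D
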