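import Pool.Agent.Lib.MP_5591bc_ag.D.Kit
import Pool.Agent.Lib.MP_5591bc_ag.W.GKa

/-! Rational coordinates of the series at the origin. -/

namespace Pool.Agent.Lib.MP_5591bc_ag.D

open Matrix Finset Filter Topology PowerSeries G R V Function
open W (GK mpK)

noncomputable section

open Metric NumberField

variable {α : Type*} [Fintype α]

theorem org_bd (K : Type*) [Field K] [NumberField K] : ∃ c : ℕ, ∀ (x : K) (r : ℝ),
    (∀ φ : K →+* ℂ, ‖φ x‖ ≤ r) → ∀ b, |(((integralBasis K).repr x b : ℚ) : ℝ)| ≤ c * r := by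
  let l := LinearMap.toContinuousLinearMap (canonicalEmbedding.latticeBasis K).equivFun.toLinearMap
  obtain ⟨c, hc⟩ := exists_nat_ge ‖l‖
  refine ⟨c, fun x r h b => ?_⟩
  have e : l (canonicalEmbedding K x) b = (integralBasis K).repr x b :=
    canonicalEmbedding.integralBasis_repr_apply K x b
  rw [← Real.norm_eq_abs, ← Complex.norm_real, Complex.ofReal_ratCast, ← e]
  exact (norm_le_pi_norm _ b).trans ((l.le_opNorm _).trans (mul_le_mul hc
    ((canonicalEmbedding.norm_le_iff x r).2 h) (norm_nonneg _) c.cast_nonneg))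

theorem gk_coord {K : Type} [Field K] [NumberField K] [Algebra K ℂ] {h : ℕ} {g : α → K⟦X⟧}
    (hg : GK h g) : ∃ f : α × Ix K → ℚ⟦X⟧, (∃ a, GF a f) ∧ ∀ a, mpK K (g a) =
      ∑ b, C (algebraMap K ℂ (integralBasis K b)) * mp (f (a, b)) := by
  obtain ⟨c, hc⟩ := org_bd K
  obtain ⟨C, -, k⟩ := hg
  have e : ∀ t, (c + 1) * (C * h ^ t) ≤ ((c + 1) * C + h) ^ (t + 1) := fun t => by
    rw [pow_succ', ← mul_assoc]
    gcongr <;> omega
  refine ⟨fun p => PowerSeries.mk fun t => (integralBasis K).repr (coeff t (g p.1)) p.2,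
    ⟨(c + 1) * C + h, fun t => ?_⟩, fun a => PowerSeries.ext fun t => ?_⟩
  · obtain ⟨h0, d, d0, d1, d2⟩ := k t
    refine ⟨fun p => ?_, d, d0, (d1.trans (Nat.le_mul_of_pos_left _ c.succ_pos)).trans (e t),
      fun p j hj => ?_⟩
    · rw [coeff_mk]
      refine (hc _ _ (h0 p.1) p.2).trans ?_
      exact_mod_cast (Nat.mul_le_mul_right _ c.le_succ).trans (e t)
    · have a4 := integralBasis_repr_apply K (⟨_, d2 p.1 j hj⟩ : 𝓞 K) p.2
      refine ⟨_, Eq.trans ?_ a4⟩
      rw [coeff_mk, RingOfIntegers.map_mk, ← nsmul_eq_mul, ← nsmul_eq_mul, map_nsmul,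
        Finsupp.smul_apply]
  · simp only [map_sum, coeff_C_mul, coeff_map, coeff_mk]
    conv_lhs => rw [← (integralBasis K).sum_repr (coeff t (g a)), map_sum]
    simp only [Algebra.smul_def, map_mul, mul_comm, ← IsScalarTower.algebraMap_apply]

theorem org_lim {R : ℝ} {x : ℂ} (hx : x ∈ ball (0 : ℂ) R) (k : ℕ) :
    ∀ {g : ℂ → ℂ} {F : ℚ⟦X⟧}, DifferentiableOn ℂ g (ball 0 R) → mp F = tay g 0 →
      Tendsto (fun N => coeff k (τK x (trunc N F))) atTop (𝓝 (coeff k (tay g x))) := by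
  induction k with
  | zero =>
    intro g F hg hF
    rw [coeff_zero_tay]
    refine (Complex.hasSum_taylorSeries_on_ball hg hx).tendsto_sum_nat.congr fun K => ?_
    rw [coeff_zero_eq_constantCoeff_apply, τK_const, Polynomial.aeval_def,
      eval₂_trunc_eq_sum_range]
    refine sum_congr rfl fun i _ => ?_
    rw [← coeff_map, hF, coeff_tay, smul_eq_mul, smul_eq_mul, sub_zero]
    ring
  | succ k ih =>
    intro g F hg hF
    have h0 : ((k : ℂ) + 1) ≠ 0 := by exact_mod_cast k.succ_ne_zero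
    have := (ih (hg.deriv isOpen_ball) (F := d⁄dX ℚ F) (by rw [mp_deriv, hF, tay_deriv])).div_const
      ((k : ℂ) + 1)
    simp only [tay_deriv, trunc_derivative, τK_deriv, coeff_derivative,
      mul_div_cancel_right₀ _ h0] at this
    exact (tendsto_add_atTop_iff_nat 1).1 this

theorem org_ana {F : ℚ⟦X⟧} {a : ℕ} (h : ∀ k, |((coeff k F : ℚ) : ℝ)| ≤ (a : ℝ) ^ (k + 1)) :
    ∃ g : ℂ → ℂ, DifferentiableOn ℂ g (ball 0 ((a : ℝ) + 1)⁻¹) ∧ mp F = tay g 0 := by
  let p := FormalMultilinearSeries.ofScalars ℂ fun k => ((coeff k F : ℚ) : ℂ)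
  have a0 : 0 < (a : ℝ) + 1 := by positivity
  have hr : ((NNReal.mk ((a : ℝ) + 1)⁻¹ (by positivity) : NNReal) : ENNReal) ≤ p.radius :=
    p.le_radius_of_bound a fun k => by
      rw [FormalMultilinearSeries.ofScalars_norm, ← Complex.ofReal_ratCast, Complex.norm_real,
        NNReal.coe_mk, inv_pow, mul_inv_le_iff₀ (by positivity)]
      refine (h k).trans ?_
      rw [pow_succ']
      gcongr
      linarith
  have r0 := ENNReal.coe_pos.2 (show (0 : NNReal) < .mk ((a : ℝ) + 1)⁻¹ (by positivity) from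
    inv_pos.2 a0)
  have hp := (p.hasFPowerSeriesOnBall (r0.trans_le hr)).mono r0 hr
  refine ⟨p.sum, ?_, PowerSeries.ext fun k => ?_⟩
  · have := hp.differentiableOn
    rwa [Metric.eball_coe] at this
  have h5 : (k.factorial : ℂ) ≠ 0 := by exact_mod_cast k.factorial_ne_zero
  rw [coeff_tay, iteratedDeriv_eq_iteratedFDeriv, ← hp.factorial_smul, eq_div_iff h5]
  simp [p, mul_comm]

theorem gf_ana {a : ℕ} {f : α → ℚ⟦X⟧} (hf : GF a f) : ∃ R > 0, ∃ ψ : ℂ → α → ℂ,
    (∀ b, DifferentiableOn ℂ (ψ · b) (ball 0 R)) ∧ (∀ b, mp (f b) = tay (ψ · b) 0) ∧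
      ∀ x ∈ ball (0 : ℂ) R, LimC f x fun b => tay (ψ · b) x := by
  choose g h1 h2 using fun b => org_ana fun k => (hf k).1 b
  exact ⟨_, by positivity, fun z b => g b z, h1, h2, fun x hx b k => org_lim hx k (h1 b) (h2 b)⟩

end

end Pool.Agent.Lib.MP_5591bc_ag.D
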