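import Pool.Agent.Lib.MP_5591bc_ag.D.Kit
import Pool.Agent.Lib.MP_5591bc_ag.W.GKa

/-! The system of the monomials. -/

namespace Pool.Agent.Lib.MP_5591bc_ag.D

open Matrix Finset Filter Topology PowerSeries G R V Function
open W (GK mpK)

noncomputable section

variable {A : Type*} [Fintype A] [DecidableEq A] {K : Type} [Field K] [Algebra K ℂ]
  {T : Polynomial K} {B : Matrix A A (Polynomial K)} {Ω : Set ℂ} {G : ℂ → Matrix A A ℂ⟦X⟧}

theorem vk_gk {L : Type} [Field L] [NumberField L] {h : ℕ} {G0 : Matrix A A L⟦X⟧}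
    (H : GK h fun p : A × A => G0 p.1 p.2) (k : ℕ) :
    GK ((2 * h) ^ k) fun p : Mo A k × Mo A k => (piM fun _ : Fin k => exg 1 G0) p.1 p.2 := by
  have := H.poly (δ := k) (fun p : Mo A k × Mo A k => (piM fun _ : Fin k =>
    exg 1 (of fun i j => (MvPolynomial.X (i, j) : MvPolynomial (A × A) L))) p.1 p.2) fun p => by
      simp only [piM, of_apply]
      refine (MvPolynomial.totalDegree_finsetProd _ _).trans
        ((sum_le_card_nsmul _ _ 1 fun l _ => ?_).trans (by simp))
      rcases p.1 l with _ | a <;> rcases p.2 l with _ | b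
      · simp [exg]
      · simp [exg]
      · simp [exg]
      · by_cases e : a.2 = b.2 <;> simp [exg, e]
  refine this.of fun p => ⟨p, ?_⟩
  simp only [piM, of_apply, map_prod]
  refine prod_congr rfl fun l _ => ?_
  rcases p.1 l with _ | a <;> rcases p.2 l with _ | b
  · simp [exg]
  · simp [exg]
  · simp [exg]
  · by_cases e : a.2 = b.2 <;> simp [exg, e]

theorem SysD.vk (H : SysD T B Ω G) (k : ℕ) :
    SysD (A := Mo A k) T (tB (Fin k) (exg 0 B)) Ω fun x => piM fun _ => exg 1 (G x) := by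
  refine ⟨H.zero, H.ne, fun x hx => ?_, fun x hx => ?_, fun D => ?_⟩
  · rw [piM_map, exg_map _ (map_zero _), map_one, H.one x hx, exg_one, piM_one]
  · rw [tB_map]
    refine gal_piM ?_
    rw [exg_map _ (map_zero _), exg_map _ (map_zero _), exg_smul, exg_mul, H.ode x hx]
    simp only [derivative_one, map_zero, mul_zero, zero_mul]
  · obtain ⟨e, he⟩ := H.ar D
    refine ⟨(e + 1) * k, fun L _ _ _ _ _ hD x hx w hw => ?_⟩
    obtain ⟨G0, h1, h2⟩ := he L hD x hx w hw
    refine ⟨piM fun _ => exg 1 G0, ?_, (vk_gk h2 k).mono ?_⟩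
    · rw [piM_map, exg_map _ (map_zero _), map_one, h1]
    · rw [← pow_succ', ← pow_mul]
      refine Nat.pow_le_pow_right two_pos ?_
      rw [mul_right_comm]
      exact Nat.mul_le_mul_right _ (by nlinarith [hw.dn.1])

end

end Pool.Agent.Lib.MP_5591bc_ag.D
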