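import Pool.Agent.Lib.MP_5591bc_ag.D.Gf
import Pool.Agent.Lib.MP_5591bc_ag.D.Vk
import Pool.Agent.Lib.MP_5591bc_ag.D.Org
import Pool.Agent.Lib.MP_5591bc_ag.V.Bridge

/-! The system attached to a fundamental matrix. -/

namespace Pool.Agent.Lib.MP_5591bc_ag.D

open Matrix Finset Filter Topology PowerSeries G R V Function
open W (GK mpK)

noncomputable section

open Metric

theorem two_rt {ν : Type} [Fintype ν] [DecidableEq ν] (δ : ℕ) (M : Matrix ν ν ℂ) :
    ∃ N : Matrix (Mo ν δ) (Mo ν δ) ℂ, (∀ Z, N *ᵥ vk δ Z = vk δ (Z * M)) ∧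
      ∀ Y : Matrix ν ν ℂ⟦X⟧, piM (fun _ => exg 1 Y) * N.map C = N.map C * piM fun _ => exg 1 Y := by
  refine ⟨piM fun _ => of fun o o' => o.elim (o'.elim 1 fun _ => 0) fun x => o'.elim 0 fun y =>
    if x.1 = y.1 then M y.2 x.2 else 0, fun Z => ?_, fun Y => ?_⟩
  · rw [vk, piM_mulVec, vk]
    congr 1
    ext l (_ | ⟨p, q⟩) <;> simp [hatg, mulVec, dotProduct, Fintype.sum_option,
      Fintype.sum_prod_type, mul_apply, mul_comm]
  · rw [piM_map, piM_mul, piM_mul]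
    congr 1
    ext1 l
    ext1 (_ | ⟨p, q⟩) (_ | ⟨p', q'⟩) <;> simp [exg, mul_apply, Fintype.sum_option,
      Fintype.sum_prod_type, apply_ite C, mul_comm]

theorem two_tay {ν : Type} [Fintype ν] [DecidableEq ν] {K : Type} [Field K] [Algebra K ℂ]
    {T : Polynomial K} {B : Matrix ν ν (Polynomial K)} {P : ℂ → Matrix ν ν ℂ} {x : ℂ}
    (hP : ∀ᶠ t in 𝓝 x, MSol (W.AzK T B) P t) (hx : Polynomial.aeval x T ≠ 0) (δ : ℕ) :
    (∀ μ, AnalyticAt ℂ (fun z => vk δ (P z) μ) x) ∧ (fun μ => tay (fun z => vk δ (P z) μ) x) =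
      piM (fun _ => exg 1 (GbC T B x)) *ᵥ fun a => C (vk δ (P x) a) := by
  have ha : ∀ o, AnalyticAt ℂ (fun z => hatg (P z) o) x := by
    rintro (_ | a)
    exacts [analyticAt_const,
      analyticAt_of_eventually (hP.mono fun t ht => (ht _ _).differentiableAt)]
  simp only [map_vk]
  rw [piM_vk, ← tay_PC hP hx]
  unfold vk tens
  refine ⟨fun μ => Finset.analyticAt_fun_prod _ fun l _ => ha _, funext fun μ => ?_⟩
  refine (tay_prod _ fun l _ => ha _).trans (prod_congr rfl fun l _ => ?_)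
  rcases μ l with _ | ⟨i, j⟩
  exacts [(tay_const 1).trans (map_one _), rfl]

theorem exists_twoD {ν : Type} [Fintype ν] [DecidableEq ν] {K : Type} [Field K] [NumberField K]
    [Algebra K ℂ] {T : Polynomial K} {B : Matrix ν ν (Polynomial K)} (h : GalK T B)
    (hT : T.eval 0 ≠ 0) {U : Set ℂ} (ho : IsOpen U) (hco : IsPreconnected U) (hU : (0 : ℂ) ∈ U)
    {P : ℂ → Matrix ν ν ℂ} (hP : FundK T B U P) (hC : Conn U P) (δ : ℕ) (C0 : Matrix ν ν ℂ) :
    ∃ R > 0, ball (0 : ℂ) R ⊆ U ∧ ∃ B' G f F E φ, ∃ N : Matrix (Mo ν δ) (Mo ν δ) ℂ,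
      TwoD (A := Mo ν δ) (α := Mo ν δ × Ix K) T B' (ball 0 R) G f F E φ ∧
      ∀ x ∈ ball (0 : ℂ) R, G x * N.map C = N.map C * G x ∧
        (fun μ => tay (fun z => vk δ (P z * C0) μ) x) = G x *ᵥ fun a => C ((N *ᵥ φ x) a) := by
  have T0 : Polynomial.aeval (0 : ℂ) T ≠ 0 := by
    have := (map_ne_zero (algebraMap K ℂ)).2 hT
    rwa [← Polynomial.aeval_algebraMap_apply_eq_algebraMap_eval, map_zero] at this
  have S := (sysD_Gb h fun e => hT (by simp [e])).vk δ
  obtain ⟨e, he⟩ := S.ar (Module.finrank ℚ K)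
  obtain ⟨G0, g1, g2⟩ := he K le_rfl 0 (by simpa using T0) 1 ⟨Polynomial.X, Polynomial.X_ne_zero,
    by simp, fun i => by rw [Polynomial.coeff_X]; split_ifs <;> simp⟩
  obtain ⟨f, ⟨a, ha⟩, f2⟩ := gk_coord (g2.comp fun μ : Mo ν δ =>
    (μ, fun l => (μ l).map fun a => (a.2, a.2)))
  obtain ⟨R1, R10, ψ, p1, p2, p3⟩ := gf_ana ha
  obtain ⟨R, R0, hR⟩ := Metric.eventually_nhds_iff_ball.1 ((ho.eventually_mem hU).and
    (((analyticAt_aeval T (0 : ℂ)).continuousAt.eventually_ne T0).and (ball_mem_nhds 0 R10)))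
  have hPs : ∀ z ∈ ball (0 : ℂ) R, ∀ᶠ t in 𝓝 z, MSol (W.AzK T B) P t := fun y hy =>
    (isOpen_ball.eventually_mem hy).mono fun z hz i j => by
      obtain ⟨a1, a2⟩ := (hP _ (hR z hz).1).2 i j
      refine a1.hasDerivAt.congr_deriv ?_
      simp only [W.AzK, mul_apply, of_apply, div_mul_eq_mul_div, ← sum_div, ← a2]
      field_simp [(hR z hz).2.1]
  have ht := fun (M : Matrix ν ν ℂ) x hx => two_tay (P := fun z => P z * M)
    ((hPs x hx).mono fun t ht => ht.mul_const M) (hR x hx).2.1 δ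
  obtain ⟨N, N1, N2⟩ := two_rt δ (P 0 * C0)
  have u0 := Ne.isUnit (hP 0 hU).1
  refine ⟨R, R0, fun z hz => (hR z hz).1, _, _, f, fun x b => tay (ψ · b) x,
    fun μ b => if μ = b.1 then NumberField.integralBasis K b.2 else 0,
    fun x => vk δ (P x * (P 0)⁻¹), N, ⟨S.mono fun x hx => (hR x hx).2.1, ⟨a, ha⟩,
    fun x hx => p3 x (hR x hx).2.2, fun x hx μ => ?_, fun x hx => ?_⟩, fun x hx => ⟨N2 _, ?_⟩⟩
  · have a1 : ∀ y ∈ ball (0 : ℂ) R, ∀ b, AnalyticAt ℂ (ψ · (μ, b)) y := fun y hy b =>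
      (p1 _).analyticAt (isOpen_ball.mem_nhds (hR y hy).2.2)
    have a2 : ∀ y ∈ ball (0 : ℂ) R, AnalyticAt ℂ (fun z => ∑ b, algebraMap K ℂ
        (NumberField.integralBasis K b) * ψ z (μ, b)) y := fun y hy =>
      Finset.analyticAt_fun_sum _ fun b _ => analyticAt_const.fun_mul (a1 y hy b)
    have a3 := fun y hy => brg_zero (convex_ball (0 : ℂ) R).isPreconnected
      (fun z hz => ((ht (P 0)⁻¹ z hz).1 μ).fun_sub (a2 z hz)) (x := y) hy (isOpen_ball.mem_nhds hy)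
    have a4 : ∀ y ∈ ball (0 : ℂ) R, _ ↔ (piM (fun _ => exg 1 (GbC T B y)) *ᵥ
        fun a => C (vk δ (P y * (P 0)⁻¹) a)) μ = ∑ b, C (algebraMap K ℂ
        (NumberField.integralBasis K b)) * tay (ψ · (μ, b)) y := fun y hy => (a3 y hy).trans (by
      rw [tay_sub ((ht _ y hy).1 μ) (a2 y hy), sub_eq_zero, ← (ht _ y hy).2,
        tay_sum _ fun b _ => analyticAt_const.fun_mul (a1 y hy b)]
      simp only [tay_cmul (a1 y hy _)])
    rw [(a4 x hx).1 ((a4 0 (mem_ball_self R0)).2 ?_)]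
    · simp [Fintype.sum_prod_type, apply_ite (algebraMap K ℂ), apply_ite C]
    simp only [← p2, ← f2, map_vk]
    rw [map_zero] at g1
    rw [mul_nonsing_inv _ u0, Matrix.map_one _ (map_zero _) (map_one _), piM_vk, Matrix.mul_one,
      ← map_apply (f := mpK K), ← g1, vk, tens, piM, of_apply]
    refine prod_congr rfl fun l _ => ?_
    beta_reduce
    rcases μ l with _ | ⟨i, j⟩ <;> simp [exg, hatg]
  · refine ((conn_iff ho hco (fun i j t ht => ((hP t ht).2 i j).1.differentiableWithinAt)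
      (hR x hx).1).1 hC).mono (range_evG fun i j => ?_)
    have b1 := congrArg (· * (P x)⁻¹.map C) (tay_PC (hPs x hx) (hR x hx).2.1)
    simp only [Matrix.mul_assoc, ← Matrix.map_mul, mul_nonsing_inv _ (Ne.isUnit (hP _ (hR x hx).1).1),
      Matrix.map_one _ (map_zero _) (map_one _), Matrix.mul_one] at b1
    have b2 : ∀ a b, GbC T B x a b ∈ (evG x (of fun i j => tay (P · i j) x)).range := fun a b => by
      rw [← b1, mul_apply]
      exact sum_mem fun l _ => mul_mem ⟨MvPolynomial.X (a, l), by simp [evG]⟩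
        ⟨MvPolynomial.C (Polynomial.C ((P x)⁻¹ l b)), by simp [evG, τc_C]⟩
    rw [piM, of_apply]
    refine prod_mem fun l _ => ?_
    rcases i l with _ | a <;> rcases j l with _ | b
    · exact one_mem _
    · exact zero_mem _
    · exact zero_mem _
    · by_cases e : a.2 = b.2
      · simpa only [exg, of_apply, Option.elim_some, if_pos e] using b2 a.1 b.1
      · simp only [exg, of_apply, Option.elim_some, if_neg e]; exact zero_mem _
  · rw [(ht C0 x hx).2, N1, Matrix.mul_assoc, nonsing_inv_mul_cancel_left _ _ u0]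

end

end Pool.Agent.Lib.MP_5591bc_ag.D
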