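import Pool.Agent.Lib.MP_5591bc_ag.D.Kit

/-! Heights. -/

namespace Pool.Agent.Lib.MP_5591bc_ag.D

open Matrix Finset Filter Topology PowerSeries G R V Function
open W (GK mpK)

noncomputable section

/-- algebraic integers of bounded degree with bounded conjugates -/
theorem ht_fin (D : ℕ) (S : ℝ) : ∃ Z : Set ℂ, Z.Finite ∧ ∀ (L : Type) [Field L] [NumberField L]
    (ι : L →+* ℂ), Module.finrank ℚ L ≤ D → ∀ y : L, IsIntegral ℤ y →
      (∀ φ : L →+* ℂ, ‖φ y‖ ≤ S) → ι y ∈ Z := by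
  classical
  let C := Nat.ceil (max S 1 ^ D * 2 ^ D)
  refine ⟨_, Polynomial.bUnion_roots_finite (algebraMap ℤ ℂ) D (Set.finite_Icc (-C : ℤ) C),
    fun L _ _ ι hD y hy hS => ?_⟩
  simp_rw [Set.mem_iUnion]
  have e := minpoly.isIntegrallyClosed_eq_field_fractions' ℚ hy
  refine ⟨minpoly ℤ y, ⟨?_, fun i => ?_⟩, Polynomial.mem_rootSet.2
    ⟨minpoly.ne_zero hy, ?_⟩⟩
  · rw [← (minpoly.monic hy).natDegree_map (algebraMap ℤ ℚ), ← e]
    exact (minpoly.natDegree_le y).trans hD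
  · rw [Set.mem_Icc, ← abs_le, ← @Int.cast_le ℝ]
    refine ((Eq.trans_le ?_ <| NumberField.Embeddings.coeff_bdd_of_norm_le hS i).trans ?_).trans
      (Nat.le_ceil _)
    · rw [e, Polynomial.coeff_map, eq_intCast, Int.norm_cast_rat, Int.norm_eq_abs, Int.cast_abs]
    · refine mul_le_mul (pow_le_pow_right₀ (le_max_right _ _) hD) ?_ (Nat.cast_nonneg _)
        (by positivity)
      exact_mod_cast (Nat.choose_le_two_pow _ _).trans (Nat.pow_le_pow_right two_pos hD)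
  · have := Polynomial.aeval_algHom_apply ι.toIntAlgHom y (minpoly ℤ y)
    rw [minpoly.aeval, map_zero] at this
    exact this

/-- Northcott's theorem -/
theorem fin_hq (K : Type) [Field K] [NumberField K] [Algebra K ℂ] (d w : ℕ) :
    {x : ℂ | Hq x w ∧ ∃ L : IntermediateField K ℂ, FiniteDimensional K L ∧
      Module.finrank K L ≤ d ∧ x ∈ L}.Finite := by
  obtain ⟨Z, hZ, h⟩ := ht_fin (Module.finrank ℚ K * d) (2 ^ w * 2 ^ w)
  refine ((Set.finite_Icc 1 (2 ^ w)).biUnion fun (a : ℕ) _ => hZ.image (· / (a : ℂ))).subset ?_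
  rintro x ⟨hq, L, hL, hd, hx⟩
  have : NumberField L := NumberField.of_module_finite K L
  obtain ⟨-, a, a0, a1, a2, a3⟩ := Hq.dn (L := L) (x := ⟨x, hx⟩) hq
  refine Set.mem_biUnion (x := a) ⟨a0, a1⟩ ⟨_, h L (algebraMap L ℂ) ?_ _ a2 fun φ => ?_, ?_⟩
  · rw [← Module.finrank_mul_finrank ℚ K L]
    exact Nat.mul_le_mul_left _ hd
  · rw [map_mul, map_natCast, norm_mul, Complex.norm_natCast]
    exact mul_le_mul (by exact_mod_cast a1) (a3 φ) (norm_nonneg _) (by positivity)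
  · have : (a : ℂ) ≠ 0 := by exact_mod_cast a0.ne'
    rw [map_mul, map_natCast]
    exact mul_div_cancel_left₀ x this

theorem exists_w {η : ℝ} (η0 : 0 < η) : ∃ s : ℝ, 0 ≤ s ∧ s < 1 ∧ ∀ (x : ℂ) (q : Polynomial ℤ)
    (H : ℝ), q ≠ 0 → Polynomial.aeval x q = 0 → (∀ i, |(q.coeff i : ℝ)| ≤ H) → ‖x‖ ≤ H ^ (-η) →
    ∃ w, Hq x w ∧ (2 ≤ w → ‖x‖ ≤ s ^ w) := by
  refine ⟨2 ^ (-η / 2), by positivity,
    Real.rpow_lt_one_of_one_lt_of_neg one_lt_two (by linarith), fun x q H q0 hx hq hn => ?_⟩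
  have H1 : 1 ≤ H := le_trans (by
    exact_mod_cast Int.one_le_abs (Polynomial.leadingCoeff_ne_zero.2 q0)) (hq q.natDegree)
  obtain ⟨j, j1, j2⟩ := exists_nat_pow_near H1 (one_lt_two (α := ℝ))
  refine ⟨j + 1, ⟨q, q0, hx, fun i => by exact_mod_cast (hq i).trans_lt j2⟩, fun hj => hn.trans ?_⟩
  refine (Real.rpow_le_rpow_of_nonpos (by positivity) j1 (by linarith)).trans ?_
  rw [← Real.rpow_natCast, ← Real.rpow_natCast, ← Real.rpow_mul zero_le_two,
    ← Real.rpow_mul zero_le_two]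
  refine Real.rpow_le_rpow_of_exponent_le one_le_two ?_
  have : (1 : ℝ) ≤ j := by exact_mod_cast (by omega : 1 ≤ j)
  push_cast
  nlinarith

end

end Pool.Agent.Lib.MP_5591bc_ag.D
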