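import Pool.Agent.Lib.MP_5591bc_ag.D.Defs
import Pool.Agent.Lib.MP_5591bc_ag.W.GF

/-! Translation and extension of scalars. -/

namespace Pool.Agent.Lib.MP_5591bc_ag.D

open Matrix Finset Filter Topology PowerSeries G R V Function
open W (GK mpK)

noncomputable section

variable {ν : Type*} [Fintype ν] [DecidableEq ν] {K : Type*} [Field K] [NumberField K]

theorem galK_shift {T : Polynomial K} {B : Matrix ν ν (Polynomial K)} (h : GalK T B) (s : K) :
    GalK (Polynomial.taylor s T) (B.map (Polynomial.taylor s)) := by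
  obtain ⟨c, hc⟩ := h
  obtain ⟨g, g1, g2⟩ := exists_deg T B
  obtain ⟨q, q0, hq⟩ := W.gf_cden ({s} : Finset K)
  refine ⟨|c| * q ^ g, fun m => ?_⟩
  obtain ⟨d, d0, d1, d2⟩ := hc m
  refine ⟨d * (q ^ g) ^ m, by positivity, ?_, fun k hk i j l => ?_⟩
  · rw [mul_pow, Nat.cast_mul, Nat.cast_pow, Nat.cast_pow, ← abs_pow]
    exact mul_le_mul (d1.trans (le_abs_self _)) (pow_le_pow_right₀
      (one_le_pow₀ (by exact_mod_cast q0)) m.le_succ) (by positivity) (abs_nonneg _)
  have hz := W.gf_den s (a := (d : K) / k.factorial) (D := g * m) (d := (q : K))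
    (W := Polynomial.hasseDeriv l (iterK T B k i j)) (isIntegral_natCast _)
    (hq s (mem_singleton_self s)) ((Polynomial.natDegree_hasseDeriv_le _ _).trans
      ((Nat.sub_le _ _).trans ((deg_iter g1 g2 k i j).trans
        (mul_comm g m ▸ Nat.mul_le_mul_right g hk))))
    fun p => by
      rw [Polynomial.hasseDeriv_coeff, mul_left_comm, div_mul_eq_mul_div]
      exact (isIntegral_natCast _).mul (d2 k hk i j (p + l))
  rw [iterK_taylor, map_apply, Polynomial.taylor_coeff, Nat.cast_mul, Nat.cast_pow, Nat.cast_pow,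
    ← pow_mul, mul_div_right_comm, mul_div_right_comm]
  exact hz

theorem galK_map {T : Polynomial ℚ} {B : Matrix ν ν (Polynomial ℚ)} (h : GalK T B) :
    GalK (T.map (algebraMap ℚ K)) (B.map (Polynomial.map (algebraMap ℚ K))) := by
  obtain ⟨c, hc⟩ := h
  refine ⟨c, fun m => ?_⟩
  obtain ⟨d, d0, d1, d2⟩ := hc m
  refine ⟨d, d0, d1, fun k hk i j l => ?_⟩
  have := (d2 k hk i j l).map (algebraMap ℚ K).toIntAlgHom
  rw [W.gf_iter_map, map_apply, Polynomial.coeff_map]
  simpa only [RingHom.toIntAlgHom_coe, map_div₀, map_mul, map_natCast] using this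

theorem fundK_shift [Algebra K ℂ] {T : Polynomial K} {B : Matrix ν ν (Polynomial K)} {U : Set ℂ}
    {P : ℂ → Matrix ν ν ℂ} (h : FundK T B U P) (s : K) :
    FundK (Polynomial.taylor s T) (B.map (Polynomial.taylor s)) {z | z + algebraMap K ℂ s ∈ U}
      fun z => P (z + algebraMap K ℂ s) := by
  have hta : ∀ (z : ℂ) (p : Polynomial K), Polynomial.aeval z (Polynomial.taylor s p) =
      Polynomial.aeval (z + algebraMap K ℂ s) p := fun z p => by
    simp [Polynomial.taylor_apply, Polynomial.aeval_comp]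
  refine fun z hz => ⟨(h _ hz).1, fun i j => ?_⟩
  obtain ⟨a1, a2⟩ := (h _ hz).2 i j
  have := a1.hasDerivAt.comp_add_const z (algebraMap K ℂ s)
  exact ⟨this.differentiableAt, by simp only [this.deriv, map_apply, hta, a2]⟩

theorem fundK_map [Algebra K ℂ] {T : Polynomial ℚ} {B : Matrix ν ν (Polynomial ℚ)} {U : Set ℂ}
    {P : ℂ → Matrix ν ν ℂ} (h : FundK T B U P) :
    FundK (T.map (algebraMap ℚ K)) (B.map (Polynomial.map (algebraMap ℚ K))) U P := by
  refine fun z hz => ⟨(h _ hz).1, fun i j => ⟨((h _ hz).2 i j).1, ?_⟩⟩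
  simp only [map_apply, Polynomial.aeval_map_algebraMap]
  exact ((h _ hz).2 i j).2

end

end Pool.Agent.Lib.MP_5591bc_ag.D
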