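import Pool.Agent.Lib.MP_5591bc_ag.D.Elim
import Pool.Agent.Lib.MP_5591bc_ag.D.Two
import Pool.Agent.Lib.MP_5591bc_ag.D.Ht
import Pool.Agent.Lib.MP_5591bc_ag.D.Shift
import Pool.Agent.Lib.MP_5591bc_ag.D.Good
import Pool.Agent.Lib.MP_5591bc_ag.V.NearFam

/-! Finiteness of the exceptional points of bounded degree near an ordinary point. -/

namespace Pool.Agent.Lib.MP_5591bc_ag.D

open Matrix Finset Filter Topology PowerSeries G R V Function
open W (GK mpK)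

noncomputable section

theorem near_d {K : Type} [Field K] [NumberField K] [Algebra K ℂ] {n : ℕ} (δ d : ℕ)
    {T : Polynomial K} {B : Matrix (Fin n) (Fin n) (Polynomial K)} (h : GalK T B) {s : K}
    (hT : T.eval s ≠ 0) {U : Set ℂ} (ho : IsOpen U) (hc : IsPreconnected U)
    (hs : algebraMap K ℂ s ∈ U) {P : ℂ → Matrix (Fin n) (Fin n) ℂ} (hP : FundK T B U P)
    (hC : Conn U P) (C0 : Matrix (Fin n) (Fin n) ℂ) {η : ℝ} (η0 : 0 < η) :
    {x : ℂ | ∃ (L : IntermediateField K ℂ) (hx : x ∈ L) (q : Polynomial ℤ) (H : ℝ),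
      FiniteDimensional K L ∧ Module.finrank K L ≤ d ∧ q ≠ 0 ∧ Polynomial.aeval x q = 0 ∧
      (∀ i, |(q.coeff i : ℝ)| ≤ H) ∧ ‖x‖ ≤ H ^ (-η) ∧
      ¬ W.GoodM U (fun t => P t * C0) δ (algebraMap K L s + ⟨x, hx⟩)}.Finite := by
  classical
  obtain ⟨R, R0, hU, B', G, f, F, E, φ, N, H, hN⟩ := exists_twoD (galK_shift h s)
    (by rwa [Polynomial.taylor_eval, zero_add]) (U := {z | z + algebraMap K ℂ s ∈ U})
    (ho.preimage (continuous_add_const _)) (by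
      have : {z : ℂ | z + algebraMap K ℂ s ∈ U} = (fun z : ℂ => z - algebraMap K ℂ s) '' U := by
        ext z
        exact ⟨fun h => ⟨_, h, add_sub_cancel_right _ _⟩, by rintro ⟨t, h, rfl⟩; simpa using h⟩
      exact this ▸ hc.image _ (continuous_sub_right _).continuousOn) (by simpa using hs)
    (fundK_shift hP s) (hC.shift _) δ C0
  obtain ⟨t, t0, t1, hw⟩ := exists_w η0
  obtain ⟨w0, hw0⟩ := exists_pow_lt_of_lt_one R0 t1
  generalize hX : {x : ℂ | ∃ (L : IntermediateField K ℂ) (hx : x ∈ L) (q : Polynomial ℤ) (H : ℝ),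
      FiniteDimensional K L ∧ Module.finrank K L ≤ d ∧ q ≠ 0 ∧ Polynomial.aeval x q = 0 ∧
      (∀ i, |(q.coeff i : ℝ)| ≤ H) ∧ ‖x‖ ≤ H ^ (-η) ∧
      ¬ W.GoodM U (fun t => P t * C0) δ (algebraMap K L s + ⟨x, hx⟩)} = X
  have key : ∀ x ∈ X, ∃ (L : IntermediateField K ℂ) (w : ℕ), FiniteDimensional K L ∧
      Module.finrank K L ≤ d ∧ x ∈ L ∧ Hq x w ∧ (2 ≤ w → ‖x‖ ≤ t ^ w) ∧ ∀ hx : x ∈ L,
        ¬ W.GoodM U (fun t => P t * C0) δ (algebraMap K L s + ⟨x, hx⟩) := by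
    subst hX
    rintro x ⟨L, hx, q, H, a1, a2, a3, a4, a5, a6, a7⟩
    obtain ⟨w, b1, b2⟩ := hw x q H a3 a4 a5 a6
    exact ⟨L, w, a1, a2, hx, b1, b2, fun _ => a7⟩
  choose! L w l1 l2 l3 l4 l5 l6 using key
  have hb : ∀ x ∈ X, w0 + 2 ≤ w x → x ∈ Metric.ball (0 : ℂ) R := fun x hx e =>
    mem_ball_zero_iff.2 (((l5 x hx (by omega)).trans
      (pow_le_pow_of_le_one t0 t1.le (by omega))).trans_lt hw0)
  have bd : ∃ m, ∀ x ∈ X, x ≠ 0 → w0 + 2 ≤ w x → w x < m := by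
    by_contra hi
    push Not at hi
    obtain ⟨x, ⟨x1, -, x3⟩, x2⟩ := H.elim d (fun x hx => (hN x hx).1) t0 t1
      (S := {x | x ∈ X ∧ x ≠ 0 ∧ w0 + 2 ≤ w x}) (w := w) (L := L)
      (fun x hx => ⟨hb x hx.1 hx.2.2, l1 x hx.1, l2 x hx.1, l3 x hx.1, l4 x hx.1, hx.2.1,
        l5 x hx.1 (by have := hx.2.2; omega)⟩)
      fun m => by
        obtain ⟨x, a1, a2, a3, a4⟩ := hi m
        exact ⟨x, ⟨a1, a2, a3⟩, a4⟩
    have e : algebraMap (L x) ℂ (algebraMap K (L x) s) = algebraMap K ℂ s :=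
      (IsScalarTower.algebraMap_apply K (L x) ℂ s).symm
    refine l6 x x1 (l3 x x1) (goodM_ofD ho hc (fun i j z hz => ?_) ?_ ?_)
    · simp only [mul_apply]
      exact (DifferentiableAt.fun_sum fun a _ =>
        ((hP z hz).2 i a).1.mul_const _).differentiableWithinAt
    · rw [e]
      exact hU (hb x x1 x3)
    · have := x2 (l3 x x1)
      rw [← (hN x (hb x x1 x3)).2] at this
      rw [e]
      exact this
  obtain ⟨m, hm⟩ := bd
  refine ((fin_hq K d (m + w0 + 2)).insert 0).subset fun x hx => ?_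
  by_cases x0 : x = 0
  · exact Or.inl x0
  refine Or.inr ⟨(l4 x hx).mono ?_, L x, l1 x hx, l2 x hx, l3 x hx⟩
  rcases le_or_gt (w0 + 2) (w x) with e | e
  · have := hm x hx x0 e
    omega
  · omega

theorem near_fam_d {K : Type} [Field K] [NumberField K] [Algebra K ℂ] {f : Polynomial ℚ} {n : ℕ}
    (hn : 0 < n) (hf : f.natDegree = n) (hq : Squarefree f) (δ d : ℕ) {s : K}
    (hT : Polynomial.aeval s f ≠ 0) {U : Set ℂ} (ho : IsOpen U) (hc : IsPreconnected U)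
    (hs : algebraMap K ℂ s ∈ U) {P : ℂ → Matrix (Fin n) (Fin n) ℂ} (hP : IsPeriodMatrix f U P)
    {η : ℝ} (η0 : 0 < η) :
    {x : ℂ | ∃ (L : IntermediateField K ℂ) (hx : x ∈ L) (q : Polynomial ℤ) (H : ℝ),
      FiniteDimensional K L ∧ Module.finrank K L ≤ d ∧ q ≠ 0 ∧ Polynomial.aeval x q = 0 ∧
      (∀ i, |(q.coeff i : ℝ)| ≤ H) ∧ ‖x‖ ≤ H ^ (-η) ∧
      ¬ W.GoodM U P δ (algebraMap K L s + ⟨x, hx⟩)}.Finite := by
  have := near_d δ d (galK_map (K := K) (galK_oB hn hf)) (s := s)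
    (by simpa [Polynomial.eval_map_algebraMap, map_ofNat] using hT) ho hc hs
    (fundK_map (fund_oB hn hf ho hP)) (conn_fam hn hf hq ho hc hP) 1 η0
  simpa only [Matrix.mul_one] using this

end

end Pool.Agent.Lib.MP_5591bc_ag.D
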