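import Pool.Agent.Lib.MP_5591bc_ag.D.CuspC
import Pool.Agent.Lib.MP_5591bc_ag.D.Near

/-! Finiteness of the exceptional points of bounded degree near an ordinary point or a simple pole
with nilpotent residue. -/

namespace Pool.Agent.Lib.MP_5591bc_ag.D

open Matrix Finset Filter Topology PowerSeries G R V Function
open W (GK mpK)

noncomputable section

theorem cusp_scale {ν K : Type*} [Fintype ν] [DecidableEq ν] [Field K] {T : Polynomial K}
    {B : Matrix ν ν (Polynomial K)} (h : GalK T B) :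
    GalK (Polynomial.X * T) ((Polynomial.X : Polynomial K) • B) := by
  obtain ⟨c, hc⟩ := h
  refine ⟨c, fun m => ?_⟩
  obtain ⟨d, d0, d1, d2⟩ := hc m
  refine ⟨d, d0, d1, fun k hk i j l => ?_⟩
  rw [mul_comm Polynomial.X, iterK_scale, Matrix.smul_apply, smul_eq_mul,
    Polynomial.coeff_X_pow_mul']
  split_ifs
  exacts [d2 k hk i j _, by simpa using isIntegral_zero]

theorem cusp_two {ν : Type} [Fintype ν] [DecidableEq ν] {K : Type} [Field K] [NumberField K]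
    [Algebra K ℂ] {T : Polynomial K} {B : Matrix ν ν (Polynomial K)} (h : GalK T B)
    (hT : T.eval 0 = 0 → T.derivative.eval 0 ≠ 0 ∧ IsNilpotent (B.map (Polynomial.eval 0)))
    {U : Set ℂ} (ho : IsOpen U) (hco : IsPreconnected U) {P : ℂ → Matrix ν ν ℂ}
    (hP : FundK T B U P) (hC : Conn U P) (δ : ℕ) (C0 : Matrix ν ν ℂ) {ρ : ℝ} (ρ0 : 0 < ρ)
    {Z : ℂ → Matrix ν ν ℂ} (hZ : Hol (Metric.ball 0 ρ) Z)
    (e : ∀ t ∈ U, t ∈ Metric.ball (0 : ℂ) ρ → P t * C0 = Z t) :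
    ∃ R > 0, ∃ T' : Polynomial K, ∃ B' G f F E φ, ∃ N : Matrix (Mo ν δ) (Mo ν δ) ℂ,
      TwoD (A := Mo ν δ) (α := Mo (ν × Ix K) δ) T' B'
        {x | x ∈ Metric.ball (0 : ℂ) R ∧ x ∈ U ∧ x ≠ 0} G f F E φ ∧
      ∀ x ∈ {x | x ∈ Metric.ball (0 : ℂ) R ∧ x ∈ U ∧ x ≠ 0}, G x * N.map C = N.map C * G x ∧
        (fun μ => tay (fun z => vk δ (P z * C0) μ) x) = G x *ᵥ fun a => C ((N *ᵥ φ x) a) := by
  by_cases T0 : T.eval 0 = 0
  · obtain ⟨T, rfl⟩ := Polynomial.X_dvd_iff.2 ((Polynomial.coeff_zero_eq_eval_zero T).trans T0)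
    obtain ⟨R, R0, H⟩ := exists_twoD_cusp h (by simpa using (hT T0).1) (hT T0).2 ho hco hP hC δ C0
      ρ0 hZ e
    exact ⟨R, R0, _, H⟩
  obtain ⟨R, R0, H⟩ := exists_twoD_cusp (cusp_scale h) T0
    ⟨1, by ext; simp⟩ ho hco (P := P) (fun t ht => ⟨(hP t ht).1, fun i j =>
      ⟨((hP t ht).2 i j).1, by
        simp only [map_mul, Matrix.smul_apply, smul_eq_mul, mul_assoc, ((hP t ht).2 i j).2,
          mul_sum]⟩⟩) hC δ C0 ρ0 hZ e
  exact ⟨R, R0, _, H⟩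

theorem cusp_d {K : Type} [Field K] [NumberField K] [Algebra K ℂ] {n : ℕ} (δ d : ℕ)
    {T : Polynomial K} {B : Matrix (Fin n) (Fin n) (Polynomial K)} (h : GalK T B) {s : K}
    (hT : T.eval s = 0 → T.derivative.eval s ≠ 0 ∧ IsNilpotent (B.map (Polynomial.eval s)))
    {U : Set ℂ} (ho : IsOpen U) (hc : IsPreconnected U) {P : ℂ → Matrix (Fin n) (Fin n) ℂ}
    (hP : FundK T B U P) (hC : Conn U P) (C0 : Matrix (Fin n) (Fin n) ℂ)
    {Z : ℂ → Matrix (Fin n) (Fin n) ℂ} (hZ : ∀ i j, AnalyticAt ℂ (Z · i j) (algebraMap K ℂ s))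
    (hs : ∀ᶠ t in 𝓝[U] algebraMap K ℂ s, P t * C0 = Z t) {η : ℝ} (η0 : 0 < η) :
    {x : ℂ | ∃ (L : IntermediateField K ℂ) (hx : x ∈ L) (q : Polynomial ℤ) (H : ℝ),
      FiniteDimensional K L ∧ Module.finrank K L ≤ d ∧ q ≠ 0 ∧ Polynomial.aeval x q = 0 ∧
      (∀ i, |(q.coeff i : ℝ)| ≤ H) ∧ ‖x‖ ≤ H ^ (-η) ∧ algebraMap K ℂ s + x ∈ U ∧
      ¬ W.GoodM U (fun t => P t * C0) δ (algebraMap K L s + ⟨x, hx⟩)}.Finite := by
  classical
  obtain ⟨ρ, ρ0, hρ⟩ := Metric.eventually_nhds_iff_ball.1 ((eventually_nhdsWithin_iff.1 hs).and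
    (eventually_all.2 fun i => eventually_all.2 fun j => (hZ i j).eventually_analyticAt))
  have mb : ∀ z ∈ Metric.ball (0 : ℂ) ρ, z + algebraMap K ℂ s ∈ Metric.ball (algebraMap K ℂ s) ρ :=
    fun z hz => by simpa using hz
  obtain ⟨R, R0, T', B', G, f, F, E, φ, N, H, hN⟩ := cusp_two (galK_shift h s) (fun e => by
      rw [Polynomial.taylor_eval, zero_add] at e
      refine ⟨?_, ?_⟩
      · simpa [Polynomial.taylor_apply, Polynomial.derivative_comp] using (hT e).1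
      · convert (hT e).2 using 1
        ext
        simp [Polynomial.taylor_eval])
    (U := {z | z + algebraMap K ℂ s ∈ U}) (ho.preimage (continuous_add_const _)) (by
      have : {z : ℂ | z + algebraMap K ℂ s ∈ U} = (fun z : ℂ => z - algebraMap K ℂ s) '' U := by
        ext z
        exact ⟨fun h => ⟨_, h, add_sub_cancel_right _ _⟩, by rintro ⟨t, h, rfl⟩; simpa using h⟩
      exact this ▸ hc.image _ (continuous_sub_right _).continuousOn)
    (fundK_shift hP s) (hC.shift _) δ C0 ρ0 (Z := fun z => Z (z + algebraMap K ℂ s))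
    (fun i j z hz => (((hρ _ (mb z hz)).2 i j).differentiableAt.hasDerivAt.comp_add_const z
      _).differentiableAt.differentiableWithinAt) fun t ht h => (hρ _ (mb t h)).1 ht
  obtain ⟨t, t0, t1, hw⟩ := exists_w η0
  obtain ⟨w0, hw0⟩ := exists_pow_lt_of_lt_one R0 t1
  generalize hX : {x : ℂ | ∃ (L : IntermediateField K ℂ) (hx : x ∈ L) (q : Polynomial ℤ) (H : ℝ),
      FiniteDimensional K L ∧ Module.finrank K L ≤ d ∧ q ≠ 0 ∧ Polynomial.aeval x q = 0 ∧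
      (∀ i, |(q.coeff i : ℝ)| ≤ H) ∧ ‖x‖ ≤ H ^ (-η) ∧ algebraMap K ℂ s + x ∈ U ∧
      ¬ W.GoodM U (fun t => P t * C0) δ (algebraMap K L s + ⟨x, hx⟩)} = X
  have key : ∀ x ∈ X, ∃ (L : IntermediateField K ℂ) (w : ℕ), FiniteDimensional K L ∧
      Module.finrank K L ≤ d ∧ x ∈ L ∧ Hq x w ∧ (2 ≤ w → ‖x‖ ≤ t ^ w) ∧
        x + algebraMap K ℂ s ∈ U ∧ ∀ hx : x ∈ L,
        ¬ W.GoodM U (fun t => P t * C0) δ (algebraMap K L s + ⟨x, hx⟩) := by
    subst hX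
    rintro x ⟨L, hx, q, H, a1, a2, a3, a4, a5, a6, a8, a7⟩
    obtain ⟨w, b1, b2⟩ := hw x q H a3 a4 a5 a6
    exact ⟨L, w, a1, a2, hx, b1, b2, add_comm x _ ▸ a8, fun _ => a7⟩
  choose! L w l1 l2 l3 l4 l5 l7 l6 using key
  have hb : ∀ x ∈ X, w0 + 2 ≤ w x → x ∈ Metric.ball (0 : ℂ) R := fun x hx e =>
    mem_ball_zero_iff.2 (((l5 x hx (by omega)).trans
      (pow_le_pow_of_le_one t0 t1.le (by omega))).trans_lt hw0)
  have bd : ∃ m, ∀ x ∈ X, x ≠ 0 → w0 + 2 ≤ w x → w x < m := by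
    by_contra hi
    push Not at hi
    obtain ⟨x, ⟨x1, x0, x3⟩, x2⟩ := H.elim d (fun x hx => (hN x hx).1) t0 t1
      (S := {x | x ∈ X ∧ x ≠ 0 ∧ w0 + 2 ≤ w x}) (w := w) (L := L)
      (fun x hx => ⟨⟨hb x hx.1 hx.2.2, l7 x hx.1, hx.2.1⟩, l1 x hx.1, l2 x hx.1, l3 x hx.1,
        l4 x hx.1, hx.2.1, l5 x hx.1 (by have := hx.2.2; omega)⟩)
      fun m => by
        obtain ⟨x, a1, a2, a3, a4⟩ := hi m
        exact ⟨x, ⟨a1, a2, a3⟩, a4⟩
    have e : algebraMap (L x) ℂ (algebraMap K (L x) s) = algebraMap K ℂ s :=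
      (IsScalarTower.algebraMap_apply K (L x) ℂ s).symm
    refine l6 x x1 (l3 x x1) (goodM_ofD ho hc (fun i j z hz => ?_) ?_ ?_)
    · simp only [mul_apply]
      exact (DifferentiableAt.fun_sum fun a _ =>
        ((hP z hz).2 i a).1.mul_const _).differentiableWithinAt
    · rw [e]
      exact l7 x x1
    · have := x2 (l3 x x1)
      rw [← (hN x ⟨hb x x1 x3, l7 x x1, x0⟩).2] at this
      rw [e]
      exact this
  obtain ⟨m, hm⟩ := bd
  refine ((fin_hq K d (m + w0 + 2)).insert 0).subset fun x hx => ?_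
  by_cases x0 : x = 0
  · exact Or.inl x0
  refine Or.inr ⟨(l4 x hx).mono ?_, L x, l1 x hx, l2 x hx, l3 x hx⟩
  rcases le_or_gt (w0 + 2) (w x) with e | e
  · have := hm x hx x0 e
    omega
  · omega

theorem cusp_fam_d {K : Type} [Field K] [NumberField K] [Algebra K ℂ] {f : Polynomial ℚ} {n : ℕ}
    (hn : 0 < n) (hf : f.natDegree = n) (hq : Squarefree f) (δ d : ℕ) (s : K)
    {U : Set ℂ} (ho : IsOpen U) (hc : IsPreconnected U) {P : ℂ → Matrix (Fin n) (Fin n) ℂ}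
    (hP : IsPeriodMatrix f U P) (C0 : Matrix (Fin n) (Fin n) ℂ)
    {Z : ℂ → Matrix (Fin n) (Fin n) ℂ} (hZ : ∀ i j, AnalyticAt ℂ (Z · i j) (algebraMap K ℂ s))
    (hs : ∀ᶠ t in 𝓝[U] algebraMap K ℂ s, P t * C0 = Z t) {η : ℝ} (η0 : 0 < η) :
    {x : ℂ | ∃ (L : IntermediateField K ℂ) (hx : x ∈ L) (q : Polynomial ℤ) (H : ℝ),
      FiniteDimensional K L ∧ Module.finrank K L ≤ d ∧ q ≠ 0 ∧ Polynomial.aeval x q = 0 ∧
      (∀ i, |(q.coeff i : ℝ)| ≤ H) ∧ ‖x‖ ≤ H ^ (-η) ∧ algebraMap K ℂ s + x ∈ U ∧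
      ¬ W.GoodM U (fun t => P t * C0) δ (algebraMap K L s + ⟨x, hx⟩)}.Finite := by
  refine cusp_d δ d (galK_map (K := K) (galK_oB hn hf)) (fun e => ?_) ho hc
    (fundK_map (fund_oB hn hf ho hP)) (conn_fam hn hf hq ho hc hP) C0 hZ hs η0
  have e1 : Polynomial.aeval s f = 0 := by
    simpa [Polynomial.eval_map_algebraMap, map_ofNat] using e
  refine ⟨?_, ?_⟩
  · simpa [Polynomial.eval_map_algebraMap, map_ofNat] using
      (PerfectField.separable_iff_squarefree.2 hq).aeval_derivative_ne_zero e1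
  · obtain ⟨k, hk⟩ := nil_oB hf.le (a := algebraMap K ℂ s)
      (by rw [Polynomial.aeval_algebraMap_apply, e1, map_zero])
    refine ⟨k, Matrix.map_injective (algebraMap K ℂ).injective ?_⟩
    simp only [Matrix.map_pow, Matrix.map_zero _ (map_zero _)]
    convert hk using 2
    ext
    simp [Polynomial.eval_map_algebraMap, Polynomial.aeval_algebraMap_apply]

end

end Pool.Agent.Lib.MP_5591bc_ag.D
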