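import Pool.Agent.Lib.MP_5591bc_ag.D.Kit

/-! Projection of a complex relation to a subfield. -/

namespace Pool.Agent.Lib.MP_5591bc_ag.D

open Matrix Finset Filter Topology PowerSeries G R V Function
open W (GK mpK)

noncomputable section

/-- coefficientwise projection of a complex series -/
def repL {L : Type*} [Field L] [Algebra L ℂ] (π : Module.Dual L ℂ) : ℂ⟦X⟧ →+ L⟦X⟧ where
  toFun F := PowerSeries.mk fun n => π (coeff n F)
  map_zero' := by ext; simp
  map_add' F G := by ext; simp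

theorem repL_coeff {L : Type*} [Field L] [Algebra L ℂ] (π : Module.Dual L ℂ) (F : ℂ⟦X⟧) (n : ℕ) :
    coeff n (repL π F) = π (coeff n F) :=
  coeff_mk n fun n => π (coeff n F)

theorem repL_mul {L : Type*} [Field L] [Algebra L ℂ] (π : Module.Dual L ℂ) (F : ℂ⟦X⟧)
    (y : L⟦X⟧) : repL π (F * mpK L y) = repL π F * y := by
  ext n
  rw [repL_coeff, coeff_mul, coeff_mul, map_sum]
  refine sum_congr rfl fun a _ => ?_
  rw [repL_coeff, coeff_map, mul_comm, ← Algebra.smul_def, map_smul, smul_eq_mul, mul_comm]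

theorem repL_poly {L : Type*} [Field L] [Algebra L ℂ] (π : Module.Dual L ℂ) (x : L)
    (p : Polynomial ℂ) : ∃ q : Polynomial L,
      (Polynomial.taylor x q : L⟦X⟧) = repL π (τc (algebraMap L ℂ x) p) := by
  refine ⟨Polynomial.taylor (-x) (∑ j ∈ (Polynomial.taylor (algebraMap L ℂ x) p).support,
    Polynomial.monomial j (π ((Polynomial.taylor (algebraMap L ℂ x) p).coeff j))), ?_⟩
  ext n
  have e : coeff n (τc (algebraMap L ℂ x) p) = (Polynomial.taylor (algebraMap L ℂ x) p).coeff n :=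
    Polynomial.coeff_coe _ _
  rw [Polynomial.taylor_taylor, add_neg_cancel, Polynomial.taylor_zero, Polynomial.coeff_coe,
    repL_coeff, e, Polynomial.finsetSum_coeff]
  simp only [Polynomial.coeff_monomial, sum_ite_eq', Polynomial.mem_support_iff]
  split_ifs with h
  · rfl
  · rw [not_not.1 h, map_zero]

theorem pi_relJ {L α J : Type*} [Field L] [Algebra L ℂ] [Fintype α] {x : L} {l : α → Polynomial ℂ}
    {y : J → α → L⟦X⟧}
    (h : ∀ j, (fun a => τc (algebraMap L ℂ x) (l a)) ⬝ᵥ (fun a => mpK L (y j a)) = 0)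
    (π : Module.Dual L ℂ) : ∃ l' : α → Polynomial L,
      (∀ a, (l' a).eval x = π ((l a).eval (algebraMap L ℂ x))) ∧
      ∀ j, (fun a => τK (algebraMap L ℂ x) (l' a)) ⬝ᵥ (fun a => mpK L (y j a)) = 0 := by
  choose l' h1 using fun a => repL_poly π x (l a)
  refine ⟨l', fun a => ?_, fun j => ?_⟩
  · have := congrArg (coeff 0) (h1 a)
    rwa [repL_coeff, Polynomial.coeff_coe, Polynomial.taylor_coeff_zero,
      coeff_zero_eq_constantCoeff_apply, τc_const] at this
  · have := congrArg (fun s => mpK L (repL π s)) (h j)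
    simp only [map_zero, dotProduct, map_sum] at this
    rw [dotProduct, ← this]
    exact sum_congr rfl fun a _ => by rw [repL_mul, map_mul, τK_taylor, h1]

theorem pi_relL {L α : Type*} [Field L] [Algebra L ℂ] [Fintype α] {x : L} {l : α → Polynomial ℂ}
    {y : α → L⟦X⟧}
    (h : (fun a => τc (algebraMap L ℂ x) (l a)) ⬝ᵥ (fun a => mpK L (y a)) = 0)
    (π : Module.Dual L ℂ) : ∃ l' : α → Polynomial L,
      (∀ a, (l' a).eval x = π ((l a).eval (algebraMap L ℂ x))) ∧
      (fun a => τK (algebraMap L ℂ x) (l' a)) ⬝ᵥ (fun a => mpK L (y a)) = 0 := by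
  obtain ⟨l', h1, h2⟩ := pi_relJ (y := fun _ : Unit => y) (fun _ => h) π
  exact ⟨l', h1, h2 ()⟩

end

end Pool.Agent.Lib.MP_5591bc_ag.D
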