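import Pool.Agent.Lib.MP_5591bc_ag.D.Pi
import Pool.Agent.Lib.MP_5591bc_ag.V.Bas

/-! Monomial bases on the Galois group. -/

namespace Pool.Agent.Lib.MP_5591bc_ag.D

open Matrix Finset Filter Topology PowerSeries G R V Function
open W (GK mpK)

noncomputable section

variable {A : Type*} [Fintype A] [DecidableEq A]

theorem basD_spec {x : ℂ} {G : Matrix A A ℂ⟦X⟧} {Γ : Set (Matrix A A ℂ)}
    (h : Orb x G Γ) {k : ℕ} {l : Mo A k → Polynomial ℂ}
    (hl : (fun μ => τc x (l μ)) ⬝ᵥ vk k G = 0) {γ : Matrix A A ℂ} (hγ : γ ∈ Γ) :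
    (fun μ => (l μ).eval x) ⬝ᵥ vk k γ = 0 :=
  (rep_eval _ (Polynomial.evalRingHom x) γ).symm.trans (h.spec ((fun μ => MvPolynomial.C (l μ)) ⬝ᵥ
    vk k (of fun i j => MvPolynomial.X (i, j))) ((rep_eval _ (τc x) G).trans hl) γ hγ)

theorem basD_div {J : Type*} (x : ℂ) (P : (J → Polynomial ℂ) → Prop)
    (hP : ∀ φ, P (fun j => (Polynomial.X - Polynomial.C x) * φ j) → P φ) {φ : J → Polynomial ℂ}
    (h0 : φ ≠ 0) (h : P φ) : ∃ ψ, P ψ ∧ ∃ j, (ψ j).eval x ≠ 0 := by
  obtain ⟨j0, hj⟩ := Function.ne_iff.1 h0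
  clear h0
  induction hn : (φ j0).natDegree using Nat.strong_induction_on generalizing φ with
  | _ n ih =>
    by_cases hz : ∃ j, (φ j).eval x ≠ 0
    · exact ⟨φ, h, hz⟩
    push Not at hz
    have e : ∀ j, (Polynomial.X - Polynomial.C x) * (φ j /ₘ (Polynomial.X - Polynomial.C x)) = φ j :=
      fun j => Polynomial.mul_divByMonic_eq_iff_isRoot.2 (hz j)
    have h1 : φ j0 /ₘ (Polynomial.X - Polynomial.C x) ≠ 0 := fun h2 => hj (by rw [← e j0, h2]; simp)
    refine ih _ ?_ (φ := fun j => φ j /ₘ (Polynomial.X - Polynomial.C x))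
      (hP _ (by simpa only [e] using h)) h1 rfl
    have := congrArg Polynomial.natDegree (e j0)
    rw [Polynomial.natDegree_mul (Polynomial.X_sub_C_ne_zero x) h1, Polynomial.natDegree_X_sub_C]
      at this
    omega

theorem exists_basD {L : Type*} [Field L] [Algebra L ℂ] {x : L} {G0 : Matrix A A L⟦X⟧}
    {Γ : Set (Matrix A A ℂ)} (h : Orb (algebraMap L ℂ x) (G0.map (mpK L)) Γ) (k : ℕ) :
    ∃ M, BasD L (algebraMap L ℂ x) (G0.map (mpK L)) Γ k M := by
  classical
  obtain ⟨b, -, -, h1, h2⟩ := exists_linearIndepOn_extension (K := ℂ)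
    (v := fun (μ : Mo A k) (γ : Γ) => vk k γ.1 μ) (linearIndepOn_empty ℂ _)
    (Set.empty_subset Set.univ)
  obtain ⟨M, rfl⟩ : ∃ M : Finset (Mo A k), (M : Set _) = b := ⟨b.toFinset, Set.coe_toFinset b⟩
  have indC : ∀ c : Mo A k → ℂ, (∀ μ ∉ M, c μ = 0) → (∀ γ ∈ Γ, c ⬝ᵥ vk k γ = 0) → c = 0 := by
    intro c hc h0
    ext μ
    by_cases hμ : μ ∈ M
    · refine linearIndepOn_finset_iff.1 h2 c (funext fun γ => ?_) μ hμ
      rw [Finset.sum_apply, Pi.zero_apply, ← h0 γ γ.2]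
      exact sum_subset (subset_univ _) fun ν _ hν => by simp [hc ν hν]
    · exact hc μ hμ
  have gen : ∀ μ, ∃ c : Mo A k → ℂ, (∀ ν ∉ M, c ν = 0) ∧ ∀ γ ∈ Γ, c ⬝ᵥ vk k γ = vk k γ μ := by
    intro μ
    obtain ⟨c, hc⟩ := (Submodule.mem_span_image_finset_iff_exists_fun' ℂ).1
      (h1 ⟨μ, Set.mem_univ _, rfl⟩)
    refine ⟨fun ν => if ν ∈ M then c ν else 0, fun ν hν => if_neg hν, fun γ hγ => ?_⟩
    have := congrFun hc ⟨γ, hγ⟩
    rw [Finset.sum_apply] at this
    simp only [dotProduct, ite_mul, zero_mul, sum_ite_mem, univ_inter]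
    exact this
  refine ⟨M, ?_, ?_, indC, fun l hl h0 => ?_, ?_⟩
  · refine card_pos.2 (nonempty_iff_ne_empty.2 ?_)
    rintro rfl
    obtain ⟨c, hc, e⟩ := gen fun _ => none
    have := e 1 h.one
    simp [dotProduct, hc, vk, tens, hatg] at this
  · refine le_trans (card_le_card_of_injOn (t := (univ : Finset (A × A → Fin (k + 1))))
      (fun μ a => ⟨#{l | μ l = some a}, Nat.lt_succ_of_le ((card_le_univ _).trans (by simp))⟩)
      (fun _ _ => mem_univ _) fun μ hμ ν hν e => h2.injOn hμ hν (funext fun γ => ?_)) (by simp)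
    simp only [bas_cnt]
    exact prod_congr rfl fun a _ => congrArg _ (congrArg Fin.val (congrFun e a))
  · by_contra hn
    obtain ⟨ψ, ⟨p1, p2⟩, j, hj⟩ := basD_div (algebraMap L ℂ x)
      (fun l => (∀ μ ∉ M, l μ = 0) ∧
        (fun μ => τc (algebraMap L ℂ x) (l μ)) ⬝ᵥ vk k (G0.map (mpK L)) = 0) (fun φ hφ =>
        ⟨fun μ hμ => (mul_eq_zero.1 (hφ.1 μ hμ)).resolve_left (Polynomial.X_sub_C_ne_zero _), by
          have e : τc (algebraMap L ℂ x) (Polynomial.X - Polynomial.C (algebraMap L ℂ x)) = X := by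
            simp [τc]
          have := hφ.2
          simp only [map_mul, e, dotProduct, mul_assoc, ← mul_sum] at this
          exact (mul_eq_zero.1 this).resolve_left X_ne_zero⟩) hn ⟨hl, h0⟩
    have := indC _ (fun μ hμ => by simp [p1 μ hμ]) fun γ hγ => basD_spec h p2 hγ
    exact hj (congrFun this j)
  · obtain ⟨π, hπ⟩ := Module.Projective.exists_dual_eq_one L (one_ne_zero (α := ℂ))
    have ev : vk k (G0.map (mpK L)) = fun μ => mpK L (vk k G0 μ) :=
      funext fun μ => (map_vk _ _ _).symm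
    have key : ∀ μ, ∃ l : Mo A k → Polynomial L,
        (fun ν => τK (algebraMap L ℂ x) (l ν)) ⬝ᵥ vk k (G0.map (mpK L)) = 0 ∧
        ∀ ν ∉ M, (l ν).eval x = if μ = ν then 1 else 0 := by
      intro μ
      obtain ⟨c, hc, e⟩ := gen μ
      obtain ⟨l, l1, l2⟩ := h.lift1 k (Pi.single μ 1 - c) fun γ hγ => by
        rw [sub_dotProduct, e γ hγ, single_dotProduct, one_mul, sub_self]
      obtain ⟨l', l3, l4⟩ := pi_relL (l := l) (y := vk k G0) (ev ▸ l2) π
      refine ⟨l', ev ▸ l4, fun ν hν => ?_⟩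
      rw [l3, l1, Pi.sub_apply, hc ν hν, sub_zero]
      split_ifs with c
      · rw [c, Pi.single_eq_same, hπ]
      · rw [Pi.single_eq_of_ne' c, map_zero]
    choose l l1 l2 using key
    refine ⟨1 - of l, ?_, fun μ ν hν => ?_, fun γ hγ => ?_⟩
    · rw [Matrix.map_sub _ (map_sub _), Matrix.map_one _ (map_zero _) (map_one _), sub_mulVec,
        one_mulVec, sub_eq_self]
      exact funext fun μ => l1 μ
    · rw [Polynomial.aeval_algebraMap_apply, Polynomial.coe_aeval_eq_eval, Matrix.sub_apply,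
        of_apply, Polynomial.eval_sub, l2 μ ν hν, Matrix.one_apply]
      split_ifs <;> simp
    · rw [Matrix.map_sub _ (map_sub _), Matrix.map_one _ (map_zero _) (map_one _), sub_mulVec,
        one_mulVec, sub_eq_self]
      refine funext fun μ => Eq.trans ?_
        (basD_spec (l := fun ν => (l μ ν).map (algebraMap L ℂ)) h (l1 μ) hγ)
      simp only [mulVec, map_apply, of_apply, Polynomial.eval_map_algebraMap]

end

end Pool.Agent.Lib.MP_5591bc_ag.D
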