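import Pool.Agent.Lib.MP_5591bc_ag.RRoth

/-! Roth's lemma on the index of an integral polynomial at a small complex point. -/

namespace Pool.Agent.Lib.MP_5591bc_ag.D

open MvPolynomial Finset R

noncomputable section

section van
variable {σ S : Type*} [CommRing S] {w : σ → ℕ} {n k : ℕ} {f g : MvPowerSeries σ S}

/-- vanishing to weighted order `n` -/
def Vg (w : σ → ℕ) (n : ℕ) (f : MvPowerSeries σ S) : Prop :=
  ∀ d, Finsupp.weight w d < n → MvPowerSeries.coeff d f = 0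

open MvPowerSeries

theorem vg_iff : Vg w n f ↔ (n : ℕ∞) ≤ f.weightedOrder w :=
  ⟨nat_le_weightedOrder w, fun h _ hd =>
    coeff_eq_zero_of_lt_weightedOrder w (lt_of_lt_of_le (by exact_mod_cast hd) h)⟩

theorem Vg.mono (h : Vg w n f) (hk : k ≤ n) : Vg w k f := fun d hd => h d (hd.trans_le hk)

theorem Vg.mul (h : Vg w n f) (h' : Vg w k g) : Vg w (n + k) (f * g) := by
  rw [vg_iff] at *
  exact le_trans (by push_cast; gcongr) (le_weightedOrder_mul w)

theorem Vg.left (h : Vg w n f) (g : MvPowerSeries σ S) : Vg w n (g * f) := by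
  simpa using Vg.mul (n := 0) (fun _ h => absurd h (Nat.not_lt_zero _)) h

theorem Vg.sum {α : Type*} {s : Finset α} {F : α → MvPowerSeries σ S} (h : ∀ a ∈ s, Vg w n (F a)) :
    Vg w n (∑ a ∈ s, F a) := fun d hd => by
  rw [map_sum]; exact sum_eq_zero fun a ha => h a ha d hd

theorem Vg.prod {α : Type*} (s : Finset α) {F : α → MvPowerSeries σ S} {a : α → ℕ}
    (h : ∀ i, Vg w (a i) (F i)) : Vg w (∑ i ∈ s, a i) (∏ i ∈ s, F i) := by
  simp only [vg_iff] at *
  exact le_trans (by push_cast; exact sum_le_sum fun i _ => h i) (le_weightedOrder_prod w F s)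

theorem Vg.pderiv (h : Vg w n f) (i : σ) : Vg w (n - w i) (MvPowerSeries.pderiv S i f) :=
  fun d hd => by
  rw [MvPowerSeries.coeff_pderiv, h _ (by rw [map_add, Finsupp.weight_single, one_smul]; omega),
    zero_mul]

theorem Vg.cancel [NoZeroDivisors S] (h : Vg w (n + k) (f * g)) (h' : ¬ Vg w (n + 1) f) :
    Vg w k g := by
  rw [vg_iff, weightedOrder_mul, Nat.cast_add] at h
  rw [vg_iff, not_le, Nat.cast_succ, ENat.lt_add_one_iff (ENat.natCast_ne_top n)] at h'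
  rw [vg_iff]
  exact (ENat.add_le_add_iff_left (ENat.natCast_ne_top n)).1 (h.trans (by gcongr))

theorem Vg.det {r : ℕ} {M : Matrix (Fin r) (Fin r) (MvPowerSeries σ S)} {a : Fin r → ℕ}
    (h : ∀ i j, Vg w (a j) (M i j)) : Vg w (∑ j, a j) M.det := by
  rw [Matrix.det_apply']
  exact Vg.sum fun π _ => (Vg.prod _ fun j => h _ _).left _

end van

section shift
variable {σ S : Type*} [CommRing S] [Algebra ℚ S]

/-- the shift `p(x) ↦ p(ξ + x)` of a rational polynomial to a point of an algebra -/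
def shg (ξ : σ → S) : MvPolynomial σ ℚ →ₐ[ℚ] MvPolynomial σ S := aeval fun i => X i + C (ξ i)

/-- expansion of a rational polynomial at a point of an algebra -/
def τg (ξ : σ → S) : MvPolynomial σ ℚ →+* MvPowerSeries σ S :=
  MvPolynomial.coeToMvPowerSeries.ringHom.comp (shg ξ).toRingHom

theorem τg_eq (ξ : σ → S) (p : MvPolynomial σ ℚ) :
    τg ξ p = ((shg ξ p : MvPolynomial σ S) : MvPowerSeries σ S) := rfl

theorem shg_C (ξ : σ → S) (a : ℚ) : shg ξ (C a) = C (algebraMap ℚ S a) := aeval_C _ _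

theorem shg_X (ξ : σ → S) (i : σ) : shg ξ (X i) = X i + C (ξ i) := aeval_X _ _

theorem pderiv_shg (ξ : σ → S) (i : σ) (p : MvPolynomial σ ℚ) :
    pderiv i (shg ξ p) = shg ξ (pderiv i p) := by
  classical
  induction p using MvPolynomial.induction_on with
  | C a => rw [shg_C, pderiv_C, pderiv_C, map_zero]
  | add p q hp hq => simp only [map_add, hp, hq]
  | mul_X p j hp =>
    simp only [map_mul, Derivation.leibniz, hp, smul_eq_mul, map_add, shg_X]
    simp [pderiv_X, Pi.single_apply, apply_ite]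

theorem pderiv_τg (ξ : σ → S) (i : σ) (p : MvPolynomial σ ℚ) :
    MvPowerSeries.pderiv S i (τg ξ p) = τg ξ (pderiv i p) := by
  rw [τg_eq, MvPowerSeries.pderiv_coe, pderiv_shg, τg_eq]

theorem Vg.dl {w : σ → ℕ} {n : ℕ} {ξ : σ → S} {p : MvPolynomial σ ℚ}
    (h : Vg w n (τg ξ p)) (L : List σ) : Vg w (n - (L.map w).sum) (τg ξ (R.dl L p)) := by
  induction L with
  | nil => exact h
  | cons i L ih =>
    have := ih.pderiv i
    rw [pderiv_τg] at this
    exact this.mono (by simp only [List.map_cons, List.sum_cons]; omega)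

theorem coeff_shg_sp {m : ℕ} (ξ : Fin (m + 1) → S) (U : MvPolynomial (Fin m) ℚ) (V : Polynomial ℚ)
    (k : ℕ) (ν : Fin m →₀ ℕ) : coeff (ν.cons k) (shg ξ (sp U V)) =
      (Polynomial.taylor (ξ 0) (V.map (algebraMap ℚ S))).coeff k *
        coeff ν (shg (fun i => ξ i.succ) U) := by
  have e0 : ∀ a : S, finSuccEquiv S m (C a) = Polynomial.C (C a) := fun a => by
    simp [finSuccEquiv_apply]
  have e1 : finSuccEquiv S m (shg ξ (rename Fin.succ U)) =
      Polynomial.C (shg (fun i => ξ i.succ) U) := by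
    induction U using MvPolynomial.induction_on with
    | C a => rw [rename_C, shg_C, shg_C, e0]
    | add p q hp hq => simp only [map_add, hp, hq]
    | mul_X p j hp => simp only [map_mul, hp, rename_X, shg_X, map_add, finSuccEquiv_X_succ, e0]
  have e2 : finSuccEquiv S m (shg ξ (Polynomial.aeval (X 0 : MvPolynomial (Fin (m + 1)) ℚ) V)) =
      (Polynomial.taylor (ξ 0) (V.map (algebraMap ℚ S))).map C := by
    induction V using Polynomial.induction_on with
    | C a =>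
      rw [Polynomial.aeval_C, algebraMap_eq, shg_C, e0, Polynomial.map_C, Polynomial.taylor_C,
        Polynomial.map_C]
    | add p q hp hq => simp only [map_add, Polynomial.map_add, hp, hq]
    | monomial n a h =>
      rw [pow_succ, ← mul_assoc, map_mul, map_mul, map_mul, h, Polynomial.map_mul _ (q := Polynomial.X),
        Polynomial.taylor_mul, Polynomial.map_mul _ (q := Polynomial.taylor _ _), Polynomial.aeval_X,
        shg_X, map_add, finSuccEquiv_X_zero, e0, Polynomial.map_X, Polynomial.taylor_X,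
        Polynomial.map_add, Polynomial.map_X, Polynomial.map_C]
  rw [← finSuccEquiv_coeff_coeff, sp, map_mul, map_mul, e1, e2, Polynomial.coeff_C_mul,
    Polynomial.coeff_map, mul_comm, coeff_C_mul]

end shift

theorem roth_div {ξ : ℂ} (h1 : 2 * ‖ξ‖ ≤ 1) {P : Polynomial ℂ} {M : ℝ}
    (h : ∀ k, ‖((Polynomial.X - Polynomial.C ξ) * P).coeff k‖ ≤ M) (k : ℕ) :
    ‖P.coeff k‖ ≤ 2 * M := by
  have M0 : 0 ≤ M := (norm_nonneg _).trans (h 0)
  have key : ∀ n k, P.natDegree < k + n → ‖P.coeff k‖ ≤ 2 * M := fun n => by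
    induction n with
    | zero =>
      intro k hk
      rw [Polynomial.coeff_eq_zero_of_natDegree_lt (by omega), norm_zero]
      positivity
    | succ n ih =>
      intro k hk
      have a1 := ih (k + 1) (by omega)
      have a2 := h (k + 1)
      rw [sub_mul, Polynomial.coeff_sub, Polynomial.coeff_X_mul, Polynomial.coeff_C_mul] at a2
      have a3 := norm_add_le (P.coeff k - ξ * P.coeff (k + 1)) (ξ * P.coeff (k + 1))
      rw [sub_add_cancel, norm_mul] at a3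
      nlinarith [norm_nonneg ξ, norm_nonneg (P.coeff (k + 1))]
  exact key (P.natDegree + 1) k (by omega)

theorem roth_tc {ξ : ℂ} (h0 : ξ ≠ 0) (h1 : 2 * ‖ξ‖ ≤ 1) (ν : ℕ) : ∀ (P : Polynomial ℂ) (M : ℝ),
    (∀ k, ‖P.coeff k‖ ≤ M) → (Polynomial.X - Polynomial.C ξ) ^ ν ∣ P →
    ‖P.trailingCoeff‖ ≤ (2 * ‖ξ‖) ^ ν * M := by
  induction ν with
  | zero => exact fun P M h _ => by rw [pow_zero, one_mul]; exact h _
  | succ ν ih =>
    rintro _ M h ⟨Q, rfl⟩
    rw [pow_succ', mul_assoc] at h ⊢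
    have a1 := ih _ _ (roth_div h1 h) (dvd_mul_right _ _)
    rw [Polynomial.trailingCoeff_mul, Polynomial.trailingCoeff_eq_coeff_zero (by simpa using h0),
      norm_mul]
    refine (mul_le_mul_of_nonneg_left a1 (norm_nonneg _)).trans (le_of_eq ?_)
    simp only [Polynomial.coeff_sub, Polynomial.coeff_X_zero, Polynomial.coeff_C_zero, zero_sub,
      norm_neg]
    ring

theorem gaussC {V : Polynomial ℚ} {M : ℝ} (h0 : V ≠ 0) (h : ∀ k, ∃ z : ℤ, V.coeff k = z)
    (hM : ∀ k, |((V.coeff k : ℚ) : ℝ)| ≤ M) {ξ : ℂ} (x0 : ξ ≠ 0) (x1 : 2 * ‖ξ‖ ≤ 1) :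
    ∃ ν, (Polynomial.taylor ξ (V.map (algebraMap ℚ ℂ))).coeff ν ≠ 0 ∧ 1 ≤ (2 * ‖ξ‖) ^ ν * M := by
  have a0 : V.map (algebraMap ℚ ℂ) ≠ 0 := Polynomial.map_ne_zero h0
  refine ⟨Polynomial.rootMultiplicity ξ (V.map (algebraMap ℚ ℂ)), ?_, le_trans ?_
    (roth_tc x0 x1 _ _ M (fun k => ?_) (Polynomial.pow_rootMultiplicity_dvd _ _))⟩
  · rw [Polynomial.rootMultiplicity_eq_natTrailingDegree, ← Polynomial.taylor_apply]
    exact Polynomial.trailingCoeff_nonzero_iff_nonzero.2 (by simpa using h0)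
  · have a1 := Polynomial.trailingCoeff_nonzero_iff_nonzero.2 a0
    rw [Polynomial.trailingCoeff, Polynomial.coeff_map] at a1 ⊢
    obtain ⟨z, hz⟩ := h (V.map (algebraMap ℚ ℂ)).natTrailingDegree
    rw [hz, map_intCast] at a1 ⊢
    rw [Complex.norm_intCast]
    exact_mod_cast Int.one_le_abs (by simpa using a1)
  · rw [Polynomial.coeff_map, eq_ratCast, ← Complex.ofReal_ratCast, Complex.norm_real]
    exact hM k

/-- Roth's lemma at small complex points -/
theorem rothC (m L κ : ℕ) (hL : 0 < L) (hκ : 0 < κ) : ∃ Λ, 0 < Λ ∧ ∀ (w : Fin m → ℕ)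
    (ξ : Fin m → ℂ) (E h : ℕ)
    (Δ : MvPolynomial (Fin m) ℚ), Δ ≠ 0 → Δ ∈ ZP _ → (∀ i j, i < j → Λ * w j ≤ w i) →
    (∀ i, ξ i ≠ 0 ∧ (2 * ‖ξ i‖) ^ κ * 2 ^ w i ≤ 1) → (∀ i, Λ ≤ w i) →
    (∀ i, degreeOf i Δ * w i ≤ E) →
    nr 1 Δ ≤ 2 ^ h → Λ * h ≤ E → ¬ Vg w (E / L + 1) (τg ξ Δ) := by
  induction m generalizing L with
  | zero =>
    refine ⟨1, one_pos, fun w ξ E h Δ h0 _ _ _ _ _ _ _ hv => h0 ?_⟩
    have := hv 0 (by simp)
    rw [Δ.eq_C_of_isEmpty] at this ⊢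
    rw [τg_eq, shg_C] at this
    simpa using this
  | succ m ih =>
  obtain ⟨Λ', p0, ih⟩ := ih (16 * L ^ 2) (by positivity)
  refine ⟨(Λ' + 16 * κ * L ^ 2) * (2 * m + 4), by positivity,
    fun w ξ E h Δ h0 hZ hw hd hΛ hE hn hh hv => ?_⟩
  set Λ := (Λ' + 16 * κ * L ^ 2) * (2 * m + 4) with eΛ
  have p1 : Λ' ≤ Λ := (Nat.le_add_right _ _).trans (Nat.le_mul_of_pos_right _ (by omega))
  have p2 : 0 < Λ := by positivity
  obtain ⟨t, ht, hmax⟩ : ∃ t, Λ * t ≤ E ∧ ∀ x, Λ * x ≤ E → x ≤ t :=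
    ⟨E / Λ, Nat.mul_div_le _ _, fun x hx => (Nat.le_div_iff_mul_le p2).2 (mul_comm Λ x ▸ hx)⟩
  have hdeg : ∀ i, degreeOf i Δ ≤ t := fun i => hmax _ (by nlinarith [hE i, hΛ i])
  obtain ⟨r, hr, φ, ψ, a1, a2, a3⟩ := decomp Δ
  have r0 : 0 < r := Nat.pos_of_ne_zero fun e => h0 (by subst e; simpa using a3)
  have r1 : (r - 1) * w 0 ≤ E := (Nat.mul_le_mul_right _ (by omega)).trans (hE 0)
  obtain ⟨u, b1, b2⟩ := wron a1 (fun k v => ∃ l : List (Fin m), l.length ≤ k ∧
    v = fun j => dl l (φ j)) ⟨[], le_rfl, rfl⟩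
    (fun k k' v hk ⟨l, c1, c2⟩ => ⟨l, c1.trans hk, c2⟩)
    fun k v i ⟨l, c1, c2⟩ => Or.inr ⟨i :: l, Nat.succ_le_succ c1, by subst c2; rfl⟩
  obtain ⟨v, b3, b4⟩ := wron a2 (fun k v => ∃ l ≤ k,
    v = fun j => sp 1 (Polynomial.derivative^[l] (ψ j))) ⟨0, le_rfl, rfl⟩
    (fun k k' v hk ⟨l, c1, c2⟩ => ⟨l, c1.trans hk, c2⟩) fun k v i ⟨l, c1, c2⟩ => by
      subst c2
      refine Fin.cases (Or.inr ⟨l + 1, Nat.succ_le_succ c1, funext fun j => ?_⟩)
        (fun i => Or.inl (funext fun j => ?_)) i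
      · rw [pderiv_sp_zero, Function.iterate_succ_apply']
      · rw [pderiv_sp_succ]; simp [sp]
  choose l1 c1 c2 using b1
  choose l2 c3 c4 using b3
  obtain ⟨U, eU⟩ : ∃ U, U = (Matrix.of u).det := ⟨_, rfl⟩
  obtain ⟨V, eV⟩ : ∃ V, V = (Matrix.of fun l j => Polynomial.derivative^[l2 l] (ψ j)).det :=
    ⟨_, rfl⟩
  have hV : (Matrix.of v).det = sp 1 V := by
    rw [eV, sp, map_one, one_mul, AlgHom.map_det]
    congr 1
    ext1 l j
    simp [c4 l, sp]
  have V0 : V ≠ 0 := fun e => b4 (by simp [hV, e, sp])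
  have hW : (Matrix.of fun l l' => dl ((l1 l).map Fin.succ) (dl (List.replicate (l2 l') 0) Δ)).det =
      sp U V := by
    have : sp U V = rename Fin.succ U * sp 1 V := by simp [sp]
    rw [this, ← hV, eU, AlgHom.map_det, ← Matrix.det_transpose (Matrix.of v), ← Matrix.det_mul]
    congr 1
    ext1 l l'
    rw [Matrix.of_apply, a3, dl_sp, Matrix.mul_apply]
    simp [c2 l, c4 l', sp]
  have low : Vg w (∑ l : Fin r, (E / L + 1 - l.rev * w 0 - t))
      (τg ξ (sp U V)) := by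
    rw [← hW, RingHom.map_det]
    refine Vg.det fun l l' => ((hv.dl _).dl _).mono ?_
    have d1 : ((List.replicate (l2 l') 0).map w).sum ≤ l'.rev * w 0 := by
      simpa using Nat.mul_le_mul_right _ (c3 l')
    have d2 : (((l1 l).map Fin.succ).map w).sum ≤ t := hmax _ (by
      rw [← List.sum_map_mul_left]
      refine (List.sum_le_card_nsmul _ (w 0) fun x hx => ?_).trans (le_trans ?_ r1)
      · simp only [List.map_map, List.mem_map] at hx
        obtain ⟨i, -, rfl⟩ := hx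
        exact hw 0 i.succ i.succ_pos
      · have := (c1 l).trans (Nat.le_sub_one_of_lt l.rev.2)
        simpa using Nat.mul_le_mul_right _ this)
    omega
  choose n1 μ1 d1 d2 using fun l => dl_hs ((l1 l).map Fin.succ)
  choose n2 μ2 d3 d4 using fun l => dl_hs (List.replicate (l2 l) (0 : Fin (m + 1)))
  obtain ⟨W, eW⟩ : ∃ W, W = (Matrix.of fun l l' => hs (μ1 l) (hs (μ2 l') Δ)).det := ⟨_, rfl⟩
  have hW2 : sp U V = ((∏ l, n1 l) * ∏ l, n2 l) • W := by
    rw [← hW, eW, mul_smul, smul_eq_C_mul, smul_eq_C_mul, map_prod, map_prod,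
      ← Matrix.det_mul_row, ← Matrix.det_mul_column]
    congr 1
    ext1 l l'
    simp only [Matrix.of_apply, d2, d4, map_smul]
    simp only [smul_eq_C_mul]
  set N := (∏ l, n1 l) * ∏ l, n2 l with eN
  have N0 : N ≠ 0 := mul_ne_zero (prod_ne_zero_iff.2 fun l _ => d1 l)
    (prod_ne_zero_iff.2 fun l _ => d3 l)
  have hc : ∀ k ν, coeff (Finsupp.cons k ν) W = N⁻¹ * (V.coeff k * coeff ν U) := fun k ν => by
    rw [← coeff_sp, hW2, coeff_smul, smul_eq_mul, inv_mul_cancel_left₀ N0]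
  have WZ : W ∈ ZP _ := eW ▸ ZP.det fun l l' => hs_mem _ (hs_mem _ hZ)
  have Wd : ∀ i, degreeOf i W ≤ r * degreeOf i Δ := fun i =>
    eW ▸ degreeOf_det fun l l' => (hs_deg _ _ i).trans (hs_deg _ _ i)
  have Wn : nr 1 W ≤ 2 ^ (r * t * (2 * m + 4)) := by
    have e1 : ∀ l l', nr 1 (hs (μ1 l) (hs (μ2 l') Δ)) ≤ 2 ^ (t * (2 * m + 3)) := fun l l' => by
      refine (hs_nr _ _ fun i => (hs_deg _ _ i).trans (hdeg i)).trans ?_
      refine (mul_le_mul_of_nonneg_left ((hs_nr _ _ hdeg).trans (mul_le_mul_of_nonneg_left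
        (hn.trans (pow_le_pow_right₀ one_le_two (hmax h hh))) (by positivity)))
        (by positivity)).trans (le_of_eq ?_)
      rw [Fintype.card_fin]; ring
    have e2 : (r.factorial : ℝ) ≤ (2 ^ t) ^ r := by
      have : r ≤ 2 ^ t := hr.trans ((Nat.succ_le_succ (hdeg 0)).trans Nat.lt_two_pow_self)
      exact_mod_cast (Nat.factorial_le_pow r).trans (Nat.pow_le_pow_left this r)
    rw [eW]
    refine (nr_det (fun _ => zero_le_one) _ e1).trans ((mul_le_mul_of_nonneg_right e2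
      (by positivity)).trans (le_of_eq (by ring)))
  obtain ⟨k0, hk0⟩ : ∃ k, V.coeff k ≠ 0 := ⟨_, Polynomial.leadingCoeff_ne_zero.2 V0⟩
  obtain ⟨ν0, hν0⟩ : ∃ ν, coeff ν U ≠ 0 := ne_zero_iff.1 (eU ▸ b2)
  have hU : (finSuccEquiv ℚ m W).coeff k0 = (N⁻¹ * V.coeff k0) • U := by
    ext ν; rw [finSuccEquiv_coeff_coeff, hc, coeff_smul, smul_eq_mul, mul_assoc]
  have q0 : N⁻¹ * V.coeff k0 ≠ 0 := mul_ne_zero (inv_ne_zero N0) hk0
  have up1 := ih (fun i => w i.succ) (fun i => ξ i.succ) (r * E) (r * t * (2 * m + 4))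
    ((finSuccEquiv ℚ m W).coeff k0) (by rw [hU]; exact smul_ne_zero q0 (eU ▸ b2))
    (mem_ZP.2 fun d => by rw [finSuccEquiv_coeff_coeff]; exact mem_ZP.1 WZ _)
    (fun i j hij => (Nat.mul_le_mul_right _ p1).trans (hw _ _ (Fin.succ_lt_succ_iff.2 hij)))
    (fun i => hd _) (fun i => p1.trans (hΛ _))
    (fun i => (Nat.mul_le_mul_right _ ((degreeOf_coeff_finSuccEquiv W i k0).trans (Wd _))).trans
      (by rw [mul_assoc]; exact Nat.mul_le_mul_left _ (hE _)))
    ((nr_fse W k0).trans Wn)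
    (by
      have : Λ' * (2 * m + 4) * t ≤ E := le_trans (Nat.mul_le_mul_right _
        (Nat.mul_le_mul_right _ (Nat.le_add_right _ _))) ht
      nlinarith)
  have x1 : 2 * ‖ξ 0‖ ≤ 1 := (pow_le_one_iff_of_nonneg (by positivity) hκ.ne').1
    ((le_mul_of_one_le_right (by positivity) (one_le_pow₀ one_le_two)).trans (hd 0).2)
  obtain ⟨ν, g1, g2⟩ := gaussC (V := (N⁻¹ * coeff ν0 U) • V) (M := 2 ^ (r * t * (2 * m + 4)))
    (smul_ne_zero (mul_ne_zero (inv_ne_zero N0) hν0) V0) (fun k => by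
      obtain ⟨z, hz⟩ := mem_ZP.1 WZ (ν0.cons k)
      exact ⟨z, by rw [← hz, hc, Polynomial.coeff_smul, smul_eq_mul]; ring⟩) (fun k => by
      have e1 := coeff_le_nr (ρ := 1) (fun _ => zero_le_one) W (ν0.cons k)
      have e2 : ((N⁻¹ * coeff ν0 U) • V).coeff k = coeff (ν0.cons k) W := by
        rw [hc, Polynomial.coeff_smul, smul_eq_mul]; ring
      simp only [Pi.one_apply, one_pow, prod_const_one, mul_one] at e1
      exact e2 ▸ e1.trans Wn) (hd 0).1 x1
  have up2 : ν * w 0 ≤ κ * (r * t * (2 * m + 4)) := by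
    have e1 := one_le_pow₀ (n := κ) g2
    have e2 := pow_le_one₀ (n := ν) (by positivity) (hd 0).2
    rw [mul_pow, ← pow_mul, ← pow_mul] at e1 e2
    refine (pow_le_pow_iff_right₀ (one_lt_two (α := ℝ))).1 ?_
    rw [mul_comm ν, mul_comm κ]
    rw [mul_comm κ ν] at e2
    calc (2 : ℝ) ^ (w 0 * ν) ≤ 2 ^ (w 0 * ν) * ((2 * ‖ξ 0‖) ^ (ν * κ) *
          2 ^ (r * t * (2 * m + 4) * κ)) := le_mul_of_one_le_right (by positivity) e1
      _ = (2 * ‖ξ 0‖) ^ (ν * κ) * 2 ^ (w 0 * ν) * 2 ^ (r * t * (2 * m + 4) * κ) := by ring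
      _ ≤ _ := mul_le_of_le_one_left (by positivity) e2
  simp only [Vg, not_forall] at up1
  obtain ⟨d, f1, f2⟩ := up1
  have f3 := roth_num r0 hL r1 (n := E / L + 1) (t := t)
    (le_trans (Nat.mul_le_mul_right _ (le_trans (by nlinarith [Nat.le_mul_of_pos_left (L ^ 2) hκ])
      (Nat.le_mul_of_pos_right _ (by omega)))) ht)
    (by rw [mul_add, mul_one, mul_comm]; exact Nat.lt_div_mul_add hL)
  have f4 := Nat.mul_div_le (r * E) (16 * L ^ 2)
  have f5 : 16 * κ * L ^ 2 * (2 * m + 4) * t ≤ E := le_trans (Nat.mul_le_mul_right _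
    (Nat.mul_le_mul_right _ (Nat.le_add_left _ _))) ht
  have f6 := low (d.cons ν) (by
    rw [weight_cons]
    refine lt_of_mul_lt_mul_left (a := 16 * L ^ 2) ?_ (Nat.zero_le _)
    have f7 := Nat.mul_le_mul_left (16 * L ^ 2) (Nat.lt_succ_iff.1 f1)
    have f8 := Nat.mul_le_mul_left (16 * L ^ 2) up2
    have f9 := Nat.mul_le_mul_left r f5
    nlinarith)
  rw [τg_eq, coeff_coe, coeff_shg_sp, mul_eq_zero] at f6
  rw [τg_eq, coeff_coe, hU, map_smul, coeff_smul] at f2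
  rw [Polynomial.map_smul, map_smul, Polynomial.coeff_smul] at g1
  exact f6.elim (right_ne_zero_of_smul g1) (right_ne_zero_of_smul f2)

end

end Pool.Agent.Lib.MP_5591bc_ag.D
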