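import Pool.Agent.Lib.MP_5591bc_ag.V.Rep
import Pool.Agent.Lib.MP_5591bc_ag.W.Set
import Pool.Agent.Lib.MP_5591bc_ag.W.CoreD
import Pool.Agent.Lib.MP_5591bc_ag.D.Roth

/-! Systems over a number field, expanded at complex points of bounded degree. -/

namespace Pool.Agent.Lib.MP_5591bc_ag.D

open Matrix Finset Filter Topology PowerSeries G R V Function
open W (GK mpK)

noncomputable section

/-- expansion of a polynomial over `K` at a complex point -/
def τK {K : Type*} [Field K] [Algebra K ℂ] (x : ℂ) : Polynomial K →+* ℂ⟦X⟧ :=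
  (τc x).comp (Polynomial.mapRingHom (algebraMap K ℂ))

/-- `x` is a root of a non zero integer polynomial with coefficients less than `2 ^ w` -/
def Hq (x : ℂ) (w : ℕ) : Prop :=
  ∃ q : Polynomial ℤ, q ≠ 0 ∧ Polynomial.aeval x q = 0 ∧ ∀ i, |q.coeff i| < 2 ^ w

/-- `F` is the expansion at `x` of the series `f` at the origin -/
def LimC {α : Type*} (f : α → ℚ⟦X⟧) (x : ℂ) (F : α → ℂ⟦X⟧) : Prop :=
  ∀ a k, Tendsto (fun N => coeff k (τK x (trunc N (f a)))) atTop (𝓝 (coeff k (F a)))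

variable {σ α : Type*}

/-- polynomials over `L` in the variables `x i` and in symbols for the series `f a (x i)` -/
abbrev OtL (σ α L : Type*) [Field L] := MvPolynomial (σ × α) (MvPolynomial σ L)

/-- expansion of a polynomial over `L` at a complex point -/
def τA (L : Type*) [Field L] [Algebra L ℂ] (ξ : σ → ℂ) : MvPolynomial σ L →+* MvPowerSeries σ ℂ :=
  MvPolynomial.eval₂Hom (MvPowerSeries.C.comp (algebraMap L ℂ))
    fun i => MvPowerSeries.X i + MvPowerSeries.C (ξ i)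

/-- expansion at the point `ξ` -/
def eA (L : Type*) [Field L] [Algebra L ℂ] (ξ : σ → ℂ) (F : σ → α → ℂ⟦X⟧) :
    OtL σ α L →+* MvPowerSeries σ ℂ :=
  MvPolynomial.eval₂Hom (τA L ξ) fun p => embC p.1 (F p.1 p.2)

/-- the tensor product of vectors of complex series in separate variables -/
def tvC [Fintype σ] (y : σ → α → ℂ⟦X⟧) : (σ → α) → MvPowerSeries σ ℂ :=
  tens fun i a => embC i (y i a)

variable {A : Type*} [Fintype A] [DecidableEq A]

/-- the formal solution of `T Y' = B Y` at a complex point with value `1` -/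
def GbC {K : Type*} [Field K] [Algebra K ℂ] (T : Polynomial K) (B : Matrix A A (Polynomial K))
    (x : ℂ) : Matrix A A ℂ⟦X⟧ := of fun i j => PowerSeries.mk fun k =>
  Polynomial.aeval x (iterK T B k i j) / (Polynomial.aeval x T ^ k * k.factorial)

/-- a basis `M` of the monomials of degree at most `k` on `Γ` -/
structure BasD (L : Type*) [Field L] [Algebra L ℂ] (x : ℂ) (G : Matrix A A ℂ⟦X⟧)
    (Γ : Set (Matrix A A ℂ)) (k : ℕ) (M : Finset (Mo A k)) : Prop where
  pos : 0 < M.card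
  le : M.card ≤ (k + 1) ^ Fintype.card (A × A)
  indC : ∀ b : Mo A k → ℂ, (∀ μ ∉ M, b μ = 0) → (∀ γ ∈ Γ, b ⬝ᵥ vk k γ = 0) → b = 0
  indP : ∀ l : Mo A k → Polynomial ℂ, (∀ μ ∉ M, l μ = 0) →
    (fun μ => τc x (l μ)) ⬝ᵥ vk k G = 0 → l = 0
  gen : ∃ W : Matrix (Mo A k) (Mo A k) (Polynomial L), W.map (τK x) *ᵥ vk k G = vk k G ∧
    (∀ μ, ∀ ν ∉ M, Polynomial.aeval x (W μ ν) = 0) ∧
    ∀ γ ∈ Γ, W.map (Polynomial.aeval x) *ᵥ vk k γ = vk k γ

/-- a system over `K` with its formal fundamental matrices at the points of `Ω` -/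
structure SysD {K : Type} [Field K] [Algebra K ℂ] (T : Polynomial K)
    (B : Matrix A A (Polynomial K)) (Ω : Set ℂ) (G : ℂ → Matrix A A ℂ⟦X⟧) : Prop where
  zero : T ≠ 0
  ne : ∀ x ∈ Ω, Polynomial.aeval x T ≠ 0
  one : ∀ x ∈ Ω, (G x).map constantCoeff = 1
  ode : ∀ x ∈ Ω, τK x T • (G x).map (d⁄dX ℂ) = B.map (τK x) * G x
  ar : ∀ D : ℕ, ∃ e : ℕ, ∀ (L : Type) [Field L] [NumberField L] [Algebra K L] [Algebra L ℂ]
    [IsScalarTower K L ℂ], Module.finrank ℚ L ≤ D → ∀ x : L, algebraMap L ℂ x ∈ Ω →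
    ∀ w, Hq (algebraMap L ℂ x) w → ∃ G0 : Matrix A A L⟦X⟧,
      G (algebraMap L ℂ x) = G0.map (mpK L) ∧ GK (2 ^ (e * w)) fun p : A × A => G0 p.1 p.2

/-- a system with connected Galois group, the values `φ x` of a solution, whose expansions are
combinations over `K` of the expansions `F x` of rational series `f` at the origin -/
structure TwoD {K : Type} [Field K] [Algebra K ℂ] [Fintype α] (T : Polynomial K)
    (B : Matrix A A (Polynomial K)) (Ω : Set ℂ) (G : ℂ → Matrix A A ℂ⟦X⟧) (f : α → ℚ⟦X⟧)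
    (F : ℂ → α → ℂ⟦X⟧) (E : A → α → K) (φ : ℂ → A → ℂ) : Prop where
  sys : SysD T B Ω G
  gf0 : ∃ a, GF a f
  lim : ∀ x ∈ Ω, LimC f x (F x)
  lin : ∀ x ∈ Ω, ∀ a, (G x *ᵥ fun a => C (φ x a)) a = ∑ b, C (algebraMap K ℂ (E a b)) * F x b
  conn : ∀ x ∈ Ω, ConnS x (Set.range (evG x (G x)))

/-- every linear relation over `L` between the values of `Ψ` comes from a functional one -/
def LGoodD (L : Type*) [Field L] [Algebra L ℂ] (x : L) (Ψ : A → ℂ⟦X⟧) : Prop :=
  ∀ c : A → L, (fun a => algebraMap L ℂ (c a)) ⬝ᵥ (fun a => constantCoeff (Ψ a)) = 0 →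
    ∃ h : A → Polynomial L, (∀ a, (h a).eval x = c a) ∧
      (fun a => τK (algebraMap L ℂ x) (h a)) ⬝ᵥ Ψ = 0

end

end Pool.Agent.Lib.MP_5591bc_ag.D
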