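import Pool.Agent.Lib.MP_5591bc_ag.D.Sim
import Pool.Agent.Lib.MP_5591bc_ag.D.Pi

/-! Lifting a relation over a subfield. -/

namespace Pool.Agent.Lib.MP_5591bc_ag.D

open Matrix Finset Filter Topology PowerSeries G R V Function
open W (GK mpK)

noncomputable section

variable {A : Type*} [Fintype A] [DecidableEq A]

theorem orb_comm {x : ℂ} {G : Matrix A A ℂ⟦X⟧} {Γ : Set (Matrix A A ℂ)} (h : Orb x G Γ)
    {N : Matrix A A ℂ} (hN : G * N.map C = N.map C * G) {γ : Matrix A A ℂ} (hγ : γ ∈ Γ) :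
    γ * N = N * γ := by
  ext i j
  have := h.spec (∑ k, MvPolynomial.X (i, k) * MvPolynomial.C (Polynomial.C (N k j)) -
    ∑ k, MvPolynomial.C (Polynomial.C (N i k)) * MvPolynomial.X (k, j)) (by
      have := congrFun₂ hN i j
      simp only [mul_apply, map_apply] at this
      simp only [evG, map_sub, map_sum, map_mul, MvPolynomial.eval₂Hom_X', MvPolynomial.eval₂Hom_C,
        τc_C, this, sub_self]) γ hγ
  rw [← MvPolynomial.coe_eval₂Hom] at this
  simpa only [map_sub, map_sum, map_mul, MvPolynomial.eval₂Hom_X', MvPolynomial.eval₂Hom_C,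
    Polynomial.coe_evalRingHom, Polynomial.eval_C, ent, sub_eq_zero, mul_apply] using this

theorem lf_spec {x : ℂ} {G : Matrix A A ℂ⟦X⟧} {Γ : Set (Matrix A A ℂ)} (h : Orb x G Γ) {k : ℕ}
    {l : Mo A k → Polynomial ℂ} (hl : (fun μ => τc x (l μ)) ⬝ᵥ vk k G = 0) {γ : Matrix A A ℂ}
    (hγ : γ ∈ Γ) : (fun μ => (l μ).eval x) ⬝ᵥ vk k γ = 0 :=
  (rep_eval _ (Polynomial.evalRingHom x) γ).symm.trans (h.spec ((fun μ => MvPolynomial.C (l μ)) ⬝ᵥ
    vk k (of fun i j => MvPolynomial.X (i, j))) ((rep_eval _ (τc x) G).trans hl) γ hγ)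

omit [DecidableEq A] in
theorem lf_one (c Φ : A → ℂ) (γ : Matrix A A ℂ) :
    (fun μ : Mo A 1 => (μ 0).elim 0 fun p => c p.1 * Φ p.2) ⬝ᵥ vk 1 γ = c ⬝ᵥ (γ *ᵥ Φ) := by
  rw [dotProduct, ← (Equiv.funUnique (Fin 1) _).symm.sum_comp, Fintype.sum_option]
  simp [vk, tens, hatg, Fintype.sum_prod_type, dotProduct, mulVec, mul_sum, mul_comm,
    mul_left_comm]

theorem liftD {L : Type*} [Field L] [Algebra L ℂ] {x : L} {G0 : Matrix A A L⟦X⟧}
    {T : Polynomial ℂ} {B : Matrix A A (Polynomial ℂ)} {Γ : Set (Matrix A A ℂ)}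
    (hT : T.eval (algebraMap L ℂ x) ≠ 0)
    (ode : τc (algebraMap L ℂ x) T • (G0.map (mpK L)).map (d⁄dX ℂ) =
      B.map (τc (algebraMap L ℂ x)) * G0.map (mpK L))
    (hΓ : Orb (algebraMap L ℂ x) (G0.map (mpK L)) Γ) (Φ : A → ℂ) (c : A → L)
    (hc : ∀ γ ∈ Γ, (fun a => algebraMap L ℂ (c a)) ⬝ᵥ (γ *ᵥ Φ) = 0) :
    ∃ h : A → Polynomial L, (∀ a, (h a).eval x = c a) ∧
      (fun a => τK (algebraMap L ℂ x) (h a)) ⬝ᵥ (G0.map (mpK L) *ᵥ fun a => C (Φ a)) = 0 := by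
  classical
  have a1 : ∀ π : Module.Dual L ℂ, ∀ γ ∈ Γ, (fun a => algebraMap L ℂ (c a)) ⬝ᵥ
      (γ *ᵥ fun a => algebraMap L ℂ (π (Φ a))) = 0 := fun π γ hγ => by
    obtain ⟨l, l1, l2⟩ := hΓ.lift1 1 _ fun γ hγ => (lf_one _ Φ γ).trans (hc γ hγ)
    obtain ⟨l', l3, l4⟩ := pi_relL (y := vk 1 G0) (by simpa only [map_vk] using l2) π
    have := lf_spec hΓ (l := fun μ => (l' μ).map (algebraMap L ℂ))
      (by simp only [map_vk] at l4; exact l4) hγ
    refine (lf_one _ _ γ).symm.trans (Eq.trans (congrArg (· ⬝ᵥ vk 1 γ) (funext fun μ => ?_)) this)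
    rw [Polynomial.eval_map_algebraMap, Polynomial.aeval_algebraMap_apply_eq_algebraMap_eval, l3, l1]
    rcases μ 0 with _ | p
    · simp
    · rw [Option.elim_some, Option.elim_some, ← Algebra.smul_def (c _) (Φ _), map_smul, smul_eq_mul,
        map_mul]
  let β := Module.Basis.ofVectorSpace L ℂ
  let s := univ.biUnion fun a => (β.repr (Φ a)).support
  obtain ⟨l, l1, l2⟩ := sim_lift hT ode (fun (j : s) a => algebraMap L ℂ (β.coord j (Φ a))) _
    fun j => hΓ.lift2 _ _ (a1 _)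
  obtain ⟨π, hπ⟩ := Module.Projective.exists_dual_eq_one L (one_ne_zero (α := ℂ))
  have e : ∀ (j : s) a, mpK L ((G0 *ᵥ fun a => C (β.coord j (Φ a))) a) =
      (G0.map (mpK L) *ᵥ fun a => C (algebraMap L ℂ (β.coord j (Φ a)))) a := fun j a => by
    simp only [mulVec, dotProduct, map_sum, map_mul, map_C, map_apply]
  obtain ⟨h, h1, h2⟩ := pi_relJ (y := fun j : s => G0 *ᵥ fun a => C (β.coord j (Φ a)))
    (fun j => by simpa only [e] using l2 j) π
  refine ⟨h, fun a => by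
    rw [h1, l1, Algebra.algebraMap_eq_smul_one, map_smul, hπ, smul_eq_mul, mul_one], ?_⟩
  have e2 : (fun a => C (Φ a) : A → ℂ⟦X⟧) =
      ∑ j : s, (C (β j) : ℂ⟦X⟧) • fun a => C (algebraMap L ℂ (β.coord j (Φ a))) := by
    ext1 a
    simp only [Finset.sum_apply, Pi.smul_apply, smul_eq_mul, ← map_mul, ← map_sum]
    congr 1
    conv_lhs => rw [← β.linearCombination_repr (Φ a), Finsupp.linearCombination_apply,
      Finsupp.sum_of_support_subset _ (subset_biUnion_of_mem _ (mem_univ a) : _ ⊆ s)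
        (fun i a => a • β i) fun _ _ => zero_smul _ _, ← sum_coe_sort]
    exact sum_congr rfl fun j _ => by rw [Algebra.smul_def, mul_comm]; rfl
  simp only [e] at h2
  simp only [e2, mulVec_sum, mulVec_smul, dotProduct_sum, dotProduct_smul, h2, smul_zero,
    sum_const_zero]

end

end Pool.Agent.Lib.MP_5591bc_ag.D
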