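import Pool.Agent.Lib.MP_5591bc_ag.D.Value
import Pool.Agent.Lib.MP_5591bc_ag.D.Lift

/-! Elimination of the transcendental constants. -/

namespace Pool.Agent.Lib.MP_5591bc_ag.D

open Matrix Finset Filter Topology PowerSeries G R V Function
open W (GK mpK)

noncomputable section

variable {A α I : Type*} [Fintype A] [DecidableEq A] [Fintype α] [Fintype I] {K : Type} [Field K]
  [NumberField K] [Algebra K ℂ] {T : Polynomial K} {B : Matrix A A (Polynomial K)} {Ω : Set ℂ}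
  {G : ℂ → Matrix A A ℂ⟦X⟧} {f : α → ℚ⟦X⟧} {F : ℂ → α → ℂ⟦X⟧} {E : A → α → K} {φ : ℂ → A → ℂ}

omit [DecidableEq A] [Fintype I] in
theorem mnr_tensC {r : ℕ} (κ : Fin r → I → A → ℂ) (J : Fin r → I) (y : Fin r → A → ℂ) :
    mnr (fun l μ => κ l μ ⬝ᵥ y l) J = (fun a => mnr (fun l μ => κ l μ (a l)) J) ⬝ᵥ tens y := by
  simp only [mnr, dotProduct, tens]
  simp only [← det_transpose (of _), det_apply', transpose_apply, of_apply, prod_univ_sum, mul_sum,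
    Fintype.piFinset_univ, sum_mul]
  rw [sum_comm]
  simp [prod_mul_distrib, mul_assoc]

omit [NumberField K] in
/-- the compositum of `r` fields of degree at most `d` -/
theorem exists_comp (d r : ℕ) (L : Fin r → IntermediateField K ℂ)
    (h : ∀ i, FiniteDimensional K (L i) ∧ Module.finrank K (L i) ≤ d) :
    ∃ M : IntermediateField K ℂ, FiniteDimensional K M ∧ Module.finrank K M ≤ d ^ r ∧
      ∀ i, L i ≤ M := by
  induction r with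
  | zero => exact ⟨⊥, inferInstance, by simp, fun i => i.elim0⟩
  | succ r ih =>
    obtain ⟨M, h1, h2, h3⟩ := ih (fun i => L i.succ) fun i => h _
    have := (h 0).1
    exact ⟨M ⊔ L 0, inferInstance, (IntermediateField.finrank_sup_le _ _).trans
      (Nat.mul_le_mul h2 (h 0).2), Fin.cases le_sup_right fun i => le_sup_of_le_left (h3 i)⟩

theorem TwoD.elim0 (H : TwoD T B Ω G f F E φ) (d : ℕ) (κ : ℂ → I → A → ℂ) (θ : I → ℂ) {s : ℝ}
    (s0 : 0 ≤ s) (s1 : s < 1) {S : Set ℂ} {w : ℂ → ℕ} {L : ℂ → IntermediateField K ℂ}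
    {Γ : ℂ → Set (Matrix A A ℂ)}
    (hS : ∀ x ∈ S, x ∈ Ω ∧ Orb x (G x) (Γ x) ∧ FiniteDimensional K (L x) ∧
      Module.finrank K (L x) ≤ d ∧ x ∈ L x ∧ (∀ μ a, κ x μ a ∈ L x) ∧
      (fun μ => κ x μ ⬝ᵥ φ x) ⬝ᵥ θ = 0 ∧ Hq x (w x) ∧ x ≠ 0 ∧ ‖x‖ ≤ s ^ w x)
    (big : ∀ n, ∃ x ∈ S, n ≤ w x) :
    ∃ x ∈ S, ∀ γ ∈ Γ x, (fun μ => κ x μ ⬝ᵥ (γ *ᵥ φ x)) ⬝ᵥ θ = 0 := by
  by_contra h0
  choose Λm hΛ using fun m : Fin (Fintype.card I + 2) =>
    H.value m (Module.finrank ℚ K * d ^ (m : ℕ)) s0 s1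
  obtain ⟨Λ, hΛ'⟩ : ∃ Λ, ∀ m, Λm m ≤ Λ := ⟨univ.sup Λm, fun m => le_sup (mem_univ m)⟩
  have key : ∀ r, ∃ (ξ : Fin r → ℂ) (J : Fin r → I),
      (∀ i, ξ i ∈ S ∧ Λ ≤ w (ξ i)) ∧ (∀ i j, i < j → Λ * w (ξ j) ≤ w (ξ i)) ∧
      mnr (fun l μ => κ (ξ l) μ ⬝ᵥ φ (ξ l)) J ≠ 0 := fun r => by
    induction r with
    | zero => exact ⟨Fin.elim0, Fin.elim0, fun i => i.elim0, fun i => i.elim0, by simp [mnr]⟩
    | succ r ih =>
    obtain ⟨ξ, J, a1, a2, a3⟩ := ih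
    have hr : r ≤ Fintype.card I := by simpa using Fintype.card_le_of_injective J (mnr_inj a3)
    obtain ⟨x, x1, x3⟩ := big (Λ + Λ * ∑ i, w (ξ i))
    obtain ⟨ξ', hξ⟩ : ∃ ξ' : Fin (r + 1) → ℂ, ξ' = Fin.cons x ξ := ⟨_, rfl⟩
    have b1 : ∀ i, ξ' i ∈ S ∧ Λ ≤ w (ξ' i) := fun i => by
      rw [hξ]; exact Fin.cases ⟨x1, le_trans (Nat.le_add_right _ _) x3⟩ a1 i
    have b2 : ∀ i j, i < j → Λ * w (ξ' j) ≤ w (ξ' i) := fun i j => by
      rw [hξ]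
      refine Fin.cases (fun h => absurd h (Fin.not_lt_zero _)) (fun j => ?_) j
      refine Fin.cases (fun _ => le_trans ?_ ((Nat.le_add_left _ _).trans x3))
        (fun i h => a2 i j (Fin.succ_lt_succ_iff.1 h)) i
      exact Nat.mul_le_mul_left _ (single_le_sum (f := fun i => w (ξ i)) (fun _ _ => Nat.zero_le _)
        (mem_univ j))
    by_contra hn
    refine h0 ⟨x, x1, fun γ hγ => ?_⟩
    choose c1 c2 c3 c4 c5 c6 c7 c8 c9 c10 using fun i => hS _ (b1 i).1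
    obtain ⟨M, m1, m2, m3⟩ := exists_comp d (r + 1) (fun i => L (ξ' i)) fun i => ⟨c3 i, c4 i⟩
    have : NumberField M := NumberField.of_module_finite K M
    obtain ⟨g, hg⟩ := sat_eq (v := fun l μ => κ (ξ l) μ ⬝ᵥ φ (ξ l)) (I := J)
      (u := fun μ => κ x μ ⬝ᵥ (γ *ᵥ φ x)) fun β => by
        have d1 : mnr (fun l μ => κ (ξ' l) μ ⬝ᵥ φ (ξ' l)) (Fin.cons β J) = 0 :=
          by_contra fun h => hn ⟨ξ', _, b1, b2, h⟩
        have e : (fun a : Fin (r + 1) → A => algebraMap M ℂ (mnr (fun l μ =>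
            (⟨κ (ξ' l) μ (a l), m3 l (c6 l _ _)⟩ : M)) (Fin.cons β J))) =
            fun a => mnr (fun l μ => κ (ξ' l) μ (a l)) (Fin.cons β J) :=
          funext fun a => map_mnr _ _ _
        have d2 := hΛ ⟨r + 1, by omega⟩ M (by
            rw [← Module.finrank_mul_finrank ℚ K M]; exact Nat.mul_le_mul_left _ m2)
          (fun i => ⟨ξ' i, m3 i (c5 i)⟩) ξ' (fun i => w (ξ' i)) (fun _ => rfl) c1
          (fun i => (hΛ' _).trans (b1 i).2)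
          (fun i j h => (Nat.mul_le_mul_right _ (hΛ' _)).trans (b2 i j h)) c8 c9 c10 _ c2 _
          (by rw [e, ← mnr_tensC]; exact d1) (Fin.cons γ fun _ => 1) fun i => by
            refine Fin.cases ?_ (fun i => (c2 _).one) i
            rw [hξ]; exact hγ
        rw [e, ← mnr_tensC, hξ] at d2
        refine Eq.trans ?_ d2
        rw [bord]
        congr 1
        ext1 l
        exact Fin.cases rfl (fun _ => by simp) l
    have := congrArg (· ⬝ᵥ θ) hg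
    simp only [smul_dotProduct, sum_dotProduct, (hS _ (a1 _).1).2.2.2.2.2.2.1, smul_zero,
      sum_const_zero, smul_eq_zero] at this
    exact this.resolve_left a3
  obtain ⟨ξ, J, -, -, h⟩ := key (Fintype.card I + 1)
  simpa using Fintype.card_le_of_injective J (mnr_inj h)

omit [NumberField K] in
/-- invariance under the group gives a functional relation over `L` -/
theorem SysD.lgood (H : SysD T B Ω G) {L : Type} [Field L] [NumberField L] [Algebra K L]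
    [Algebra L ℂ] [IsScalarTower K L ℂ] {x : L} {ξ : ℂ} (hξ : ξ = algebraMap L ℂ x) {w : ℕ}
    (a1 : ξ ∈ Ω) (a3 : Hq ξ w) {Γ : Set (Matrix A A ℂ)} (o3 : Orb ξ (G ξ) Γ) {Φ : A → ℂ}
    (h : ∀ c : A → L, (fun a => algebraMap L ℂ (c a)) ⬝ᵥ Φ = 0 →
      ∀ γ ∈ Γ, (fun a => algebraMap L ℂ (c a)) ⬝ᵥ (γ *ᵥ Φ) = 0) :
    LGoodD L x (G ξ *ᵥ fun a => C (Φ a)) := fun c hc => by
  subst hξ
  obtain ⟨e, he⟩ := H.ar (Module.finrank ℚ L)
  obtain ⟨G0, hG, -⟩ := he L le_rfl x a1 _ a3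
  obtain ⟨o1, o2⟩ := H.odeC a1
  have e1 : ∀ M : Matrix A A ℂ⟦X⟧, (fun a => constantCoeff ((M *ᵥ fun a => C (Φ a)) a)) =
      M.map constantCoeff *ᵥ Φ := fun M => funext fun a => by simp [mulVec, dotProduct]
  rw [e1, H.one _ a1, one_mulVec] at hc
  rw [hG] at o2 o3 ⊢
  exact liftD o1 o2 o3 _ c (h _ hc)

theorem single_dot (N : Matrix A A ℂ) (c y : A → ℂ) :
    (fun μ : A × A => Pi.single μ.2 (c μ.1) ⬝ᵥ y) ⬝ᵥ (fun μ => N μ.1 μ.2) = c ⬝ᵥ (N *ᵥ y) := by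
  simp only [single_dotProduct]
  simp only [dotProduct, mulVec, Fintype.sum_prod_type, mul_sum, mul_assoc, mul_comm (y _)]

theorem TwoD.elim (H : TwoD T B Ω G f F E φ) (d : ℕ) {N : Matrix A A ℂ}
    (hN : ∀ x ∈ Ω, G x * N.map C = N.map C * G x) {s : ℝ} (s0 : 0 ≤ s) (s1 : s < 1) {S : Set ℂ}
    {w : ℂ → ℕ} {L : ℂ → IntermediateField K ℂ}
    (hS : ∀ x ∈ S, x ∈ Ω ∧ FiniteDimensional K (L x) ∧ Module.finrank K (L x) ≤ d ∧ x ∈ L x ∧
      Hq x (w x) ∧ x ≠ 0 ∧ ‖x‖ ≤ s ^ w x) (big : ∀ n, ∃ x ∈ S, n ≤ w x) :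
    ∃ x ∈ S, ∀ hx : x ∈ L x, LGoodD (L x) ⟨x, hx⟩ (G x *ᵥ fun a => C ((N *ᵥ φ x) a)) := by
  by_contra hn
  choose! Γ hΓ using fun x (hx : x ∈ Ω) => H.orb hx
  have h1 : ∀ x ∈ S, ∃ c : A → ℂ, (∀ a, c a ∈ L x) ∧ c ⬝ᵥ (N *ᵥ φ x) = 0 ∧
      ¬ ∀ γ ∈ Γ x, c ⬝ᵥ (γ *ᵥ (N *ᵥ φ x)) = 0 := fun x hx => by
    by_contra h
    obtain ⟨a1, a2, -, -, a3, -⟩ := hS x hx
    have : NumberField (L x) := NumberField.of_module_finite K (L x)
    exact hn ⟨x, hx, fun hL => H.sys.lgood (by rfl) a1 a3 (hΓ x a1) fun c c2 =>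
      by_contra fun h' => h ⟨_, fun a => (c a).2, c2, h'⟩⟩
  choose! c c1 c2 c3 using h1
  obtain ⟨x, x1, x2⟩ := H.elim0 d (fun x (μ : A × A) => Pi.single μ.2 (c x μ.1))
    (fun μ => N μ.1 μ.2) s0 s1 (S := S) (w := w) (L := L) (Γ := Γ) (fun x hx => by
      obtain ⟨a1, a2, a3, a4, a5⟩ := hS x hx
      refine ⟨a1, hΓ x a1, a2, a3, a4, fun μ a => ?_, (single_dot ..).trans (c2 x hx), a5⟩
      rw [Pi.single_apply]
      split_ifs
      exacts [c1 x hx _, zero_mem _]) big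
  refine c3 x x1 fun γ hγ => ?_
  rw [mulVec_mulVec, orb_comm (hΓ x (hS x x1).1) (hN x (hS x x1).1) hγ, ← mulVec_mulVec,
    ← single_dot]
  exact x2 γ hγ

end

end Pool.Agent.Lib.MP_5591bc_ag.D
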