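import Pool.Agent.Lib.MP_5591bc_ag.D.Kit
import Pool.Agent.Lib.MP_5591bc_ag.V.Rows

/-! The rows of the auxiliary construction. -/

namespace Pool.Agent.Lib.MP_5591bc_ag.D

open Matrix Finset Filter Topology PowerSeries G R V Function
open W (GK mpK)

noncomputable section

variable {A α : Type*} [Fintype A] [DecidableEq A] [Fintype α]

section

variable {m k' k : ℕ} {L : Type*} [Field L]

/-- the rows of the first kind -/
def rd1 (α : Type*) (W : Fin m → Matrix (Mo A k) (Mo A k) (Polynomial L)) (μ ν : Fin m → Mo A k) :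
    OtL (Fin m) α L := MvPolynomial.C ((1 - piM fun i => (W i).map fun p =>
      Polynomial.aeval (MvPolynomial.X i : MvPolynomial (Fin m) L) p) μ ν)

/-- the symbol for an entry of the solution -/
def rdS (E : A → α → L) (i : Fin m) (b : A) : OtL (Fin m) α L :=
  ∑ a, MvPolynomial.C (MvPolynomial.C (E b a)) * MvPolynomial.X (i, a)

/-- the rows of the second kind -/
def rd2 {O : Type*} [CommRing O] (q : ℚ →+* O) (κ : Mo A k' → A → A → Mo A k → ℚ)
    (c : (Fin m → A) → O) (x : Fin m → A → O) (n : Fin m → Mo A k') (ν : Fin m → Mo A k) : O :=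
  ∑ β, c β * ∏ i, ∑ b, x i b * q (κ (n i) (β i) b (ν i))

omit [Fintype A] [DecidableEq A] in
theorem rdS_deg (E : A → α → L) (i : Fin m) (b : A) : (rdS E i b).totalDegree ≤ 1 := by
  refine MvPolynomial.totalDegree_finsetSum_le fun a _ => (MvPolynomial.totalDegree_mul _ _).trans ?_
  simp

theorem rd2_deg (q : ℚ →+* MvPolynomial (Fin m) L) (κ : Mo A k' → A → A → Mo A k → ℚ)
    (c : (Fin m → A) → MvPolynomial (Fin m) L) (E : A → α → L) (n : Fin m → Mo A k')
    (ν : Fin m → Mo A k) :
    (rd2 (MvPolynomial.C.comp q) κ (fun β => MvPolynomial.C (c β)) (rdS E) n ν).totalDegree ≤ m := by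
  refine MvPolynomial.totalDegree_finsetSum_le fun β _ => (MvPolynomial.totalDegree_mul _ _).trans ?_
  rw [MvPolynomial.totalDegree_C, zero_add]
  refine (MvPolynomial.totalDegree_finsetProd _ _).trans
    ((sum_le_card_nsmul _ _ 1 fun l _ => ?_).trans (by simp))
  refine MvPolynomial.totalDegree_finsetSum_le fun b _ => (MvPolynomial.totalDegree_mul _ _).trans ?_
  rw [RingHom.comp_apply, MvPolynomial.totalDegree_C, add_zero]
  exact rdS_deg _ _ _

omit [Fintype α] in
theorem rd1_map {S : Type} [CommRing S] (g : OtL (Fin m) α L →+* S)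
    (W : Fin m → Matrix (Mo A k) (Mo A k) (Polynomial L)) (μ ν : Fin m → Mo A k) :
    g (rd1 α W μ ν) = (1 - piM fun i => (W i).map fun p => g (MvPolynomial.C
      (Polynomial.aeval (MvPolynomial.X i : MvPolynomial (Fin m) L) p))) μ ν := by
  simp [rd1, piM, one_apply, apply_ite]

omit [Fintype α] in
theorem rd1_pair {S : Type} [CommRing S] (g : OtL (Fin m) α L →+* S)
    {W : Fin m → Matrix (Mo A k) (Mo A k) (Polynomial L)} {z : Fin m → Mo A k → S}
    (hz : ∀ i, ((W i).map fun p => g (MvPolynomial.C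
      (Polynomial.aeval (MvPolynomial.X i : MvPolynomial (Fin m) L) p))) *ᵥ z i = z i)
    (μ : Fin m → Mo A k) : tens z ⬝ᵥ (fun ν => g (rd1 α W μ ν)) = 0 := by
  have : ((1 - piM fun i => (W i).map fun p => g (MvPolynomial.C
      (Polynomial.aeval (MvPolynomial.X i : MvPolynomial (Fin m) L) p))) *ᵥ tens z) μ = 0 := by
    rw [sub_mulVec, one_mulVec, piM_mulVec, funext hz, sub_self, Pi.zero_apply]
  rw [dotProduct_comm, funext (rd1_map g W μ)]
  exact this

theorem rd2_pair {O : Type*} [CommRing O] {S : Type} [CommRing S] (g : O →+* S) (q : ℚ →+* O)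
    {κ : Mo A k' → A → A → Mo A k → ℚ}
    (hκ : ∀ (S : Type) [CommRing S] (g : ℚ →+* S) (Z : Matrix A A S) n a b,
      (fun ν => g (κ n a b ν)) ⬝ᵥ vk k Z = vk k' Z n * Z.adjugate a b)
    (c : (Fin m → A) → O) (x : Fin m → A → O) (n : Fin m → Mo A k') (Z : Fin m → Matrix A A S) :
    (tens fun i => vk k (Z i)) ⬝ᵥ (fun ν => g (rd2 q κ c x n ν)) =
      ((fun β => g (c β)) ⬝ᵥ tens fun i => (Z i).adjugate *ᵥ fun b => g (x i b)) *
      ∏ i, vk k' (Z i) (n i) := by
  simp only [rd2, map_sum, map_mul, map_prod, dotProduct, mul_sum, sum_mul]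
  rw [sum_comm]
  refine sum_congr rfl fun β _ => ?_
  simp only [tens, mul_left_comm _ (g (c β)), ← mul_sum, ← prod_mul_distrib, mul_assoc]
  rw [← Fintype.piFinset_univ, ← prod_univ_sum _ fun i ν => vk k (Z i) ν * ∑ b,
    g (x i b) * g (q (κ (n i) (β i) b ν))]
  congr 1
  refine prod_congr rfl fun i _ => ?_
  simp only [mul_sum, mulVec, dotProduct, sum_mul]
  rw [sum_comm]
  refine sum_congr rfl fun b _ => ?_
  have := hκ S (g.comp q) (Z i) (n i) (β i) b
  simp only [dotProduct, RingHom.comp_apply] at this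
  rw [mul_right_comm, mul_comm _ (vk k' _ _), ← this, sum_mul]
  exact sum_congr rfl fun ν _ => by ring

end

theorem rowsD {L : Type*} [Field L] [CharZero L] [Algebra L ℂ] {m k' k : ℕ}
    (hk : k' + Fintype.card A ≤ k) {ξ : Fin m → ℂ}
    {G : Fin m → Matrix A A ℂ⟦X⟧} {Γ : Fin m → Set (Matrix A A ℂ)}
    (h1 : ∀ i, (G i).map constantCoeff = 1) (hΓ : ∀ i, Orb (ξ i) (G i) (Γ i))
    {M' : Fin m → Finset (Mo A k')} {M : Fin m → Finset (Mo A k)}
    (hM' : ∀ i, BasD L (ξ i) (G i) (Γ i) k' (M' i)) (hM : ∀ i, BasD L (ξ i) (G i) (Γ i) k (M i))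
    {φ : Fin m → A → ℂ} {F : Fin m → α → ℂ⟦X⟧} {E : A → α → L}
    (hF : ∀ i a, (G i *ᵥ fun a => C (φ i a)) a = ∑ b, C (algebraMap L ℂ (E a b)) * F i b)
    {c : (Fin m → A) → L} (hc : (fun β => algebraMap L ℂ (c β)) ⬝ᵥ tens φ = 0)
    (hD : ∃ γ : Fin m → Matrix A A ℂ, (∀ i, γ i ∈ Γ i) ∧
      (fun β => algebraMap L ℂ (c β)) ⬝ᵥ (tens fun i => (γ i).adjugate *ᵥ φ i) ≠ 0) :
    ∃ (r : ℕ) (v : Fin r → (Fin m → Mo A k) → OtL (Fin m) α L) (I : Fin r → Fin m → Mo A k),
      (∀ l μ, (v l μ).totalDegree ≤ m) ∧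
      (∀ l, tvC (fun i => vk k (G i)) ⬝ᵥ (fun μ => eA L ξ F (v l μ)) = 0) ∧
      MvPowerSeries.constantCoeff (eA L ξ F (mnr v I)) ≠ 0 ∧
      Fintype.card (Fin m → Mo A k) + ∏ i, (M' i).card ≤ r + ∏ i, (M i).card := by
  obtain ⟨κ, hκ⟩ := rw_kap hk
  choose W w1 w2 w3 using fun i => (hM i).gen
  obtain ⟨g, hg⟩ : ∃ g, g = eA L ξ F := ⟨_, rfl⟩
  rw [← hg]
  have g1 : ∀ i p, g (MvPolynomial.C (Polynomial.aeval
      (MvPolynomial.X i : MvPolynomial (Fin m) L) p)) = embC i (τK (ξ i) p) := fun i p => by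
    rw [hg, eA, MvPolynomial.eval₂Hom_C, τA_aeval]
  have g2 : ∀ a : L, g (MvPolynomial.C (MvPolynomial.C a)) =
      MvPowerSeries.C (algebraMap L ℂ a) := fun a => by
    rw [hg, eA, MvPolynomial.eval₂Hom_C, τA_C]
  have g3 : ∀ i b, g (rdS E i b) = embC i ((G i *ᵥ fun a => C (φ i a)) b) := fun i b => by
    rw [hF, rdS, map_sum, map_sum]
    refine sum_congr rfl fun a _ => ?_
    rw [map_mul, map_mul, g2, embC_C, hg, eA, MvPolynomial.eval₂Hom_X']
  let g0 : OtL (Fin m) α L →+* ℂ := MvPowerSeries.constantCoeff.comp g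
  have p1 : ∀ i p, g0 (MvPolynomial.C (Polynomial.aeval
      (MvPolynomial.X i : MvPolynomial (Fin m) L) p)) = Polynomial.aeval (ξ i) p := fun i p => by
    rw [RingHom.comp_apply, g1, embC_const, τK_const]
  have p2 : ∀ a : L, g0 (MvPolynomial.C (MvPolynomial.C a)) = algebraMap L ℂ a := fun a => by
    rw [RingHom.comp_apply, g2, MvPowerSeries.constantCoeff_C]
  have p3 : ∀ i b, g0 (rdS E i b) = φ i b := fun i b => by
    have : ∀ a, constantCoeff (G i b a) = (1 : Matrix A A ℂ) b a := fun a =>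
      congrFun₂ (h1 i) b a
    rw [RingHom.comp_apply, g3, embC_const]
    simp [mulVec, dotProduct, this, one_apply]
  let q : ℚ →+* MvPolynomial (Fin m) L := MvPolynomial.C.comp (algebraMap ℚ L)
  let ι := {μ // μ ∉ Fintype.piFinset M} ⊕ (∀ i, M' i)
  let u : ι → (Fin m → Mo A k) → OtL (Fin m) α L :=
    Sum.elim (fun μ => rd1 α W μ.1) fun n => rd2 (MvPolynomial.C.comp q) κ
      (fun β => MvPolynomial.C (MvPolynomial.C (c β))) (rdS E) fun i => n i
  have ind : ∀ a : ι → ℂ, (∑ l, a l • fun ν => g0 (u l ν)) = 0 → ∀ l, a l = 0 := fun a ha => by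
    have a2 : (fun n => a (.inr n)) = 0 := by
      refine hil_indep Γ (fun _ => (rwP A).toSubmodule) ?_
        (D := fun γ => (fun β => algebraMap L ℂ (c β)) ⬝ᵥ (tens fun i => (γ i).adjugate *ᵥ φ i))
        (fun γ i => ?_) hD (fun i (n : M' i) x => vk k' x n) (fun i n => rwP_vk _)
        (fun i b hb => ?_) _ fun γ hγ => ?_
      · rintro i _ ⟨p, rfl⟩ _ ⟨q, rfl⟩ hp hq
        exact (hΓ i).irr p q hp hq
      · have : (fun x => (fun β => algebraMap L ℂ (c β)) ⬝ᵥ
            tens fun j => (update γ i x j).adjugate *ᵥ φ j) = ∑ β, algebraMap L ℂ (c β) •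
              ∏ j, ∑ b, φ j b • fun x => (update γ i x j).adjugate (β j) b := by
          ext x
          simp [dotProduct, tens, mulVec, mul_comm, Algebra.smul_def]
        rw [this]
        refine sum_mem fun β _ => (rwP A).smul_mem (prod_mem fun j _ => sum_mem fun b _ =>
          (rwP A).smul_mem ?_ _) _
        by_cases e : j = i
        · subst e
          simpa only [update_self] using rwP_adj (β j) b
        · simp only [update_of_ne e]
          exact (rwP A).algebraMap_mem _
      · have := (hM' i).indC (fun μ => if h : μ ∈ M' i then b ⟨μ, h⟩ else 0) (fun μ h => dif_neg h)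
          fun x hx => by
            rw [dotProduct, ← sum_subset (subset_univ (M' i)) fun μ _ h => by
              rw [dif_neg h, zero_mul], ← sum_coe_sort]
            exact (sum_congr rfl fun μ _ => by rw [dif_pos μ.2]).trans (hb x hx)
        exact funext fun μ => by simpa [μ.2] using congrFun this μ
      · have := congrArg (fun z => (tens fun i => vk k (γ i)) ⬝ᵥ z) ha
        simp only [dotProduct_sum, dotProduct_smul, dotProduct_zero] at this
        simp only [ι, u, Fintype.sum_sum_type,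
          Sum.elim_inl, Sum.elim_inr, rd2_pair g0 _ hκ, p2, p3, smul_eq_mul,
          rd1_pair g0 (fun i => by simpa only [p1] using w3 i _ (hγ i)), mul_zero, sum_const_zero,
          zero_add] at this
        rw [← this, mul_sum]
        exact sum_congr rfl fun n _ => mul_left_comm _ _ _
    rintro (μ | n)
    · have := congrFun ha μ.1
      obtain ⟨i, hi⟩ : ∃ i, μ.1 i ∉ M i := by simpa using μ.2
      have b1 : ∀ ν, (piM fun i => (W i).map fun p => g0 (MvPolynomial.C (Polynomial.aeval
          (MvPolynomial.X i : MvPolynomial (Fin m) L) p))) ν μ.1 = 0 :=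
        fun ν => prod_eq_zero (mem_univ i) (by
          simp only [map_apply]
          rw [p1, w2 i _ _ hi])
      simp only [Finset.sum_apply, Pi.smul_apply, ι, u, Fintype.sum_sum_type, Sum.elim_inl,
        congrFun a2, Pi.zero_apply, zero_mul, sum_const_zero, add_zero, rd1_map, Matrix.sub_apply,
        b1, sub_zero, one_apply, smul_eq_mul, ← Subtype.ext_iff, mul_boole, sum_ite_eq', mem_univ,
        if_true] at this
      exact this
    · exact congrFun a2 n
  let e := (Fintype.equivFin ι).symm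
  obtain ⟨I, hI⟩ := rw_minor _ (fun l ν => g0 (u (e l) ν)) fun a ha l => by
    have := ind (fun j => a (e.symm j)) (by
      rw [← ha, ← e.sum_comp]; simp only [Equiv.symm_apply_apply]) (e l)
    rwa [Equiv.symm_apply_apply] at this
  refine ⟨_, fun l => u (e l), I, fun l μ => ?_, fun l => ?_, by rwa [← map_mnr] at hI, ?_⟩
  · beta_reduce
    rcases e l with μ | n
    · exact (MvPolynomial.totalDegree_C _).trans_le m.zero_le
    · exact rd2_deg _ _ _ _ _ _
  · let ψ : Fin m → ℂ⟦X⟧ →+* MvPowerSeries (Fin m) ℂ := fun i => (embC i).toRingHom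
    have b1 : tvC (fun i => vk k (G i)) = tens fun i => vk k ((G i).map (ψ i)) :=
      congrArg tens (funext fun i => funext fun μ => map_vk (ψ i) _ _)
    rw [b1]
    beta_reduce
    rcases e l with μ | n
    · refine rd1_pair g (fun i => funext fun a => ?_) _
      have := congrArg (ψ i) (congrFun (w1 i) a)
      simp only [mulVec, dotProduct, map_sum, map_mul, map_vk, map_apply] at this
      simp only [mulVec, dotProduct, map_apply, g1]
      exact this
    · refine (rd2_pair g _ hκ _ _ _ _).trans (mul_eq_zero_of_left ?_ _)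
      have b2 : ∀ i, ((G i).map (ψ i)).adjugate *ᵥ (fun b => g (rdS E i b)) =
          ((G i).map (ψ i)).det • fun b => MvPowerSeries.C (φ i b) := fun i => by
        have : (fun b => g (rdS E i b)) =
            (G i).map (ψ i) *ᵥ fun b => MvPowerSeries.C (φ i b) := funext fun b => by
          simp only [g3, mulVec, dotProduct, map_sum, map_mul, embC_C, map_apply]
          rfl
        rw [this, mulVec_mulVec, adjugate_mul, smul_mulVec, one_mulVec]
      have b3 := congrArg (fun z => (∏ i, ((G i).map (ψ i)).det) * MvPowerSeries.C z) hc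
      simp only [dotProduct, tens, map_sum, map_mul, map_prod, mul_sum, map_zero, mul_zero] at b3
      simp only [b2, g2, dotProduct, tens, Pi.smul_apply, smul_eq_mul, prod_mul_distrib]
      rw [← b3]
      exact sum_congr rfl fun α _ => mul_left_comm _ _ _
  · have b1 := card_le_univ (Fintype.piFinset M)
    have b2 : Fintype.card (∀ i, M' i) = ∏ i, (M' i).card := by simp
    simp only [ι, Fintype.card_sum, Fintype.card_subtype_compl, Fintype.card_coe, b2,
      ← Fintype.card_piFinset M]
    omega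

end

end Pool.Agent.Lib.MP_5591bc_ag.D
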