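import Pool.Agent.Lib.MP_5591bc_ag.D.EstA
import Pool.Agent.Lib.MP_5591bc_ag.W.GKa

/-! The arithmetic half of the estimate. -/

namespace Pool.Agent.Lib.MP_5591bc_ag.D

open Matrix Finset Filter Topology PowerSeries G R V Function
open W (GK mpK)

noncomputable section

variable {σ J : Type*} [Fintype σ] [DecidableEq σ] [Fintype J]

omit [Fintype σ] [DecidableEq σ] in
theorem estB_map {L : Type*} [Field L] [CharZero L] (φ : L →+* ℂ) (ξ : σ → L)
    (p : MvPolynomial σ ℚ) : shg (fun i => φ (ξ i)) p = MvPolynomial.map φ (shg ξ p) := by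
  induction p using MvPolynomial.induction_on with
  | C a => simp [shg_C]
  | add p q hp hq => simp only [map_add, hp, hq]
  | mul_X p i hp => simp only [map_mul, hp, shg_X, map_add, MvPolynomial.map_X, MvPolynomial.map_C]

omit [DecidableEq σ] in
theorem estB_nr {r : σ → ℝ} (hr : ∀ i, 1 ≤ r i) {n : σ → ℕ} {p : MvPolynomial σ ℚ}
    (hD : ∀ i, MvPolynomial.degreeOf i p ≤ n i) : nr r p ≤ (∏ i, r i ^ n i) * nr 1 p := by
  rw [nr, nr, mul_sum]
  refine sum_le_sum fun d hd => ?_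
  simp only [Pi.one_apply, one_pow, prod_const_one, mul_one]
  rw [mul_comm]
  exact mul_le_mul_of_nonneg_right (prod_le_prod (fun i _ => pow_nonneg (zero_le_one.trans (hr i)) _)
    fun i _ => pow_le_pow_right₀ (hr i)
      ((MvPolynomial.monomial_le_degreeOf i hd).trans (hD i))) (abs_nonneg _)

omit [DecidableEq σ] in
theorem estB_int {L : Type*} [Field L] [CharZero L] {ξ : σ → L} {a n : σ → ℕ}
    (ha : ∀ i, IsIntegral ℤ ((a i : L) * ξ i)) {p : MvPolynomial σ ℚ} (hp : p ∈ ZP σ)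
    (hD : ∀ i, MvPolynomial.degreeOf i p ≤ n i) (d : σ →₀ ℕ) :
    IsIntegral ℤ (((∏ i, a i ^ n i : ℕ) : L) * (shg ξ p).coeff d) := by
  obtain ⟨S, hS⟩ : ∃ S, S = (MvPolynomial.map (σ := σ) (integralClosure ℤ L).val.toRingHom).range :=
    ⟨_, rfl⟩
  have hC : ∀ x : L, IsIntegral ℤ x → MvPolynomial.C x ∈ S := fun x hx =>
    hS ▸ ⟨MvPolynomial.C ⟨x, hx⟩, MvPolynomial.map_C _ _⟩
  have hX : ∀ i, MvPolynomial.X i ∈ S := fun i => hS ▸ ⟨MvPolynomial.X i, MvPolynomial.map_X _ _⟩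
  have : MvPolynomial.C ((∏ i, a i ^ n i : ℕ) : L) * shg ξ p ∈ S := by
    rw [p.as_sum, map_sum, mul_sum]
    refine sum_mem fun k hk => ?_
    obtain ⟨z, hz⟩ := mem_ZP.1 hp k
    have e : MvPolynomial.C ((∏ i, a i ^ n i : ℕ) : L) * shg ξ (MvPolynomial.monomial k (p.coeff k)) =
        (z : MvPolynomial σ L) * ∏ i, (MvPolynomial.C (a i : L) ^ (n i - k i) *
          (MvPolynomial.C (a i : L) * MvPolynomial.X i + MvPolynomial.C ((a i : L) * ξ i)) ^ k i) := by
      rw [shg, MvPolynomial.aeval_monomial, Finsupp.prod_fintype _ _ (by simp), hz, map_intCast,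
        mul_left_comm, Nat.cast_prod, map_prod, ← prod_mul_distrib]
      refine congrArg _ (prod_congr rfl fun i _ => ?_)
      have h1 : k i ≤ n i := (MvPolynomial.monomial_le_degreeOf i hk).trans (hD i)
      conv_lhs => rw [← Nat.sub_add_cancel h1]
      rw [Nat.cast_pow, map_pow, pow_add, mul_assoc, ← mul_pow, mul_add, map_mul]
    rw [e]
    exact mul_mem (intCast_mem _ _) (prod_mem fun i _ => mul_mem
      (pow_mem (hC _ (isIntegral_natCast _)) _) (pow_mem (add_mem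
        (mul_mem (hC _ (isIntegral_natCast _)) (hX i)) (hC _ (ha i))) _))
  rw [hS] at this
  obtain ⟨q, hq⟩ := this
  rw [← MvPolynomial.coeff_C_mul, ← hq, MvPolynomial.coeff_map]
  exact (q.coeff d).2

/-- a small coefficient vanishes -/
theorem est_liou {L : Type*} [Field L] [NumberField L] [Algebra L ℂ] {D : ℕ}
    (hD : Module.finrank ℚ L ≤ D) {ξ : σ → L} {w : σ → ℕ}
    (hd : ∀ i, Hq (algebraMap L ℂ (ξ i)) (w i)) {y : σ → J → L⟦X⟧} {e : ℕ}
    (hy : ∀ i, GK (2 ^ (e * w i)) (y i)) : ∃ M : ℝ, 0 < M ∧ ∀ (E u : ℕ)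
      (P : (σ → J) → MvPolynomial σ ℚ), (∀ μ, Bd (fun i => E / w i) u (P μ)) →
      ∀ ν : σ →₀ ℕ, Finsupp.weight w ν ≤ 2 * u → ∀ z, z = MvPowerSeries.coeff ν
        ((fun μ => τg (fun i => algebraMap L ℂ (ξ i)) (P μ)) ⬝ᵥ tvC fun i j => mpK L (y i j)) →
      M * 2 ^ ((Fintype.card σ * E + 2 * e * u) +
        D * (3 * Fintype.card σ * E + (4 * e + 1) * u)) * ‖z‖ < 1 → z = 0 := by
  choose c c0 hc using hy
  choose a a0 a1 a2 a3 using fun i => (hd i).dn.2
  have w0 := fun i => (hd i).dn.1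
  obtain ⟨M, hM⟩ : ∃ M : ℝ, M = ∏ i, (c i : ℝ) := ⟨_, rfl⟩
  have M1 : 1 ≤ M := hM ▸ one_le_prod (fun i _ => by exact_mod_cast c0 i)
  obtain ⟨N, hN⟩ : ∃ N : ℝ, N = M * M * (Fintype.card (σ → J) + 1) := ⟨_, rfl⟩
  have N1 : 1 ≤ N := hN ▸ one_le_mul_of_one_le_of_one_le (one_le_mul_of_one_le_of_one_le M1 M1)
    (le_add_of_nonneg_left (Nat.cast_nonneg _))
  refine ⟨M * N ^ D, by positivity, fun E u P hP ν hν z hz hlt => ?_⟩
  obtain ⟨x, hx⟩ : ∃ x : L, x = ∑ μ, ∑ p ∈ antidiagonal ν,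
    (shg ξ (P μ)).coeff p.1 * ∏ i, coeff (p.2 i) (y i (μ i)) := ⟨_, rfl⟩
  have hφ : ∀ φ : L →+* ℂ, MvPowerSeries.coeff ν ((fun μ => τg (fun i => φ (ξ i)) (P μ)) ⬝ᵥ
      tvC fun i j => PowerSeries.map φ (y i j)) = φ x := fun φ => by
    simp only [hx, dotProduct, map_sum, MvPowerSeries.coeff_mul, tvC, tens, coeff_prod_embC,
      τg_eq, MvPolynomial.coeff_coe, estB_map, MvPolynomial.coeff_map, map_mul, map_prod,
      coeff_map]
  have b2 : ∏ i, ((2 : ℝ) ^ (e * w i)) ^ ν i ≤ 2 ^ (2 * e * u) := by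
    simp only [← pow_mul, prod_pow_eq_pow_sum, mul_assoc, ← mul_sum, mul_comm (w _), ← weight_eq]
    exact pow_le_pow_right₀ one_le_two (by rw [mul_left_comm]; exact Nat.mul_le_mul_left _ hν)
  have b3 : ∏ i, ((2 : ℝ) ^ w i) ^ (E / w i) ≤ 2 ^ (Fintype.card σ * E) := by
    simp only [← pow_mul, prod_pow_eq_pow_sum]
    refine pow_le_pow_right₀ one_le_two ?_
    simpa using sum_le_card_nsmul univ _ E fun i _ => Nat.mul_div_le E (w i)
  have ρ0 : ∀ i, (0 : ℝ) ≤ (2 ^ (e * w i))⁻¹ := fun i => by positivity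
  have cj : ∀ φ : L →+* ℂ, ‖φ x‖ ≤ Fintype.card (σ → J) *
      (M * ((2 ^ (Fintype.card σ * E)) ^ 2 * 2 ^ u)) * 2 ^ (2 * e * u) := fun φ => by
    have hr : ∀ i, ((2 : ℝ) ^ (e * w i))⁻¹ + ‖φ (ξ i)‖ ≤ (2 ^ w i) ^ 2 := fun i => by
      have d1 : ((2 : ℝ) ^ (e * w i))⁻¹ ≤ 1 := inv_le_one_of_one_le₀ (one_le_pow₀ one_le_two)
      have d2 : (2 : ℝ) ≤ 2 ^ w i := le_self_pow₀ one_le_two (w0 i).ne'
      nlinarith [a3 i φ]
    have d1 := estA_sum ρ0 univ (A := fun μ => tvC (fun i j => PowerSeries.map φ (y i j)) μ *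
        τg (fun i => φ (ξ i)) (P μ)) (M := fun _ => M * ((2 ^ (Fintype.card σ * E)) ^ 2 * 2 ^ u))
      (fun μ _ k => (estA_mul ρ0 hr (M := M) (fun k => by
        rw [tvC, tens, coeff_prod_embC, norm_prod, ← prod_mul_distrib, hM]
        refine prod_le_prod (fun i _ => by positivity) fun i _ => ?_
        rw [inv_pow, ← div_eq_mul_inv, div_le_iff₀ (by positivity), coeff_map]
        exact_mod_cast (hc i (k i)).1 (μ i) φ) (P μ) k).trans (mul_le_mul_of_nonneg_left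
          ((estB_nr (fun i => one_le_pow₀ (one_le_pow₀ one_le_two)) (hP μ).2.1).trans
            (mul_le_mul (by
              simp only [← pow_mul _ 2, mul_comm 2, pow_mul _ _ 2, prod_pow]
              exact pow_le_pow_left₀ (by positivity) b3 2) (hP μ).2.2
              (nr_nonneg (fun _ => zero_le_one) _) (by positivity))) (by positivity))) ν
    have d2 := hφ φ
    rw [dotProduct_comm, dotProduct] at d2
    rw [d2, sum_const, card_univ, nsmul_eq_mul] at d1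
    simp only [inv_pow, prod_inv_distrib] at d1
    rw [← div_eq_mul_inv, div_le_iff₀ (by positivity)] at d1
    exact d1.trans (mul_le_mul_of_nonneg_left b2 (by positivity))
  choose dA dA0 dA1 dA2 using fun i => (hc i (ν i)).2
  obtain ⟨d, hdd⟩ : ∃ d : ℕ, d = (∏ i, a i ^ (E / w i)) * ∏ i, dA i := ⟨_, rfl⟩
  have d0 : 0 < d := hdd ▸ Nat.mul_pos (prod_pos fun i _ => pow_pos (a0 i) _)
    (prod_pos fun i _ => dA0 i)
  have d1 : (d : ℝ) ≤ M * 2 ^ (Fintype.card σ * E + 2 * e * u) := by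
    rw [hdd, pow_add, mul_left_comm]
    push_cast
    refine mul_le_mul ((prod_le_prod (fun i _ => by positivity) fun i _ => pow_le_pow_left₀
      (by positivity) (by exact_mod_cast a1 i) _).trans b3) (le_trans ?_
        (mul_le_mul_of_nonneg_left b2 (by positivity))) (by positivity) (by positivity)
    rw [hM, ← prod_mul_distrib]
    exact prod_le_prod (fun i _ => by positivity) fun i _ => by exact_mod_cast dA1 i
  have d2 : IsIntegral ℤ ((d : L) * x) := by
    simp only [hx, mul_sum]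
    refine IsIntegral.sum _ fun μ _ => IsIntegral.sum _ fun p hp => ?_
    rw [hdd, Nat.cast_mul, mul_mul_mul_comm, Nat.cast_prod dA, ← prod_mul_distrib]
    exact (estB_int a2 (hP μ).1 (hP μ).2.1 _).mul (IsIntegral.prod _ fun i _ => dA2 i _ _
      (by rw [← mem_antidiagonal.1 hp]; exact Nat.le_add_left _ _))
  have e1 : z = algebraMap L ℂ x := hz.trans (hφ _)
  by_contra z0
  have x0 : (d : L) * x ≠ 0 := mul_ne_zero (Nat.cast_ne_zero.2 d0.ne') fun e => z0 (by
    rw [e1, e, map_zero])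
  obtain ⟨A, hA⟩ : ∃ A : ℝ, A = N * 2 ^ (3 * Fintype.card σ * E + (4 * e + 1) * u) := ⟨_, rfl⟩
  have A1 : 1 ≤ A := hA ▸ one_le_mul_of_one_le_of_one_le N1 (one_le_pow₀ one_le_two)
  obtain ⟨-, -, -, -, f1⟩ := W.gf_inv d2 x0 (A := A) fun φ => by
    rw [map_mul, map_natCast, norm_mul, Complex.norm_natCast]
    refine (mul_le_mul d1 (cj φ) (norm_nonneg _) (by positivity)).trans ?_
    have : M * 2 ^ (Fintype.card σ * E + 2 * e * u) * (Fintype.card (σ → J) *
        (M * ((2 ^ (Fintype.card σ * E)) ^ 2 * 2 ^ u)) * 2 ^ (2 * e * u)) =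
        M * M * Fintype.card (σ → J) * 2 ^ (3 * Fintype.card σ * E + (4 * e + 1) * u) := by ring
    rw [this, hA, hN]
    gcongr
    exact le_add_of_nonneg_right zero_le_one
  have f2 := (f1 (algebraMap L ℂ)).trans (pow_le_pow_right₀ A1 ((Nat.sub_le _ _).trans hD))
  rw [map_inv₀, norm_inv, map_mul, map_natCast, norm_mul, Complex.norm_natCast, ← e1,
    inv_le_iff_one_le_mul₀ (mul_pos (by exact_mod_cast d0) (norm_pos_iff.2 z0))] at f2
  refine absurd (f2.trans ((mul_le_mul_of_nonneg_left (mul_le_mul_of_nonneg_right d1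
    (norm_nonneg z)) (by positivity)).trans (le_of_eq ?_))) (not_le.2 hlt)
  rw [hA, pow_add (2 : ℝ) (_ + _), mul_comm D, pow_mul (2 : ℝ) _ D, mul_pow]
  ring

end

end Pool.Agent.Lib.MP_5591bc_ag.D
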