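import Pool.Agent.Lib.MP_5591bc_ag.D.EstA
import Pool.Agent.Lib.MP_5591bc_ag.D.EstB

/-! The estimate. -/

namespace Pool.Agent.Lib.MP_5591bc_ag.D

open Matrix Finset Filter Topology PowerSeries G R V Function
open W (GK mpK)

noncomputable section

variable {σ α J : Type*} [Fintype σ] [DecidableEq σ] [Fintype J] [DecidableEq J]

theorem estD_num {x Z M D0 N ρ t : ℝ} {e u m D : ℕ} (x0 : 0 ≤ x) (M0 : 0 ≤ M) (N0 : 0 ≤ N)
    (d0 : 0 < D0) (Z0 : 0 ≤ Z) (hρ : 1 ≤ 2 ^ (e * (2 * u)) * ρ)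
    (ht : t ≤ (1 / 2) ^ ((3 * m + 1) * (D + 1) * ((4 * e + 2) * u)))
    (h : D0 * x * ρ ≤ M * (t * (N * 2 ^ u))) (hu : Z * M * N / D0 < 2 ^ u) :
    Z * 2 ^ ((m * ((4 * e + 2) * u) + 2 * e * u) +
      D * (3 * m * ((4 * e + 2) * u) + (4 * e + 1) * u)) * x < 1 := by
  obtain ⟨n, hn⟩ : ∃ n, n = (m * ((4 * e + 2) * u) + 2 * e * u) +
      D * (3 * m * ((4 * e + 2) * u) + (4 * e + 1) * u) := ⟨_, rfl⟩
  have a0 : (1 / 2 : ℝ) ^ ((3 * m + 1) * (D + 1) * ((4 * e + 2) * u)) ≤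
      (1 / 2) ^ (n + e * (2 * u) + u + u) := pow_le_pow_of_le_one (by norm_num) (by norm_num) (by
    rw [hn]
    nlinarith [Nat.zero_le (m * ((4 * e + 2) * u)), Nat.zero_le (D * u)])
  have a1 : D0 * x ≤ 2 ^ (e * (2 * u)) *
      (M * ((1 / 2) ^ (n + e * (2 * u) + u + u) * (N * 2 ^ u))) := by
    refine (le_mul_of_one_le_right (by positivity) hρ).trans ?_
    rw [mul_left_comm]
    exact mul_le_mul_of_nonneg_left (h.trans (by gcongr; exact ht.trans a0)) (by positivity)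
  rw [div_lt_iff₀ d0] at hu
  have a2 := mul_le_mul_of_nonneg_left a1 (by positivity : 0 ≤ Z * 2 ^ n)
  have a3 : Z * 2 ^ n * (2 ^ (e * (2 * u)) *
      (M * ((1 / 2) ^ (n + e * (2 * u) + u + u) * (N * 2 ^ u)))) = Z * M * N / 2 ^ u := by
    rw [one_div, inv_pow]
    field_simp
    ring
  rw [a3, le_div_iff₀ (by positivity)] at a2
  have a4 : (Z * 2 ^ n * x) * (2 ^ u * D0) < 1 * (2 ^ u * D0) := by linarith
  rw [← hn]
  exact lt_of_mul_lt_mul_right a4 (by positivity)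

theorem est_vD {f : α → ℚ⟦X⟧} {a : ℕ} (hf : GF (2 ^ a) f) {L : Type*} [Field L] [NumberField L]
    [Algebra L ℂ] {D : ℕ} (hD : Module.finrank ℚ L ≤ D) {ξ : σ → L} {w : σ → ℕ}
    (hd : ∀ i, Hq (algebraMap L ℂ (ξ i)) (w i)) {F : σ → α → ℂ⟦X⟧}
    (hF : ∀ i, LimC f (algebraMap L ℂ (ξ i)) (F i)) {y : σ → J → L⟦X⟧} {e : ℕ} (e2 : 2 ≤ e)
    (hy : ∀ i, GK (2 ^ (e * w i)) (y i)) {I : Type*} [Fintype I] {Δ : MvPowerSeries σ ℂ}
    {ω : I → ℂ} {j : I → σ → J} {q : I → (σ → J) → Ot σ α}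
    (hΔ : MvPowerSeries.constantCoeff Δ ≠ 0)
    (hq : ∀ μ, ∑ β, MvPowerSeries.C (ω β) * tvC (fun i j => mpK L (y i j)) (j β) *
      eA ℚ (fun i => algebraMap L ℂ (ξ i)) F (q β μ) = Δ * tvC (fun i j => mpK L (y i j)) μ)
    {θ : ℝ} {c : ℕ} (θ0 : 1 / 2 ≤ θ) (θ1 : θ ≤ 1)
    (hc : θ ^ c ≤ (1 / 2) ^ ((3 * Fintype.card σ + 1) * (D + 1)))
    (hξ : ∀ i, ‖algebraMap L ℂ (ξ i)‖ ≤ θ ^ (2 * w i)) (hθ : ∀ i, 4 * 2 ^ a * θ ^ w i ≤ 1) :
    ∃ u0, ∀ u ≥ u0, ∀ P : (σ → J) → MvPolynomial σ ℚ,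
      (∀ μ, Bd (fun i => (4 * e + 2) * u / w i) u (P μ)) →
      (∀ β, Vn w (c * ((4 * e + 2) * u)) (∑ μ, e0 f (q β μ) * P μ)) →
      Vg w (2 * u) ((fun μ => τg (fun i => algebraMap L ℂ (ξ i)) (P μ)) ⬝ᵥ
        tvC fun i j => mpK L (y i j)) := by
  have h0 : 0 ≤ θ := by linarith
  have w0 := fun i => (hd i).dn.1
  have ρ0 : ∀ i, (0 : ℝ) ≤ (2 ^ (e * w i))⁻¹ := fun i => by positivity
  have hρ : ∀ i, ((2 : ℝ) ^ (e * w i))⁻¹ + ‖algebraMap L ℂ (ξ i)‖ ≤ θ ^ w i * (2 * 2 ^ a)⁻¹ :=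
    fun i => by
    have c1 : ((2 : ℝ) ^ (e * w i))⁻¹ ≤ θ ^ (2 * w i) := by
      rw [pow_mul, pow_mul, ← inv_pow]
      refine pow_le_pow_left₀ (by positivity) ((inv_anti₀ (by positivity)
        (pow_le_pow_right₀ one_le_two e2)).trans (by nlinarith)) _
    have c2 : θ ^ (2 * w i) = θ ^ w i * θ ^ w i := by ring
    have c3 : 0 ≤ θ ^ w i := by positivity
    rw [← div_eq_mul_inv, le_div_iff₀ (by positivity)]
    refine (mul_le_mul_of_nonneg_right (add_le_add c1 (hξ i)) (by positivity)).trans ?_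
    rw [c2]
    linarith [mul_le_mul_of_nonneg_left (hθ i) c3]
  choose N N0 hN using fun β => est_coreD hf w0 hF ρ0 h0 θ1 hρ (q β)
  obtain ⟨Z, Z0, hZ⟩ := est_liou hD hd hy
  choose Cy C0 hC using hy
  obtain ⟨M, hM⟩ : ∃ M : ℝ, M = (∑ β, ‖ω β‖) * ∏ i, (Cy i : ℝ) := ⟨_, rfl⟩
  have M0 : 0 ≤ M := by rw [hM]; positivity
  have hA : ∀ β ν, ‖MvPowerSeries.coeff ν
      (MvPowerSeries.C (ω β) * tvC (fun i j => mpK L (y i j)) (j β))‖ *
      ∏ i, ((2 : ℝ) ^ (e * w i))⁻¹ ^ ν i ≤ M := fun β ν => by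
    rw [MvPowerSeries.coeff_C_mul, tvC, tens, coeff_prod_embC, norm_mul, norm_prod, mul_assoc,
      ← prod_mul_distrib, hM]
    refine mul_le_mul (single_le_sum (f := fun β => ‖ω β‖) (fun _ _ => norm_nonneg _) (mem_univ β))
      (prod_le_prod (fun i _ => by positivity) fun i _ => ?_) (by positivity) (by positivity)
    rw [inv_pow, ← div_eq_mul_inv, div_le_iff₀ (by positivity), coeff_map]
    exact_mod_cast (hC i (ν i)).1 (j β i) (algebraMap L ℂ)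
  obtain ⟨u0, hu0⟩ := pow_unbounded_of_one_lt
    (Z * M * (∑ β, N β) / ‖MvPowerSeries.constantCoeff Δ‖) one_lt_two
  refine ⟨u0, fun u hu P hP hV => ?_⟩
  obtain ⟨Φ, hΦ⟩ : ∃ Φ, Φ = (fun μ => τg (fun i => algebraMap L ℂ (ξ i)) (P μ)) ⬝ᵥ
    tvC fun i j => mpK L (y i j) := ⟨_, rfl⟩
  rw [← hΦ]
  have e1 : Δ * Φ = ∑ β, MvPowerSeries.C (ω β) * tvC (fun i j => mpK L (y i j)) (j β) *
      ∑ μ, eA ℚ (fun i => algebraMap L ℂ (ξ i)) F (q β μ) *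
        τg (fun i => algebraMap L ℂ (ξ i)) (P μ) := by
    simp only [hΦ, dotProduct, mul_sum]
    rw [sum_comm]
    refine sum_congr rfl fun μ _ => ?_
    rw [mul_left_comm, ← hq, mul_sum]
    exact sum_congr rfl fun β _ => by ring
  have key : ∀ n, ∀ ν : σ →₀ ℕ, Finsupp.weight w ν = n → n < 2 * u →
      MvPowerSeries.coeff ν Φ = 0 := fun n => by
    induction n using Nat.strong_induction_on with
    | _ n ih =>
    intro ν hn hν
    rw [← hn] at hν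
    have b0 : ∀ μ < ν, MvPowerSeries.coeff μ Φ = 0 := fun μ h => by
      have : Finsupp.weight w μ < Finsupp.weight w ν := by
        rw [weight_eq, weight_eq]
        obtain ⟨h1, i, h2⟩ := Finsupp.lt_def.1 h
        exact sum_lt_sum (fun j _ => Nat.mul_le_mul_right _ (h1 j))
          ⟨i, mem_univ i, Nat.mul_lt_mul_of_pos_right h2 (w0 i)⟩
      exact ih _ (hn ▸ this) μ rfl (this.trans hν)
    have b1 : ‖MvPowerSeries.constantCoeff Δ‖ * ‖MvPowerSeries.coeff ν Φ‖ *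
        ∏ i, ((2 : ℝ) ^ (e * w i))⁻¹ ^ ν i ≤
        M * (θ ^ (c * ((4 * e + 2) * u)) * ((∑ β, N β) * 2 ^ u)) := by
      rw [← norm_mul, ← est_first b0, e1, map_sum]
      refine (mul_le_mul_of_nonneg_right (norm_sum_le _ _) (by positivity)).trans ?_
      rw [sum_mul, sum_mul, mul_sum, mul_sum]
      exact sum_le_sum fun β _ => hN β _ M (hA β) P _ _ (fun γ => (hP γ).2.2) (hV β) ν
    have b2 : ∏ i, ((2 : ℝ) ^ (e * w i)) ^ ν i ≤ 2 ^ (e * (2 * u)) := by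
      simp only [← pow_mul, prod_pow_eq_pow_sum, mul_assoc, ← mul_sum, mul_comm (w _), ← weight_eq]
      exact pow_le_pow_right₀ one_le_two (Nat.mul_le_mul_left _ hν.le)
    exact hZ _ u P hP ν hν.le _ (congrArg _ hΦ) (estD_num (norm_nonneg _) M0
      (sum_nonneg fun β _ => N0 β) (norm_pos_iff.2 hΔ) Z0.le (le_trans (by
        rw [← prod_mul_distrib]
        exact (prod_eq_one fun i _ => by rw [inv_pow]; exact mul_inv_cancel₀ (by positivity)).ge)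
        (mul_le_mul_of_nonneg_right b2 (by positivity)))
      (by rw [pow_mul θ c, pow_mul _ (_ * (D + 1))]; exact pow_le_pow_left₀ (by positivity) hc _) b1
      (hu0.trans_le (pow_le_pow_right₀ one_le_two hu)))
  exact fun ν hν => key _ ν rfl hν

end

end Pool.Agent.Lib.MP_5591bc_ag.D
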