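import Pool.Agent.Lib.MP_5591bc_ag.D.Kit

/-! Independence of tensor products. -/

namespace Pool.Agent.Lib.MP_5591bc_ag.D

open Matrix Finset Filter Topology PowerSeries G R V Function
open W (GK mpK)

noncomputable section

theorem ind_shg {σ : Type*} (ξ : σ → ℂ) {p : MvPolynomial σ ℚ} (h : shg ξ p = 0) : p = 0 := by
  have e : ∀ q : MvPolynomial σ ℚ, MvPolynomial.aeval
      (fun i => (MvPolynomial.X i - MvPolynomial.C (ξ i) : MvPolynomial σ ℂ)) (shg ξ q) =
      MvPolynomial.map (algebraMap ℚ ℂ) q := fun q => by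
    induction q using MvPolynomial.induction_on with
    | C a => rw [shg_C, MvPolynomial.aeval_C, MvPolynomial.map_C, MvPolynomial.algebraMap_eq]
    | add p q hp hq => simp only [map_add, hp, hq]
    | mul_X p j hp =>
      simp only [map_mul, hp, shg_X, map_add, MvPolynomial.aeval_X, MvPolynomial.aeval_C,
        MvPolynomial.map_X, MvPolynomial.algebraMap_eq, sub_add_cancel]
  refine MvPolynomial.map_injective (algebraMap ℚ ℂ) (algebraMap ℚ ℂ).injective ?_
  rw [← e, h, map_zero, map_zero]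

theorem ind_tensC {σ J : Type*} [Fintype σ] [DecidableEq σ] [Fintype J] [DecidableEq J]
    {ξ : σ → ℂ} {y : σ → J → ℂ⟦X⟧} {M : σ → Finset J}
    (h : ∀ i, ∀ l : J → Polynomial ℂ, (∀ μ ∉ M i, l μ = 0) →
      (fun μ => τc (ξ i) (l μ)) ⬝ᵥ y i = 0 → l = 0)
    {P : (σ → J) → MvPolynomial σ ℚ} (hP : ∀ μ, P μ ≠ 0 → ∀ i, μ i ∈ M i)
    (h0 : (fun μ => τg ξ (P μ)) ⬝ᵥ tvC y = 0) : P = 0 := by
  obtain ⟨a, ha⟩ : ∃ a : (σ → J) → MvPolynomial σ ℂ, a = fun μ => shg ξ (P μ) := ⟨_, rfl⟩
  obtain ⟨d, hd⟩ : ∃ d, ∀ β i, MvPolynomial.degreeOf i (a β) ≤ d :=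
    ⟨univ.sup fun β => (a β).totalDegree, fun β i => (MvPolynomial.degreeOf_le_totalDegree _ _).trans
      (le_sup (f := fun β => (a β).totalDegree) (mem_univ β))⟩
  let cv : ℕ → (J → ℂ⟦X⟧) → J × Fin (d + 1) → ℂ := fun n x k => coeff n (X ^ (k.2 : ℕ) * x k.1)
  let fs : (σ → Fin (d + 1)) → σ →₀ ℕ := fun j => Finsupp.equivFunOnFinite.symm fun i => j i
  have e1 : ∀ β, (a β : MvPowerSeries σ ℂ) = ∑ j : σ → Fin (d + 1),
      MvPowerSeries.C ((a β).coeff (fs j)) * ∏ i, embC i (X ^ (j i : ℕ)) := fun β => by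
    ext ν
    simp only [map_sum, MvPowerSeries.coeff_C_mul, coeff_prod_embC, coeff_X_pow, prod_boole,
      MvPolynomial.coeff_coe, mem_univ, true_imp_iff]
    by_cases hν : ∀ i, ν i ≤ d
    · rw [sum_eq_single (fun i => ⟨ν i, Nat.lt_succ_of_le (hν i)⟩)
        (fun j _ hj => by rw [if_neg fun e => hj (funext fun i => Fin.ext (e i).symm), mul_zero])
        (by simp)]
      simp [fs]
    · rw [sum_eq_zero fun j _ => by
        rw [if_neg fun e : ∀ i, ν i = j i => hν fun i => (e i).trans_le (Nat.le_of_lt_succ (j i).2),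
          mul_zero]]
      by_contra h0
      exact hν fun i =>
        (MvPolynomial.monomial_le_degreeOf i (MvPolynomial.mem_support_iff.2 h0)).trans (hd β i)
  have e2 : ∀ (x : σ → J → ℂ⟦X⟧) ν, MvPowerSeries.coeff ν
      ((fun j => (a j : MvPowerSeries σ ℂ)) ⬝ᵥ fun β => ∏ i, embC i (x i (β i))) =
      (fun κ : σ → J × Fin (d + 1) => (a fun i => (κ i).1).coeff (fs fun i => (κ i).2)) ⬝ᵥ
        tens fun i => cv (ν i) (x i) := fun x ν => by
    simp only [dotProduct, e1, sum_mul, map_sum, mul_assoc, ← prod_mul_distrib, ← map_mul,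
      MvPowerSeries.coeff_C_mul, coeff_prod_embC]
    rw [← Fintype.sum_prod_type', ← (Equiv.arrowProdEquivProdArrow σ _ _).sum_comp]
    rfl
  have e3 : ∀ (b : J × Fin (d + 1) → ℂ) (x : J → ℂ⟦X⟧) n, coeff n ((fun α =>
      ((∑ j : Fin (d + 1), Polynomial.monomial j (b (α, j)) : Polynomial ℂ) : ℂ⟦X⟧)) ⬝ᵥ x) =
      b ⬝ᵥ cv n x := fun b x n => by
    simp only [dotProduct, ← Polynomial.coeToPowerSeries.ringHom_apply, map_sum, sum_mul,
      Fintype.sum_prod_type, ← Polynomial.C_mul_X_pow_eq_monomial, map_mul, map_pow]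
    simp only [Polynomial.coeToPowerSeries.ringHom_apply, Polynomial.coe_C, Polynomial.coe_X,
      mul_assoc, coeff_C_mul, cv]
  let y' : σ → J → ℂ⟦X⟧ := fun i α => if α ∈ M i then y i α else 0
  have h1 : (fun j => (a j : MvPowerSeries σ ℂ)) ⬝ᵥ (fun β => ∏ i, embC i (y' i (β i))) = 0 := by
    rw [← h0, ha]
    refine sum_congr rfl fun μ _ => ?_
    by_cases hμ : P μ = 0
    · simp [hμ]
    · exact congrArg₂ _ rfl (prod_congr rfl fun i _ => by simp only [y', if_pos (hP μ hμ i)])
  funext μ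
  by_contra hμ
  have key : ∀ j : σ → Fin (d + 1), (a μ).coeff (fs j) = 0 := fun j => by
    have := mrep (S := fun i => Set.range fun n => cv n (y' i))
      (S' := fun i => {Pi.single (μ i, j i) 1}) (fun i b hb x hx => by
        have c1 := h i (fun α => if α ∈ M i then Polynomial.taylor (-ξ i)
          (∑ j : Fin (d + 1), Polynomial.monomial j (b (α, j))) else 0) (fun α hα => if_neg hα)
          (PowerSeries.ext fun n => by
            rw [map_zero, ← hb _ ⟨n, rfl⟩, ← e3]
            refine congrArg _ (sum_congr rfl fun α _ => ?_)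
            by_cases hα : α ∈ M i
            · simp only [y', if_pos hα]
              congr 1
              generalize (∑ j : Fin (d + 1), Polynomial.monomial (j : ℕ) (b (α, j))) = q
              simp [τc, Polynomial.taylor_taylor]
            · simp only [y', if_neg hα, map_zero, zero_mul, mul_zero])
        have c2 := congrFun c1 (μ i)
        rw [if_pos (hP μ hμ i), Pi.zero_apply,
          map_eq_zero_iff _ (Polynomial.taylor_injective _)] at c2
        have c3 := congrArg (fun q => Polynomial.coeff q (j i)) c2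
        rw [hx, dotProduct_single, mul_one]
        simpa [Polynomial.coeff_monomial, Fin.val_inj] using c3)
      (fun x hx => by
        choose n hn using hx
        rw [← funext hn]
        exact (e2 y' (Finsupp.equivFunOnFinite.symm n)).symm.trans (by rw [h1, map_zero]))
      (x := fun i => Pi.single (μ i, j i) 1) fun i => rfl
    rw [dotProduct, sum_eq_single (fun i => (μ i, j i)) (fun κ _ hκ => by
      obtain ⟨i, hi⟩ := Function.ne_iff.1 hκ
      rw [tens, prod_eq_zero (mem_univ i) (Pi.single_eq_of_ne hi _), mul_zero]) (by simp)] at this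
    simpa [tens] using this
  have h2 : a μ = 0 := MvPolynomial.coe_injective σ ℂ (by rw [e1]; simp [key])
  rw [ha] at h2
  exact hμ (ind_shg ξ h2)

end

end Pool.Agent.Lib.MP_5591bc_ag.D
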