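import Pool.Agent.Lib.MP_5591bc_ag.D.Kit
import Pool.Agent.Lib.MP_5591bc_ag.V.Sie

/-! The auxiliary polynomials. -/

namespace Pool.Agent.Lib.MP_5591bc_ag.D

open Matrix Finset Filter Topology PowerSeries G R V Function
open W (GK mpK)

noncomputable section

universe v

variable {σ α : Type*}

theorem sie_split {L I : Type*} [Field L] [CharZero L] [Algebra L ℂ] [Fintype I]
    (ω : Module.Basis I ℚ L) (p : MvPolynomial σ L) : ∃ o : I → MvPolynomial σ ℚ, ∀ ξ,
      τA L ξ p = ∑ b, MvPowerSeries.C (algebraMap L ℂ (ω b)) * τA ℚ ξ (o b) := by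
  refine ⟨fun b => ∑ d ∈ p.support, MvPolynomial.monomial d (ω.repr (p.coeff d) b), fun ξ => ?_⟩
  conv_lhs => rw [p.as_sum]
  simp only [map_sum, mul_sum, τA, MvPolynomial.eval₂Hom_monomial, RingHom.comp_apply]
  rw [sum_comm]
  refine sum_congr rfl fun d _ => ?_
  simp only [← mul_assoc, ← map_mul, ← sum_mul, ← map_sum]
  congr 2
  conv_lhs => rw [← ω.sum_repr (p.coeff d), map_sum]
  refine sum_congr rfl fun b _ => ?_
  rw [Rat.smul_def, map_mul, map_ratCast, mul_comm, eq_ratCast]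

/-- coordinates in a basis of the field of coefficients -/
theorem split {L I : Type*} [Field L] [CharZero L] [Algebra L ℂ] [Fintype I]
    (ω : Module.Basis I ℚ L) (q : OtL σ α L) : ∃ o : I → Ot σ α,
      (∀ b, (o b).totalDegree ≤ q.totalDegree) ∧ ∀ ξ F, eA L ξ F q =
        ∑ b, MvPowerSeries.C (algebraMap L ℂ (ω b)) * eA ℚ ξ F (o b) := by
  choose o ho using fun s => sie_split ω (q.coeff s)
  refine ⟨fun b => ∑ s ∈ q.support, MvPolynomial.monomial s (o s b), fun b => ?_, fun ξ F => ?_⟩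
  · exact MvPolynomial.totalDegree_finsetSum_le fun s hs =>
      (MvPolynomial.totalDegree_monomial_le _ _).trans (MvPolynomial.le_totalDegree hs)
  · conv_lhs => rw [q.as_sum]
    simp only [map_sum, mul_sum, eA, MvPolynomial.eval₂Hom_monomial, ho, sum_mul, mul_assoc]
    exact sum_comm

theorem sieD [Fintype σ] [DecidableEq σ] (J : Type*) [Fintype J] [DecidableEq J] {f : α → ℚ⟦X⟧}
    {a : ℕ} (hf : GF a f) (n c : ℕ) (c0 : 0 < c) : ∃ c1, ∀ (I : Type v) [Fintype I]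
      (q : I → J → Ot σ α) (Un : Finset J), (∀ β μ, (q β μ).totalDegree ≤ n) → 0 < Un.card →
      2 * c ^ Fintype.card σ * Fintype.card I ≤ Un.card → ∃ t0, ∀ t ≥ t0, ∀ (w : σ → ℕ) (E : ℕ),
      (∀ i, 0 < w i) → (∀ i, c * E ≤ t * w i) → ∃ P : J → MvPolynomial σ ℚ, P ≠ 0 ∧
        (∀ μ ∉ Un, P μ = 0) ∧ (∀ μ, Bd (fun i => E / w i) (c1 * t) (P μ)) ∧
        ∀ β, Vn w (c * E) (∑ μ, e0 f (q β μ) * P μ) := by
  refine ⟨2 * n * a + (a + 3) * Fintype.card σ + 1, fun I _ q Un h1 h3 h4 => ?_⟩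
  have hf' : GF (2 ^ a) f := hf.mono Nat.lt_two_pow_self.le
  obtain ⟨t0, h⟩ := sie_fin hf' (fun (β : I) (μ : Un) => e0 f (q β μ))
    (fun _ _ => den_e0 f (h1 _ _)) (fun _ _ => sz_e0 hf' _ (fun _ => by
      rw [← div_eq_mul_inv, div_lt_one (by positivity)]
      push_cast
      linarith [pow_pos (two_pos (α := ℝ)) a]) _) (by simpa using h3) c0
    (by simpa [mul_right_comm] using h4)
  refine ⟨t0, fun t ht w E hw hE => ?_⟩
  obtain ⟨P, P0, P1, P2⟩ := h t ht w E hw hE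
  refine ⟨fun μ => if hμ : μ ∈ Un then P ⟨μ, hμ⟩ else 0, fun e => P0 (funext fun μ => ?_),
    fun μ hμ => dif_neg hμ, fun μ => ?_, fun β => ?_⟩
  · simpa using congrFun e μ
  · by_cases hμ : μ ∈ Un
    · simpa [hμ] using P1 ⟨μ, hμ⟩
    · simp only [dif_neg hμ]
      exact ⟨zero_mem _, fun i => by simp, by rw [nr_zero]; positivity⟩
  · rw [← sum_subset (subset_univ Un) fun μ _ hμ => by simp [hμ], ← sum_coe_sort]
    simpa using P2 β

end

end Pool.Agent.Lib.MP_5591bc_ag.D
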