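import Pool.Agent.Lib.MP_5591bc_ag.D.Zero
import Pool.Agent.Lib.MP_5591bc_ag.D.Ind
import Pool.Agent.Lib.MP_5591bc_ag.D.Sie
import Pool.Agent.Lib.MP_5591bc_ag.D.Est
import Pool.Agent.Lib.MP_5591bc_ag.V.Core

/-! Few independent rows kill a tensor product of solutions. -/

namespace Pool.Agent.Lib.MP_5591bc_ag.D

open Matrix Finset Filter Topology PowerSeries G R V Function
open W (GK mpK)

noncomputable section

variable {J α : Type*} [Fintype J] [DecidableEq J]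

theorem coreD {K : Type} [Field K] [NumberField K] [Algebra K ℂ] {T : Polynomial K}
    {B : Matrix J J (Polynomial K)} {Ω : Set ℂ} {G : ℂ → Matrix J J ℂ⟦X⟧} (H : SysD T B Ω G)
    (e : J → ℚ) {f : α → ℚ⟦X⟧} {a : ℕ} (hf : GF a f) (m n D : ℕ) {c : ℕ} (c0 : 0 < c) {θ : ℝ}
    (θ0 : 1 / 2 ≤ θ) (θ1 : θ < 1) (hc : θ ^ c ≤ (1 / 2) ^ ((3 * m + 1) * (D + 1))) :
    ∃ Λ, ∀ (L : Type) [Field L] [NumberField L] [Algebra K L] [Algebra L ℂ] [IsScalarTower K L ℂ],
      Module.finrank ℚ L ≤ D → ∀ (x : Fin m → L) (ξ : Fin m → ℂ) (w : Fin m → ℕ),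
      (∀ i, ξ i = algebraMap L ℂ (x i)) → (∀ i, ξ i ∈ Ω) →
      (∀ i, Λ ≤ w i) → (∀ i j, i < j → Λ * w j ≤ w i) → (∀ i, Hq (ξ i) (w i)) →
      (∀ i, ξ i ≠ 0) → (∀ i, ‖ξ i‖ ≤ θ ^ (2 * w i)) →
      ∀ F : Fin m → α → ℂ⟦X⟧, (∀ i, LimC f (ξ i) (F i)) → ∀ y : Fin m → J → ℂ⟦X⟧,
      (∀ i, y i = G (ξ i) *ᵥ fun j => C (e j : ℂ)) → ∀ M : Fin m → Finset J,
      (∀ i, 0 < (M i).card) → (∀ i, ∀ l : J → Polynomial ℂ, (∀ μ ∉ M i, l μ = 0) →
        (fun μ => τc (ξ i) (l μ)) ⬝ᵥ y i = 0 → l = 0) →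
      ∀ (r : ℕ) (v : Fin r → (Fin m → J) → OtL (Fin m) α L) (I : Fin r → Fin m → J),
      (∀ l μ, (v l μ).totalDegree ≤ n) →
      (∀ l, tvC y ⬝ᵥ (fun μ => eA L ξ F (v l μ)) = 0) →
      MvPowerSeries.constantCoeff (eA L ξ F (mnr v I)) ≠ 0 →
      ∏ i, (M i).card < 2 * c ^ m * D * (Fintype.card (Fin m → J) - r) := by
  classical
  set N := Fintype.card (Fin m → J) with hN
  obtain ⟨e0, he0⟩ := H.ar D
  obtain ⟨E, hE⟩ : ∃ E, E = e0 + 2 := ⟨_, rfl⟩
  obtain ⟨c1, hS⟩ := (sieD (σ := Fin m) (Fin m → J) hf ((N + 1) * n) c c0).imp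
    fun _ h (s : Finset (Fin m → J)) (d : ℕ) => h (s × Fin d)
  obtain ⟨Λz, hZ⟩ := zero_vD H.zero B m (4 * E + 2) c1 c c0
  obtain ⟨Λ2, hΛ2⟩ : ∃ Λ2, Λ2 = Λz + c1 + 1 := ⟨_, rfl⟩
  obtain ⟨Λs, hΛs⟩ := exists_pow_lt_of_lt_one (show (0 : ℝ) < (4 * 2 ^ a)⁻¹ by positivity) θ1
  refine ⟨Λz + c * ((4 * E + 2) * Λ2) + Λs + c + 1, ?_⟩
  intro L _ _ _ _ _ hL x ξ w hx hΩ hΛ hw hq ξ0 hξ F hF y hy M M0 hM r v I hv hk h0
  obtain rfl : ξ = fun i => algebraMap L ℂ (x i) := funext hx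
  have w0 : ∀ i, 0 < w i := fun i => by have := hΛ i; omega
  have hI : Injective I := mnr_inj (v := v) fun h => h0 (by rw [h, map_zero, map_zero])
  have hr : r ≤ N := (Fintype.card_fin r).ge.trans (Fintype.card_le_of_injective I hI)
  choose G0 g1 g2 using fun i => he0 L hL (x i) (hΩ i) (w i) (hq i)
  obtain ⟨y0, hy0⟩ : ∃ y0 : Fin m → J → L⟦X⟧,
    y0 = fun i j => ∑ k, C (e k : L) * G0 i j k := ⟨_, rfl⟩
  have ey : y = fun i j => mpK L (y0 i j) := by
    funext i j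
    simp only [hy, g1, hy0, mulVec, dotProduct, map_apply, map_sum, map_mul, map_C, map_ratCast]
    exact sum_congr rfl fun _ _ => mul_comm _ _
  choose o o1 o2 using fun β μ => split (Module.finBasis ℚ L) (lam v I β μ)
  by_contra hn
  obtain ⟨t1, h1⟩ := hS (univ \ univ.image I) (Module.finrank ℚ L) (fun p μ => o p.1 μ p.2)
    (Fintype.piFinset M)
    (fun β μ => (o1 _ _ _).trans ((core_det (n := n) fun l k => by
      refine Fin.cases ?_ (fun l => hv l _) l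
      simp only [of_apply, Fin.cons_zero, Pi.single_apply]
      split_ifs <;> simp).trans (Nat.mul_le_mul_right _ (by omega))))
    (by rw [Fintype.card_piFinset]; exact prod_pos fun i _ => M0 i)
    (by
      rw [Fintype.card_piFinset, Fintype.card_prod, Fintype.card_coe,
        card_sdiff_of_subset (subset_univ _), card_image_of_injective _ hI]
      simp only [card_univ, Fintype.card_fin]
      refine le_trans ?_ (not_lt.1 hn)
      rw [mul_comm (_ - r), ← mul_assoc]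
      gcongr)
  obtain ⟨t2, h2⟩ := hZ _ w (fun i => by have := hΛ i; omega)
    (fun i j h => (Nat.mul_le_mul_right _ (by omega)).trans (hw i j h))
    (fun i => ⟨ξ0 i, by
      have k1 : θ ^ c ≤ 1 / 2 := hc.trans (pow_le_of_le_one (by norm_num) (by norm_num) (by positivity))
      have k2 : (2 : ℝ) ^ c ≤ 2 ^ w i := pow_le_pow_right₀ one_le_two (by have := hΛ i; omega)
      calc _ ≤ (2 * θ ^ (2 * w i)) ^ c * 2 ^ w i := by gcongr; exact hξ i
        _ = 2 ^ c * (θ ^ c) ^ (2 * w i) * 2 ^ w i := by ring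
        _ ≤ 2 ^ w i * (1 / 2) ^ (2 * w i) * 2 ^ w i := by
          have : 0 ≤ θ := by linarith
          gcongr
        _ = 1 := by rw [two_mul, pow_add, one_div, inv_pow]; field_simp⟩) y fun i => by
      rw [hy i, mulVec_mulVec, ← H.ode _ (hΩ i), smul_mulVec]
      congr 1
      funext j
      simp [mulVec, dotProduct, mul_comm]
  obtain ⟨t3, h3⟩ := est_vD (hf.mono Nat.lt_two_pow_self.le) hL hq hF (y := y0) (e := E) (by omega)
    (fun i => hy0 ▸ ((g2 i).lin (I := fun _ => J) (fun _ => univ) (fun _ k => (e k : L))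
      fun j k => (j, k)).mono (Nat.pow_le_pow_right two_pos (Nat.mul_le_mul_right _ (by omega))))
    (I := (univ \ univ.image I : Finset _) × Fin (Module.finrank ℚ L))
    (ω := fun p => algebraMap L ℂ (Module.finBasis ℚ L p.2)) (j := fun p => p.1)
    (q := fun p μ => o p.1 μ p.2) h0 (fun μ => by
      have := lam_sum (v := fun l j => eA L (fun i => algebraMap L ℂ (x i)) F (v l j)) I hk μ
      simp only [← map_lam, ← map_mnr] at this
      rw [← ey, ← this, Fintype.sum_prod_type, ← sum_subset (subset_univ (univ \ univ.image I))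
        fun β _ hβ => ?_, ← sum_coe_sort (univ \ univ.image I)]
      · refine sum_congr rfl fun β _ => ?_
        rw [o2, mul_sum]
        exact sum_congr rfl fun b _ => by ring
      · obtain ⟨k, -, rfl⟩ := mem_image.1 (not_not.1 fun h => hβ (mem_sdiff.2 ⟨mem_univ _, h⟩))
        rw [core_lam, map_zero, mul_zero]) θ0 θ1.le (by simpa using hc) hξ fun i => by
      have := (pow_le_pow_of_le_one (by linarith) θ1.le (show Λs ≤ w i by
        have := hΛ i; omega)).trans hΛs.le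
      rwa [← le_div_iff₀' (by positivity), one_div]
  obtain ⟨t, ht⟩ : ∃ t, t = t1 + t2 + t3 := ⟨_, rfl⟩
  have tu : t ≤ Λ2 * t := Nat.le_mul_of_pos_left _ (by omega)
  have hD : ∀ i, c * ((4 * E + 2) * (Λ2 * t)) ≤ t * w i := fun i => by
    have : c * ((4 * E + 2) * Λ2) ≤ w i := by have := hΛ i; omega
    nlinarith
  obtain ⟨P, P0, P1, P2, P3⟩ := h1 t (by omega) w _ w0 hD
  have a1 := h3 (Λ2 * t) (by omega) P
    (fun μ => (P2 μ).mono (fun _ => le_rfl) (Nat.mul_le_mul_right _ (by omega))) P3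
  rw [← ey] at a1
  exact P0 (ind_tensC hM (fun μ h => Fintype.mem_piFinset.1 (by_contra fun h' => h (P1 μ h')))
    (h2 t (by omega) _ (Nat.mul_le_mul_right _ (by omega)) P P2 a1))

end

end Pool.Agent.Lib.MP_5591bc_ag.D
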