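import Pool.Agent.Lib.MP_5591bc_ag.RNum
import Pool.Agent.Lib.MP_5591bc_ag.SForm

/-! Restriction of scalars at a simple pole with nilpotent residue. -/

namespace Pool.Agent.Lib.MP_5591bc_ag.D

open Matrix Finset Polynomial NumberField R

noncomputable section

variable {ν : Type*} [Fintype ν] [DecidableEq ν] {K : Type*} [Field K] [NumberField K]

theorem cuspA_gal {T u : K[X]} {B : Matrix ν ν K[X]} (h : GalK T B) {N : ℚ[X]}
    (hN : N.map (algebraMap ℚ K) = T * u) : GalK N (ρM (u • B)) := by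
  classical
  have : Algebra.IsAlgebraic ℤ K := (IsFractionRing.comap_isAlgebraic_iff (K := ℚ)).2 inferInstance
  obtain ⟨c, hc⟩ := h
  let O : Subring K[X] := (mapRingHom (algebraMap (𝓞 K) K)).range
  have hO : ∀ p : K[X], p ∈ O ↔ ∀ l, IsIntegral ℤ (p.coeff l) := fun p =>
    (lifts_iff_coeff_lifts p).trans (forall_congr' fun l =>
      ⟨fun ⟨x, hx⟩ => hx ▸ x.isIntegral_coe, fun h => ⟨⟨_, h⟩, rfl⟩⟩)
  obtain ⟨y, y0, hy⟩ := Algebra.IsAlgebraic.exists_integral_multiples ℤ u.coeffs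
  obtain ⟨q, q0, hq⟩ : ∃ q : ℕ, 0 < q ∧ ∀ z ∈ u.coeffs, IsIntegral ℤ ((q : K) * z) :=
    ⟨y.natAbs, Int.natAbs_pos.2 y0, fun z hz => by
      have := hy z hz
      rw [zsmul_eq_mul] at this
      rw [Nat.cast_natAbs]
      rcases abs_choice y with e | e <;> rw [e]
      exacts [this, by simpa using this.neg]⟩
  have q1 : (q : K[X]) * u ∈ O := (hO _).2 fun l => by
    rw [← C_eq_natCast, coeff_C_mul]
    by_cases e : u.coeff l = 0
    · simpa [e] using isIntegral_zero
    · exact hq _ (coeff_mem_coeffs e)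
  refine ⟨|c| * q, fun m => ?_⟩
  obtain ⟨d, d0, d1, d2⟩ := hc m
  refine ⟨d * q ^ m, by positivity, ?_, fun k hk x y l => ?_⟩
  · rw [mul_pow, Nat.cast_mul, Nat.cast_pow, ← abs_pow]
    exact mul_le_mul (d1.trans (le_abs_self _)) (pow_le_pow_right₀
      (by exact_mod_cast q0) m.le_succ) (by positivity) (abs_nonneg _)
  have a1 : C ((d : K) / k.factorial) * iterK T B k x.1 y.1 ∈ O := (hO _).2 fun l => by
    rw [coeff_C_mul, div_mul_eq_mul_div]; exact d2 k hk _ _ l
  have a2 := (hO _).1 (mul_mem (mul_mem (pow_mem (natCast_mem O q) (m - k)) (pow_mem q1 k)) a1) l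
  have a3 : (q : K[X]) ^ (m - k) * (q * u) ^ k *
      (C ((d : K) / k.factorial) * iterK T B k x.1 y.1) =
      C (algebraMap ℚ K (((d * q ^ m : ℕ) : ℚ) / k.factorial)) *
        (u ^ k * iterK T B k x.1 y.1) := by
    obtain ⟨j, rfl⟩ := Nat.exists_eq_add_of_le hk
    rw [add_tsub_cancel_left, map_div₀ (algebraMap ℚ K), map_natCast,
      map_natCast, Nat.cast_mul, mul_div_right_comm, C_mul, C_eq_natCast]
    push_cast
    ring
  rw [a3, coeff_C_mul, ← Algebra.smul_def] at a2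
  have a4 := integralBasis_repr_apply K
    (@HMul.hMul (𝓞 K) (𝓞 K) (𝓞 K) _ ⟨_, a2⟩ (RingOfIntegers.basis K y.2)) x.2
  rw [map_mul, ← integralBasis_apply, RingOfIntegers.map_mk, smul_mul_assoc, map_smul,
    Finsupp.smul_apply, smul_eq_mul] at a4
  rw [iterK_ρ, hN, iterK_scale, ρM_apply, coeff_ρX, ← div_mul_eq_mul_div]
  exact a4 ▸ isIntegral_algebraMap

/-- a generalised inverse -/
theorem cuspA_inv {F : Type*} [Field F] (M : Matrix ν ν F) : ∃ G : Matrix ν ν F, M * G * M = M := by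
  obtain ⟨g, hg⟩ := (toLin' M).rangeRestrict.exists_rightInverse_of_surjective
    (LinearMap.range_rangeRestrict _)
  obtain ⟨p, hp⟩ := (LinearMap.range (toLin' M)).subtype.exists_leftInverse_of_injective
    (Submodule.ker_subtype _)
  refine ⟨LinearMap.toMatrix' (g ∘ₗ p), toLin'.injective (LinearMap.ext fun v => ?_)⟩
  have h1 := LinearMap.congr_fun hp ⟨toLin' M v, v, rfl⟩
  have h2 := congrArg Subtype.val (LinearMap.congr_fun hg ⟨toLin' M v, v, rfl⟩)
  simp only [LinearMap.comp_apply, Submodule.subtype_apply, LinearMap.id_apply] at h1 h2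
  simp only [toLin'_mul, toLin'_toMatrix', LinearMap.comp_apply, h1]
  exact h2

/-- the value at the origin of the restricted system -/
theorem cuspA_res {M : Matrix ν ν K[X]} (h : IsNilpotent (M.map (eval 0))) :
    IsNilpotent ((ρM M).map (·.coeff 0)) := by
  obtain ⟨k, hk⟩ := h
  refine ⟨k, ?_⟩
  have e : ∀ W : Matrix (ν × Ix K) (ν × Ix K) ℚ[X], W.map (·.coeff 0) = constantCoeff.mapMatrix W :=
    fun _ => rfl
  have e2 : (M ^ k).map (eval 0) = 0 := by
    rw [← hk, ← coe_evalRingHom, ← RingHom.mapMatrix_apply, map_pow, RingHom.mapMatrix_apply]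
  rw [e, ← map_pow, ← map_pow]
  ext x y
  have := congrFun₂ e2 x.1 y.1
  rw [map_apply, ← coeff_zero_eq_eval_zero, Matrix.zero_apply] at this
  change (ρM (M ^ k) x y).coeff 0 = 0
  rw [ρM_apply, coeff_ρX, this, zero_mul, map_zero, Finsupp.zero_apply]

end

end Pool.Agent.Lib.MP_5591bc_ag.D
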