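import Pool.Agent.Lib.MP_5591bc_ag.D.Defs
import Pool.Agent.Lib.MP_5591bc_ag.W.Fld
import Pool.Agent.Lib.MP_5591bc_ag.V.Orb

/-! Basic properties of the expansions. -/

namespace Pool.Agent.Lib.MP_5591bc_ag.D

open Matrix Finset Filter Topology PowerSeries G R V Function
open W (GK mpK)

noncomputable section

variable {σ α : Type*} {L : Type*} [Field L] [Algebra L ℂ]

theorem τK_C (x : ℂ) (a : L) : τK x (Polynomial.C a) = C (algebraMap L ℂ a) := by
  rw [τK, RingHom.comp_apply, Polynomial.coe_mapRingHom, Polynomial.map_C, τc_C]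

theorem τK_const (x : ℂ) (p : Polynomial L) : constantCoeff (τK x p) = Polynomial.aeval x p := by
  rw [τK, RingHom.comp_apply, Polynomial.coe_mapRingHom, τc_const, Polynomial.eval_map_algebraMap]

theorem τK_deriv (x : ℂ) (p : Polynomial L) : τK x p.derivative = d⁄dX ℂ (τK x p) := by
  rw [τK, RingHom.comp_apply, RingHom.comp_apply, Polynomial.coe_mapRingHom, ← τc_deriv,
    Polynomial.derivative_map]

theorem tay_τK (x : ℂ) (p : Polynomial L) : tay (fun t => Polynomial.aeval t p) x = τK x p := by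
  rw [τK, RingHom.comp_apply, Polynomial.coe_mapRingHom, ← tay_eval]
  simp only [Polynomial.eval_map_algebraMap]

theorem τK_self (x : ℂ) (p : Polynomial ℂ) : τK x p = τc x p := by
  rw [τK, RingHom.comp_apply, Polynomial.coe_mapRingHom, Algebra.algebraMap_self,
    Polynomial.map_id]

/-- at a point of `L` the expansion has coefficients in `L` -/
theorem τK_taylor (x : L) (p : Polynomial L) :
    τK (algebraMap L ℂ x) p = mpK L (Polynomial.taylor x p : L⟦X⟧) := by
  ext n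
  rw [coeff_map, Polynomial.coeff_coe, ← Polynomial.coeff_map, Polynomial.map_taylor]
  exact Polynomial.coeff_coe _ _

theorem τA_rat (ξ : σ → ℂ) (p : MvPolynomial σ ℚ) : τA ℚ ξ p = τg ξ p := by
  refine DFunLike.congr_fun (?_ : τA ℚ ξ = τg ξ) p
  refine MvPolynomial.ringHom_ext (fun a => ?_) fun i => ?_
  · rw [τg_eq, shg_C, MvPolynomial.coe_C, τA, MvPolynomial.eval₂Hom_C]
    rfl
  · rw [τg_eq, shg_X, MvPolynomial.coe_add, MvPolynomial.coe_C, MvPolynomial.coe_X, τA,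
      MvPolynomial.eval₂Hom_X']

theorem τA_C (ξ : σ → ℂ) (a : L) :
    τA L ξ (MvPolynomial.C a) = MvPowerSeries.C (algebraMap L ℂ a) := by
  rw [τA, MvPolynomial.eval₂Hom_C]
  rfl

theorem τA_aeval (ξ : σ → ℂ) (i : σ) (p : Polynomial L) :
    τA L ξ (Polynomial.aeval (MvPolynomial.X i : MvPolynomial σ L) p) = embC i (τK (ξ i) p) := by
  have hX : τK (ξ i) (Polynomial.X : Polynomial L) = X + C (ξ i) := by
    simp [τK, τc, Polynomial.taylor_X]
  induction p using Polynomial.induction_on with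
  | C a =>
    rw [Polynomial.aeval_C, MvPolynomial.algebraMap_eq, τA_C, τK_C]
    exact (MvPowerSeries.rename_C _ _).symm
  | add p q hp hq => simp only [map_add, hp, hq]
  | monomial n a h =>
    rw [pow_succ, ← mul_assoc, map_mul, map_mul, h, map_mul (τK (ξ i)) _ Polynomial.X,
      map_mul (embC i), hX, Polynomial.aeval_X, τA, MvPolynomial.eval₂Hom_X', map_add]
    congr 2
    · exact (MvPowerSeries.rename_X (R := ℂ) (fun _ : Unit => i) ()).symm
    · exact (MvPowerSeries.rename_C _ _).symm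

theorem τg_toMv (ξ : σ → ℂ) (i : σ) (p : Polynomial ℚ) :
    τg ξ (toMv i p) = embC i (τK (ξ i) p) := by
  rw [← τA_rat]
  exact τA_aeval ξ i p

theorem coeff_embC (i : σ) (g : ℂ⟦X⟧) (k : ℕ) :
    MvPowerSeries.coeff (Finsupp.single i k) (embC i g) = coeff k g := by
  have := MvPowerSeries.coeff_embDomain_rename (⟨fun _ : Unit => i, fun _ _ _ => rfl⟩ : Unit ↪ σ) g
    (Finsupp.single () k)
  rw [Finsupp.embDomain_single] at this
  exact this

theorem coeff_embC_ne {i : σ} {g : ℂ⟦X⟧} {d : σ →₀ ℕ}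
    (h : MvPowerSeries.coeff d (embC i g) ≠ 0) : d = Finsupp.single i (d i) := by
  by_contra e
  refine h (MvPowerSeries.coeff_rename_eq_zero _ _ fun ⟨x, hx⟩ => e ?_)
  rw [← hx, Finsupp.unique_single x, Finsupp.mapDomain_single, Finsupp.single_eq_same]

theorem embC_C (i : σ) (a : ℂ) : embC i (C a) = MvPowerSeries.C a := by
  exact MvPowerSeries.rename_C _ _

theorem embC_const (i : σ) (s : ℂ⟦X⟧) :
    MvPowerSeries.constantCoeff (embC i s) = constantCoeff s := by
  have := coeff_embC i s 0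
  rwa [Finsupp.single_zero, MvPowerSeries.coeff_zero_eq_constantCoeff_apply,
    coeff_zero_eq_constantCoeff_apply] at this

theorem coeff_prod_embC [Fintype σ] [DecidableEq σ] (g : σ → ℂ⟦X⟧) (d : σ →₀ ℕ) :
    MvPowerSeries.coeff d (∏ i, embC i (g i)) = ∏ i, coeff (d i) (g i) := by
  rw [MvPowerSeries.coeff_prod, sum_eq_single_of_mem
    (Finsupp.equivFunOnFinite.symm fun i => Finsupp.single i (d i))]
  · simp [coeff_embC]
  · simp [Finsupp.univ_sum_single]
  · intro l hl h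
    by_contra h0
    have h1 := fun i => coeff_embC_ne (prod_ne_zero_iff.1 h0 i (mem_univ i))
    refine h (Finsupp.ext fun i => ?_)
    rw [← (mem_finsuppAntidiag.1 hl).1, Finsupp.coe_equivFunOnFinite_symm, Finsupp.finsetSum_apply,
      sum_eq_single i (fun j _ hj => by rw [h1 j, Finsupp.single_eq_of_ne hj.symm]) (by simp)]
    exact h1 i

theorem pderiv_prod_embC [Fintype σ] [DecidableEq σ] (g : σ → ℂ⟦X⟧) (i : σ) :
    MvPowerSeries.pderiv ℂ i (∏ j, embC j (g j)) =
      ∏ j, embC j (update g i (d⁄dX ℂ (g i)) j) := by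
  ext d
  rw [MvPowerSeries.coeff_pderiv, coeff_prod_embC, coeff_prod_embC,
    ← prod_erase_mul _ _ (mem_univ i), ← prod_erase_mul _ _ (mem_univ i), update_self,
    coeff_derivative, mul_assoc]
  congr 1
  · exact prod_congr rfl fun j hj => by simp [ne_of_mem_erase hj]
  · simp

theorem Hq.mono {x : ℂ} {w w' : ℕ} (h : Hq x w) (hw : w ≤ w') : Hq x w' := by
  obtain ⟨q, q0, h1, h2⟩ := h
  exact ⟨q, q0, h1, fun i => (h2 i).trans_le (pow_le_pow_right₀ one_le_two hw)⟩

/-- denominator and conjugates -/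
theorem Hq.dn [CharZero L] {x : L} {w : ℕ} (h : Hq (algebraMap L ℂ x) w) : 0 < w ∧ ∃ a : ℕ,
    0 < a ∧ a ≤ 2 ^ w ∧ IsIntegral ℤ ((a : L) * x) ∧ ∀ φ : L →+* ℂ, ‖φ x‖ ≤ 2 ^ w := by
  obtain ⟨q, q0, h1, h2⟩ := h
  have hx : Polynomial.aeval x q = 0 := (algebraMap L ℂ).injective (by
    rw [map_zero, ← h1]
    exact (Polynomial.aeval_algHom_apply (algebraMap L ℂ).toIntAlgHom x q).symm)
  have h3 : ∀ i, |(q.coeff i : ℝ)| ≤ 2 ^ w - 1 := fun i => by
    have : |q.coeff i| ≤ 2 ^ w - 1 := Int.le_sub_one_of_lt (h2 i)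
    exact_mod_cast this
  obtain ⟨d, d0, d1, d2, d3⟩ := W.ht_alg q0 h3 hx
  refine ⟨Nat.pos_of_ne_zero fun e => ?_, d, d0, ?_, d2, fun φ => (d3 φ).trans_eq (by ring)⟩
  · have : (1 : ℝ) ≤ d := by exact_mod_cast d0
    rw [e] at d1
    norm_num at d1
    linarith
  · have : (d : ℝ) ≤ 2 ^ w := d1.trans (by linarith)
    exact_mod_cast this

variable {A : Type*} [Fintype A] [DecidableEq A] {K : Type} [Field K] [Algebra K ℂ]
  {T : Polynomial K} {B : Matrix A A (Polynomial K)} {Ω : Set ℂ} {G : ℂ → Matrix A A ℂ⟦X⟧}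

theorem SysD.odeC (H : SysD T B Ω G) {x : ℂ} (hx : x ∈ Ω) :
    (T.map (algebraMap K ℂ)).eval x ≠ 0 ∧ τc x (T.map (algebraMap K ℂ)) • (G x).map (d⁄dX ℂ) =
      (B.map (Polynomial.map (algebraMap K ℂ))).map (τc x) * G x := by
  refine ⟨by rw [Polynomial.eval_map_algebraMap]; exact H.ne x hx, ?_⟩
  rw [Matrix.map_map]
  exact H.ode x hx

theorem SysD.mono (H : SysD T B Ω G) {Ω' : Set ℂ} (h : Ω' ⊆ Ω) : SysD T B Ω' G := by
  exact ⟨H.zero, fun x hx => H.ne x (h hx), fun x hx => H.one x (h hx),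
    fun x hx => H.ode x (h hx), fun D => (H.ar D).imp fun e he L _ _ _ _ _ hL x hx =>
      he L hL x (h hx)⟩

theorem TwoD.orb [Fintype α] {f : α → ℚ⟦X⟧} {F : ℂ → α → ℂ⟦X⟧} {E : A → α → K} {φ : ℂ → A → ℂ}
    (H : TwoD T B Ω G f F E φ) {x : ℂ} (hx : x ∈ Ω) : ∃ Γ, Orb x (G x) Γ := by
  exact exists_orb (H.sys.odeC hx).1 (H.sys.one x hx) (H.sys.odeC hx).2 (H.conn x hx)

end

end Pool.Agent.Lib.MP_5591bc_ag.D
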