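import Pool.Agent.Lib.MP_5591bc_ag.D.CuspA
import Pool.Agent.Lib.MP_5591bc_ag.D.Kit

/-! Power series solutions at a simple pole with nilpotent residue. -/

namespace Pool.Agent.Lib.MP_5591bc_ag.D

open Matrix Finset Filter Topology PowerSeries G R V Function NumberField

noncomputable section

variable {ν : Type} [Fintype ν] [DecidableEq ν]

theorem cuspB_uniq {t : ℂ⟦X⟧} (ht : constantCoeff t ≠ 0) {B D : Matrix ν ν ℂ⟦X⟧}
    (hN : IsNilpotent (B.map constantCoeff)) (h : (X * t) • D.map (d⁄dX ℂ) = B * D)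
    (h0 : D.map constantCoeff = 0) : D = 0 := by
  have key : ∀ k : ℕ, ∀ i j, (X : ℂ⟦X⟧) ^ (k + 1) ∣ D i j := fun k => by
    induction k with
    | zero => exact fun i j => by rw [zero_add, pow_one, X_dvd_iff]; exact congrFun₂ h0 i j
    | succ k ih =>
      choose E hE using ih
      have h1 : t • (((k + 1 : ℕ) : ℂ⟦X⟧) • of E + (X : ℂ⟦X⟧) • (of E).map (d⁄dX ℂ)) = B * of E := by
        ext1 i j
        refine mul_left_cancel₀ (pow_ne_zero (k + 1) X_ne_zero) ?_
        have := congrFun₂ h i j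
        simp only [Matrix.smul_apply, map_apply, mul_apply, hE, smul_eq_mul, Derivation.leibniz,
          Derivation.leibniz_pow, derivative_X, add_tsub_cancel_right, nsmul_eq_mul, mul_one] at this
        simp only [Matrix.smul_apply, Matrix.add_apply, map_apply, mul_apply, of_apply, smul_eq_mul,
          mul_sum]
        refine Eq.trans (by ring) (this.trans (sum_congr rfl fun _ _ => by ring))
      have h2 : ((constantCoeff t * (k + 1 : ℕ)) • 1 - B.map constantCoeff) *
          (of E).map constantCoeff = 0 := by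
        rw [Matrix.sub_mul, ← Matrix.map_mul, ← h1, smul_mul_assoc, Matrix.one_mul, sub_eq_zero]
        ext i j
        simp [mul_assoc]
      have h3 : IsUnit ((constantCoeff t * (k + 1 : ℕ)) • (1 : Matrix ν ν ℂ) -
          B.map constantCoeff) := by
        rw [sub_eq_add_neg]
        refine IsNilpotent.isUnit_add_left_of_commute hN.neg ?_ ((Commute.one_right _).smul_right _)
        rw [← Algebra.algebraMap_eq_smul_one]
        exact (mul_ne_zero ht (Nat.cast_ne_zero.2 k.succ_ne_zero)).isUnit.map _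
      intro i j
      rw [hE, pow_succ _ (k + 1)]
      exact mul_dvd_mul_left _ (X_dvd_iff.2 (congrFun₂ (h3.mul_right_eq_zero.1 h2) i j))
  ext i j k
  exact X_pow_dvd_iff.1 (key k i j) k k.lt_succ_self

variable {K : Type} [Field K] [NumberField K] [Algebra K ℂ]

theorem cuspB_tau (q : Polynomial ℚ) : mp (τ1 0 q) = τK 0 (q.map (algebraMap ℚ K)) := by
  rw [← tay_τK, mp_τ1, Rat.cast_zero, ← tay_aeval]
  simp only [Polynomial.aeval_map_algebraMap]

theorem cusp_form {T : Polynomial K} {B : Matrix ν ν (Polynomial K)}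
    (h : GalK (Polynomial.X * T) B) (hT : T.eval 0 ≠ 0)
    (hN : IsNilpotent (B.map (Polynomial.eval 0))) :
    ∃ (Y : Matrix (ν × Ix K) (ν × Ix K) ℚ⟦X⟧) (a : ℕ) (E : Matrix ν (ν × Ix K) K)
      (V : Matrix (ν × Ix K) ν K), GF a (fun p : (ν × Ix K) × ν × Ix K => Y p.1 p.2) ∧
      ∀ Ψ : Matrix ν ν ℂ⟦X⟧, Ψ = (E.map (algebraMap K ℂ)).map C * Y.map mp *
        (V.map (algebraMap K ℂ)).map C →
        τK 0 (Polynomial.X * T) • Ψ.map (d⁄dX ℂ) = B.map (τK 0) * Ψ ∧
        ∀ Z : Matrix ν ν ℂ⟦X⟧, τK 0 (Polynomial.X * T) • Z.map (d⁄dX ℂ) = B.map (τK 0) * Z →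
          Z = Ψ * (Z.map constantCoeff).map C := by
  classical
  obtain ⟨N, u, N0, hu⟩ := exists_norm hT
  rw [← Polynomial.coeff_zero_eq_eval_zero] at N0
  have g1 : GalK (Polynomial.X * N) (ρM (u • B)) :=
    cuspA_gal h (by rw [Polynomial.map_mul, Polynomial.map_X, hu, mul_assoc])
  have e0 : (u • B).map (Polynomial.eval 0) = u.eval 0 • B.map (Polynomial.eval 0) := by
    ext; simp
  obtain ⟨M, hM⟩ : ∃ M, M = (N.coeff 0)⁻¹ • (ρM (u • B)).map (·.coeff 0) := ⟨_, rfl⟩
  have m1 : IsNilpotent M := hM ▸ (cuspA_res (e0 ▸ hN.smul _)).smul _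
  obtain ⟨Y, a, Y0, hY, ha⟩ := exists_formal (B := ρM (u • B)) N0 (by rw [hM, smul_inv_smul₀ N0]) m1
  obtain ⟨a', ha'⟩ := formal_gf N0 m1 g1 Y0 hY ha
  obtain ⟨G, hG⟩ := cuspA_inv (B.map (Polynomial.eval 0))
  obtain ⟨P, hP⟩ : ∃ P, P = 1 - G * B.map (Polynomial.eval 0) := ⟨_, rfl⟩
  have p1 : B.map (Polynomial.eval 0) * P = 0 := by
    rw [hP, Matrix.mul_sub, ← Matrix.mul_assoc, hG, Matrix.mul_one, sub_self]
  obtain ⟨V, hV⟩ : ∃ V : Matrix (ν × Ix K) ν ℚ, V = of fun x j =>
    (integralBasis K).repr (P x.1 j) x.2 := ⟨_, rfl⟩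
  obtain ⟨E, hE⟩ : ∃ E : Matrix ν (ν × Ix K) K, E = of fun i x =>
    if i = x.1 then integralBasis K x.2 else 0 := ⟨_, rfl⟩
  have v1 : E * V.map (algebraMap ℚ K) = P := by
    ext i j
    have := (integralBasis K).sum_repr (P i j)
    simpa [hE, hV, mul_apply, Fintype.sum_prod_type, Algebra.smul_def, mul_comm] using this
  have v2 : M * V = 0 := by
    rw [hM, Matrix.smul_mul]
    refine smul_eq_zero_of_right _ (Matrix.ext fun x j => ?_)
    have := congrArg (fun z => (integralBasis K).repr (u.eval 0 * z) x.2) (congrFun₂ p1 x.1 j)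
    simp only [mul_apply, map_apply, Matrix.zero_apply, mul_zero, map_zero, Finsupp.zero_apply,
      mul_sum, map_sum, Finsupp.finsetSum_apply] at this
    rw [Matrix.zero_apply, ← this, mul_apply, Fintype.sum_prod_type]
    refine sum_congr rfl fun k _ => ?_
    conv_rhs => rw [← (integralBasis K).sum_repr (P k j)]
    simp only [map_apply, ρM_apply, coeff_ρX, hV, of_apply, mul_sum, map_sum,
      Finsupp.finsetSum_apply, mul_smul_comm, map_smul, Finsupp.smul_apply, smul_eq_mul,
      Matrix.smul_apply]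
    simp only [Polynomial.coeff_zero_eq_eval_zero, Polynomial.eval_mul, mul_assoc]
    exact sum_congr rfl fun _ _ => mul_comm _ _
  have v3 : (E.map (algebraMap K ℂ)).map C * ((ρM (u • B)).map (τ1 0)).map mp =
      τK 0 u • (B.map (τK 0) * (E.map (algebraMap K ℂ)).map C) := by
    ext1 i y
    have a1 : ∑ a, Polynomial.C (integralBasis K a) *
        (ρX (u * B i y.1) a y.2).map (algebraMap ℚ K) =
        u * B i y.1 * Polynomial.C (integralBasis K y.2) := by
      ext k
      have := (integralBasis K).sum_repr ((u * B i y.1).coeff k * integralBasis K y.2)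
      simp only [Polynomial.finsetSum_coeff, Polynomial.coeff_C_mul, Polynomial.coeff_map, coeff_ρX,
        Polynomial.coeff_mul_C]
      simpa only [Algebra.smul_def, mul_comm] using this
    have a2 := congrArg (τK (K := K) 0) a1
    simp only [map_sum, map_mul, τK_C, ← cuspB_tau] at a2
    simpa [hE, mul_apply, Fintype.sum_prod_type, apply_ite (algebraMap K ℂ), apply_ite C, ρM_apply,
      mul_assoc] using a2
  have u0 : τK (K := K) 0 u ≠ 0 := fun e => N0 (by
    have := congrArg constantCoeff (cuspB_tau (K := K) N)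
    rw [hu, map_mul, e, mul_zero, map_zero, τ1_zero, ← coeff_zero_eq_constantCoeff_apply,
      coeff_map, Polynomial.coeff_coe] at this
    simpa using this)
  have t0 : τK (K := K) 0 Polynomial.X = X := by simp [τK, τc]
  refine ⟨Y, a', E, V.map (algebraMap ℚ K), ha', fun Ψ hΨ => ?_⟩
  have ode : τK 0 (Polynomial.X * T) • Ψ.map (d⁄dX ℂ) = B.map (τK 0) * Ψ := by
    have a1 := congrArg (fun W => (E.map (algebraMap K ℂ)).map C * (W * V.map C).map mp) hY
    have a2 : (V.map C).map mp = ((V.map (algebraMap ℚ K)).map (algebraMap K ℂ)).map C := by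
      ext1; simp
    have a3 : (Y.map ((X : ℚ⟦X⟧) • d⁄dX ℚ)).map mp = (X : ℂ⟦X⟧) • (Y.map mp).map (d⁄dX ℂ) := by
      ext1; simp [mp_deriv]
    have a4 : Ψ.map (d⁄dX ℂ) = (E.map (algebraMap K ℂ)).map C * (Y.map mp).map (d⁄dX ℂ) *
        ((V.map (algebraMap ℚ K)).map (algebraMap K ℂ)).map C := by
      ext1
      simp only [hΨ, map_apply, mul_apply, map_sum, Derivation.leibniz, derivative_C, smul_zero,
        zero_add, add_zero]
      simp only [smul_eq_mul, mul_comm]
    simp only [Th, LinearMap.coe_mk, AddHom.coe_mk, Matrix.smul_mul, Matrix.add_mul,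
      Matrix.mul_assoc Y, ← Matrix.map_mul, v2, Matrix.map_zero _ (map_zero _), Matrix.mul_zero,
      add_zero] at a1
    have a5 : ∀ (c : ℚ⟦X⟧) (W : Matrix (ν × Ix K) ν ℚ⟦X⟧), (c • W).map mp = mp c • W.map mp :=
      fun c W => by ext1; simp
    rw [a5, Matrix.map_mul, Matrix.map_mul, Matrix.map_mul, a2, a3,
      cuspB_tau (K := K), hu, ← Matrix.mul_assoc, ← Matrix.mul_assoc, v3] at a1
    refine smul_right_injective _ u0 ?_
    simp only [Matrix.smul_mul, Matrix.mul_smul, smul_smul, map_mul] at a1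
    simp only [a4, smul_smul, map_mul, t0]
    rw [hΨ]
    simp only [Matrix.mul_assoc] at a1 ⊢
    rw [← a1]
    congr 1
    ring
  refine ⟨ode, fun Z hZ => sub_eq_zero.1 (cuspB_uniq (t := τK 0 T) (B := B.map (τK 0)) ?_ ?_ ?_ ?_)⟩
  · rw [τK_const, ← map_zero (algebraMap K ℂ), Polynomial.aeval_algebraMap_apply_eq_algebraMap_eval]
    exact (algebraMap K ℂ).injective.ne hT
  all_goals
    have b0 : (B.map (τK 0)).map constantCoeff =
        (B.map (Polynomial.eval 0)).map (algebraMap K ℂ) := by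
      ext1
      rw [map_apply, map_apply, τK_const, ← map_zero (algebraMap K ℂ),
        Polynomial.aeval_algebraMap_apply_eq_algebraMap_eval]
      rfl
  · exact b0 ▸ hN.map (algebraMap K ℂ).mapMatrix
  · rw [← t0, ← map_mul, Matrix.mul_sub, ← hZ, ← Matrix.mul_assoc, ← ode, smul_mul_assoc, ← smul_sub]
    congr 1
    ext1
    simp only [map_apply, Matrix.sub_apply, mul_apply, map_sub, map_sum, Derivation.leibniz,
      derivative_C, smul_zero, zero_add]
    simp only [smul_eq_mul, mul_comm]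
  · have b1 : (B.map (Polynomial.eval 0)).map (algebraMap K ℂ) * Z.map constantCoeff = 0 := by
      rw [← b0, ← Matrix.map_mul, ← hZ, map_mul, t0]
      ext; simp
    have b2 : Ψ.map constantCoeff = P.map (algebraMap K ℂ) := by
      have : (Y.map mp).map constantCoeff = 1 := by
        ext i j
        have := congrArg (algebraMap ℚ ℂ) (congrFun₂ Y0 i j)
        rw [map_apply, map_apply, ← coeff_zero_eq_constantCoeff_apply, coeff_map]
        exact this.trans (by simp [one_apply, apply_ite])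
      have c : ∀ {α β : Type} (W : Matrix α β ℂ), (W.map C).map constantCoeff = W := fun W => by
        ext; simp
      rw [hΨ, Matrix.map_mul, Matrix.map_mul, this, c, c, Matrix.mul_one, ← Matrix.map_mul, v1]
    rw [Matrix.map_sub _ (map_sub _), Matrix.map_mul, b2, hP, Matrix.map_sub _ (map_sub _),
      Matrix.map_mul, Matrix.map_one _ (map_zero _) (map_one _), Matrix.sub_mul, Matrix.mul_assoc,
      show ((Z.map constantCoeff).map C).map constantCoeff = Z.map constantCoeff by ext; simp, b1]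
    simp

end

end Pool.Agent.Lib.MP_5591bc_ag.D
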