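import Pool.Agent.Lib.MP_5591bc_ag.D.CuspB
import Pool.Agent.Lib.MP_5591bc_ag.D.Two

/-! The system attached to the holomorphic solutions at a simple pole with nilpotent residue. -/

namespace Pool.Agent.Lib.MP_5591bc_ag.D

open Matrix Finset Filter Topology PowerSeries G R V Function NumberField Metric
open W (GK mpK)

noncomputable section

theorem cuspC_gf {A : Type} [Fintype A] [DecidableEq A] {Y : Matrix A A ℚ⟦X⟧} {a : ℕ}
    (h : GF a fun p : A × A => Y p.1 p.2) (δ : ℕ) : ∃ b, GF b (vk δ Y) := by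
  have h4 : GF a (hatg Y) := fun k => by
    obtain ⟨h0, d, h1, h2, h3⟩ := h k
    refine ⟨?_, d, h1, h2, ?_⟩ <;> rintro (_ | a)
    · exact ((GF.int (fun _ : Unit => 1) (by simp)).mono h.pos k).1 () |>.trans_eq' (by simp [hatg])
    · exact h0 a
    · exact fun j _ => ⟨if j = 0 then d else 0, by by_cases e : j = 0 <;> simp [hatg, coeff_one, e]⟩
    · exact h3 a
  obtain ⟨k, hk⟩ := UF.pi (b := fun _ : Unit => a + 2) (hb := fun _ => by omega)
    (g := fun (μ : Mo A δ) _ => vk δ Y μ) fun μ => by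
      simp only [vk, tens, ← Finset.prod_fn]
      exact prod_mem fun l _ => ⟨1, fun _ => (h4.comp fun _ => μ l).mono (by simp)⟩
  exact ⟨_, hk ()⟩

theorem cuspC_tay {A : Type} {Y : ℂ → Matrix A A ℂ} {x : ℂ} (h : ∀ i j, AnalyticAt ℂ (Y · i j) x)
    (δ : ℕ) (μ : Mo A δ) : AnalyticAt ℂ (fun z => vk δ (Y z) μ) x ∧
      tay (fun z => vk δ (Y z) μ) x = vk δ (of fun i j => tay (Y · i j) x) μ := by
  have ha : ∀ o, AnalyticAt ℂ (fun z => hatg (Y z) o) x := by
    rintro (_ | a)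
    exacts [analyticAt_const, h _ _]
  unfold vk tens
  refine ⟨Finset.analyticAt_fun_prod _ fun l _ => ha _,
    (tay_prod _ fun l _ => ha _).trans (prod_congr rfl fun l _ => ?_)⟩
  rcases μ l with _ | ⟨i, j⟩
  exacts [(tay_const 1).trans (map_one _), rfl]

variable {ν : Type} [Fintype ν] [DecidableEq ν] {K : Type} [Field K] [NumberField K] [Algebra K ℂ]

omit [DecidableEq ν] [NumberField K] in
theorem cuspC_ode (T : Polynomial K) (B : Matrix ν ν (Polynomial K)) {R : ℝ} {W : ℂ → Matrix ν ν ℂ}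
    (hW : Hol (ball 0 R) W) {x : ℂ} (hx : x ∈ ball (0 : ℂ) R) :
    (∀ z ∈ ball (0 : ℂ) R, ∀ i j, Polynomial.aeval z T * deriv (W · i j) z =
      ∑ k, Polynomial.aeval z (B i k) * W z k j) ↔
    τK x T • (of fun i j => tay (W · i j) x).map (d⁄dX ℂ) =
      B.map (τK x) * of fun i j => tay (W · i j) x := by
  have an : ∀ z ∈ ball (0 : ℂ) R, ∀ i j, AnalyticAt ℂ (W · i j) z := fun z hz i j =>
    (hW i j).analyticAt (isOpen_ball.mem_nhds hz)
  have ap : ∀ (p : Polynomial K) (z : ℂ), AnalyticAt ℂ (fun t : ℂ => Polynomial.aeval t p) z :=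
    fun p z => p.differentiable_aeval.analyticAt z
  have a1 := fun z hz i j => (ap T z).fun_mul (an z hz i j).deriv
  have a2 := fun z hz i j => analyticAt_fun_sum univ fun k _ => (ap (B i k) z).fun_mul (an z hz k j)
  have := fun i j => brg_zero (convex_ball (0 : ℂ) R).isPreconnected
    (fun z hz => (a1 z hz i j).fun_sub (a2 z hz i j)) hx (isOpen_ball.mem_nhds hx)
  simp only [sub_eq_zero, tay_sub (a1 x hx _ _) (a2 x hx _ _), tay_mul (ap _ _) (an x hx _ _).deriv,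
    tay_sum _ fun k _ => (ap (B _ k) x).fun_mul (an x hx k _), tay_mul (ap _ _) (an x hx _ _),
    tay_τK, tay_deriv] at this
  exact ⟨fun h => Matrix.ext fun i j => (this i j).1 fun z hz => h z hz i j,
    fun h z hz i j => (this i j).2 (congrFun₂ h i j) z hz⟩

theorem exists_twoD_cusp {T : Polynomial K} {B : Matrix ν ν (Polynomial K)}
    (h : GalK (Polynomial.X * T) B) (hT : T.eval 0 ≠ 0)
    (hN : IsNilpotent (B.map (Polynomial.eval 0))) {U : Set ℂ} (ho : IsOpen U)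
    (hco : IsPreconnected U) {P : ℂ → Matrix ν ν ℂ} (hP : FundK (Polynomial.X * T) B U P)
    (hC : Conn U P) (δ : ℕ) (C0 : Matrix ν ν ℂ) {ρ : ℝ} (ρ0 : 0 < ρ) {Z : ℂ → Matrix ν ν ℂ}
    (hZ : Hol (ball 0 ρ) Z) (e : ∀ t ∈ U, t ∈ ball (0 : ℂ) ρ → P t * C0 = Z t) :
    ∃ R > 0, ∃ B' G f F E φ, ∃ N : Matrix (Mo ν δ) (Mo ν δ) ℂ,
      TwoD (A := Mo ν δ) (α := Mo (ν × Ix K) δ) (Polynomial.X * T) B'
        {x | x ∈ ball (0 : ℂ) R ∧ x ∈ U ∧ x ≠ 0} G f F E φ ∧
      ∀ x ∈ {x | x ∈ ball (0 : ℂ) R ∧ x ∈ U ∧ x ≠ 0}, G x * N.map C = N.map C * G x ∧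
        (fun μ => tay (fun z => vk δ (P z * C0) μ) x) = G x *ᵥ fun a => C ((N *ᵥ φ x) a) := by
  have T0 : Polynomial.aeval (0 : ℂ) T ≠ 0 := by
    have := (map_ne_zero (algebraMap K ℂ)).2 hT
    rwa [← Polynomial.aeval_algebraMap_apply_eq_algebraMap_eval, map_zero] at this
  have S := (sysD_Gb h (mul_ne_zero Polynomial.X_ne_zero fun e => hT (by simp [e]))).vk δ
  obtain ⟨Y, a, E, V, hg, hΨ⟩ := cusp_form h hT hN
  obtain ⟨R1, R10, y, p1, p2, -⟩ := gf_ana hg
  obtain ⟨R, R0, hR⟩ := Metric.eventually_nhds_iff_ball.1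
    ((isOpen_ball.eventually_mem (mem_ball_self ρ0 : (0 : ℂ) ∈ ball 0 ρ)).and
    (((analyticAt_aeval T (0 : ℂ)).continuousAt.eventually_ne T0).and
      (isOpen_ball.eventually_mem (mem_ball_self R10 : (0 : ℂ) ∈ ball 0 R1))))
  obtain ⟨Yc, hYc⟩ : ∃ Yc : ℂ → Matrix (ν × Ix K) (ν × Ix K) ℂ, Yc = fun z => of fun i j => y z (i, j) :=
    ⟨_, rfl⟩
  have y1 : Hol (ball 0 R) Yc := fun i j => hYc ▸ (p1 (i, j)).mono fun z hz => (hR z hz).2.2
  have y2 : ∀ z ∈ ball (0 : ℂ) R, ∀ i j, AnalyticAt ℂ (Yc · i j) z := fun z hz i j =>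
    (y1 i j).analyticAt (isOpen_ball.mem_nhds hz)
  have b0 : (0 : ℂ) ∈ ball (0 : ℂ) R := mem_ball_self R0
  obtain ⟨Ψ, hΨ'⟩ : ∃ Ψ : ℂ → Matrix ν ν ℂ,
    Ψ = fun z => E.map (algebraMap K ℂ) * Yc z * V.map (algebraMap K ℂ) := ⟨_, rfl⟩
  have s1 : Hol (ball 0 R) Ψ := hΨ' ▸ ((Hol.const _).mul y1).mul (.const _)
  have s2 : ∀ z ∈ ball (0 : ℂ) R, ∀ i j, AnalyticAt ℂ (Ψ · i j) z := fun z hz i j =>
    (s1 i j).analyticAt (isOpen_ball.mem_nhds hz)
  obtain ⟨o1, o2⟩ := hΨ (of fun i j => tay (Ψ · i j) 0) (by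
    ext1 i j
    have a1 := fun l k => (analyticAt_const (v := algebraMap K ℂ (E i k))).fun_mul (y2 0 b0 k l)
    have a2 := fun l => analyticAt_fun_sum univ fun k _ => a1 l k
    simp only [hΨ', of_apply, mul_apply, map_apply]
    rw [tay_sum _ fun l _ => (a2 l).fun_mul analyticAt_const]
    refine sum_congr rfl fun l _ => ?_
    rw [tay_mul (a2 l) analyticAt_const, tay_const, tay_sum _ fun k _ => a1 l k]
    simp only [tay_cmul (y2 0 b0 _ _)]
    simp only [hYc, of_apply, ← p2])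
  have o3 := (cuspC_ode _ _ s1 b0).2 o1
  have ne : ∀ x ∈ ball (0 : ℂ) R, x ≠ 0 → Polynomial.aeval x (Polynomial.X * T) ≠ 0 :=
    fun x hx x0 => by simpa using ⟨x0, (hR x hx).2.1⟩
  have ms : ∀ {Q : ℂ → Matrix ν ν ℂ} {z : ℂ}, Polynomial.aeval z (Polynomial.X * T) ≠ 0 →
      (∀ i j, DifferentiableAt ℂ (Q · i j) z ∧ Polynomial.aeval z (Polynomial.X * T) *
        deriv (Q · i j) z = ∑ k, Polynomial.aeval z (B i k) * Q z k j) →
      MSol (W.AzK (Polynomial.X * T) B) Q z := fun z0 hW i j => by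
    refine (hW i j).1.hasDerivAt.congr_deriv ?_
    simp only [W.AzK, mul_apply, of_apply, div_mul_eq_mul_div, ← sum_div, ← (hW i j).2]
    rw [mul_div_cancel_left₀ _ z0]
  have op : IsOpen {x | x ∈ ball (0 : ℂ) R ∧ x ∈ U ∧ x ≠ 0} :=
    isOpen_ball.inter (ho.inter isOpen_ne)
  have hΨs := fun x hx => (op.eventually_mem (x := x) hx).mono fun z hz => ms (ne z hz.1 hz.2.2)
    fun i j => ⟨(s2 z hz.1 i j).differentiableAt, o3 z hz.1 i j⟩
  have hPs := fun x hx => (op.eventually_mem (x := x) hx).mono fun z hz =>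
    ms (ne z hz.1 hz.2.2) (hP z hz.2.1).2
  have z1 : ∀ x ∈ {x | x ∈ ball (0 : ℂ) R ∧ x ∈ U ∧ x ≠ 0}, P x * C0 = Ψ x * Z 0 := fun x hx => by
    have a0 : Hol (ball 0 R) Z := hZ.mono fun z hz => (hR z hz).1
    have a1 : ∀ z ∈ ball (0 : ℂ) R, ∀ i j, AnalyticAt ℂ (Z · i j) z := fun z hz i j =>
      (a0 i j).analyticAt (isOpen_ball.mem_nhds hz)
    have a2 : (of fun i j => tay (Z · i j) x) =
        GbC (Polynomial.X * T) B x * (P x * C0).map C := by
      rw [← tay_PC (P := fun z => P z * C0) ((hPs x hx).mono fun t ht => ht.mul_const C0)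
        (ne x hx.1 hx.2.2)]
      ext1 i j
      exact tay_congr ((op.eventually_mem hx).mono fun t ht =>
        congrFun₂ (e t ht.2.1 (hR t ht.1).1).symm i j)
    have a3 := o2 _ ((cuspC_ode _ _ a0 b0).1 ((cuspC_ode _ _ a0 hx.1).2 (by
      rw [a2, ← Matrix.mul_assoc, ← GbC_ode (ne x hx.1 hx.2.2), smul_mul_assoc]
      congr 1
      ext1
      simp only [map_apply, mul_apply, map_sum, Derivation.leibniz, derivative_C, sum_const_zero,
        smul_zero, zero_add]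
      simp only [smul_eq_mul, mul_comm])))
    rw [e x hx.2.1 (hR x hx.1).1]
    ext i j
    have a4 := fun z hz => analyticAt_fun_sum univ fun k _ =>
      (s2 z hz i k).fun_mul (analyticAt_const (v := Z 0 k j))
    refine sub_eq_zero.1 ((brg_zero (convex_ball (0 : ℂ) R).isPreconnected
      (fun z hz => (a1 z hz i j).fun_sub (a4 z hz)) b0 (isOpen_ball.mem_nhds b0)).2 ?_ x hx.1)
    rw [tay_sub (a1 0 b0 i j) (a4 0 b0), tay_sum _ fun k _ => (s2 0 b0 i k).fun_mul analyticAt_const,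
      sub_eq_zero]
    refine (congrFun₂ a3 i j).trans (sum_congr rfl fun k _ => ?_)
    rw [tay_mul (s2 0 b0 i k) analyticAt_const, tay_const]
    simp only [of_apply, map_apply, ← coeff_zero_eq_constantCoeff_apply, coeff_zero_tay]
  obtain ⟨N, N1, N2⟩ := two_rt δ (Z 0)
  obtain ⟨k, hk⟩ : ∃ k : Matrix (Mo ν δ) (Mo (ν × Ix K) δ) K, ∀ W : Matrix (ν × Ix K) (ν × Ix K) ℂ,
      k.map (algebraMap K ℂ) *ᵥ vk δ W =
        vk δ (E.map (algebraMap K ℂ) * W * V.map (algebraMap K ℂ)) := by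
    obtain ⟨k, hk⟩ : ∃ k : Matrix (Option (ν × ν)) (Option ((ν × Ix K) × ν × Ix K)) K, k = of
      fun o o' => o.elim (o'.elim 1 fun _ => 0) fun x => o'.elim 0 fun y => E x.1 y.1 * V y.2 x.2 :=
      ⟨_, rfl⟩
    refine ⟨piM fun _ => k, fun W => ?_⟩
    rw [show (piM fun _ : Fin δ => k).map (algebraMap K ℂ) = piM fun _ => k.map (algebraMap K ℂ) by
      ext; simp [piM], vk, piM_mulVec, vk]
    congr 1
    ext l (_ | ⟨p, q⟩)
    · simp [hk, hatg, mulVec, dotProduct, Fintype.sum_option]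
    · simp only [hk, hatg, mulVec, dotProduct, Fintype.sum_option, map_apply, of_apply,
        Option.elim_some, Option.elim_none, map_zero, zero_mul, zero_add, map_mul, mul_apply,
        sum_mul]
      rw [Fintype.sum_prod_type, sum_comm]
      simp only [mul_right_comm]
  refine ⟨R, R0, _, _, vk δ Y, fun x b => tay (fun z => vk δ (Yc z) b) x, k, fun x => vk δ (Ψ x), N,
    ⟨S.mono fun x hx => ne x hx.1 hx.2.2, cuspC_gf hg δ, fun x hx b j => org_lim hx.1 j
      (fun z hz => (cuspC_tay (y2 z hz) δ b).1.differentiableAt.differentiableWithinAt) ?_,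
      fun x hx μ => ?_, fun x hx => ?_⟩, fun x hx => ⟨N2 _, ?_⟩⟩
  · rw [(cuspC_tay (y2 0 b0) δ b).2, map_vk]
    congr 1
    ext1 i j
    simp only [hYc, of_apply, map_apply, ← p2]
  · rw [← (two_tay (hΨs x hx) (ne x hx.1 hx.2.2) δ).2]
    simp only [hΨ', ← hk, mulVec, dotProduct, map_apply]
    rw [tay_sum _ fun b _ => analyticAt_const.fun_mul (cuspC_tay (y2 x hx.1) δ b).1]
    simp only [tay_cmul (cuspC_tay (y2 x hx.1) δ _).1]
  · refine ((conn_iff ho hco (fun i j t ht => ((hP t ht).2 i j).1.differentiableWithinAt)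
      hx.2.1).1 hC).mono (range_evG fun i j => ?_)
    have b1 := congrArg (· * (P x)⁻¹.map C) (tay_PC (hPs x hx) (ne x hx.1 hx.2.2))
    simp only [Matrix.mul_assoc, ← Matrix.map_mul, mul_nonsing_inv _ (Ne.isUnit (hP _ hx.2.1).1),
      Matrix.map_one _ (map_zero _) (map_one _), Matrix.mul_one] at b1
    have b2 : ∀ a b, GbC (Polynomial.X * T) B x a b ∈
        (evG x (of fun i j => tay (P · i j) x)).range := fun a b => by
      rw [← b1, mul_apply]
      exact sum_mem fun l _ => mul_mem ⟨MvPolynomial.X (a, l), by simp [evG]⟩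
        ⟨MvPolynomial.C (Polynomial.C ((P x)⁻¹ l b)), by simp [evG, τc_C]⟩
    rw [piM, of_apply]
    refine prod_mem fun l _ => ?_
    rcases i l with _ | a <;> rcases j l with _ | b
    · exact one_mem _
    · exact zero_mem _
    · exact zero_mem _
    · by_cases e : a.2 = b.2
      · simpa only [exg, of_apply, Option.elim_some, if_pos e] using b2 a.1 b.1
      · simp only [exg, of_apply, Option.elim_some, if_neg e]; exact zero_mem _
  · rw [(two_tay (P := fun z => P z * C0) ((hPs x hx).mono fun t ht => ht.mul_const C0)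
      (ne x hx.1 hx.2.2) δ).2, N1, z1 x hx]

end

end Pool.Agent.Lib.MP_5591bc_ag.D
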