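import Pool.Agent.Lib.MP_5591bc_ag.D.Kit
import Pool.Agent.Lib.MP_5591bc_ag.V.Est

/-! The analytic half of the estimate. -/

namespace Pool.Agent.Lib.MP_5591bc_ag.D

open Matrix Finset Filter Topology PowerSeries G R V Function
open W (GK mpK)

noncomputable section

variable {σ α : Type*} [Fintype σ] [DecidableEq σ]

/-- the weighted coefficients of `A` are at most `M` -/
def estA_bd (ρ : σ → ℝ) (A : MvPowerSeries σ ℂ) (M : ℝ) : Prop :=
  ∀ ν, ‖MvPowerSeries.coeff ν A‖ * ∏ i, ρ i ^ ν i ≤ M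

section bd
variable {ρ r : σ → ℝ} (hρ : ∀ i, 0 ≤ ρ i) {A B : MvPowerSeries σ ℂ} {M N : ℝ} {ξ : σ → ℂ}
include hρ

omit [DecidableEq σ] in
theorem estA_pos (hA : estA_bd ρ A M) : 0 ≤ M :=
  (mul_nonneg (norm_nonneg _) (prod_nonneg fun i _ => pow_nonneg (hρ i) _)).trans (hA 0)

omit [DecidableEq σ] in
theorem estA_sum {ι : Type*} (s : Finset ι) {A : ι → MvPowerSeries σ ℂ} {M : ι → ℝ}
    (h : ∀ a ∈ s, estA_bd ρ (A a) (M a)) : estA_bd ρ (∑ a ∈ s, A a) (∑ a ∈ s, M a) := fun ν => by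
  rw [map_sum]
  refine (mul_le_mul_of_nonneg_right (norm_sum_le _ _)
    (prod_nonneg fun i _ => pow_nonneg (hρ i) _)).trans ?_
  rw [sum_mul]
  exact sum_le_sum fun a ha => h a ha ν

omit [DecidableEq σ] in
theorem estA_mon (hA : estA_bd ρ A M) (d : σ →₀ ℕ) (a : ℂ) :
    estA_bd ρ (A * MvPowerSeries.monomial d a) (M * (‖a‖ * ∏ i, ρ i ^ d i)) := fun μ => by
  have h0 : 0 ≤ ‖a‖ * ∏ i, ρ i ^ d i :=
    mul_nonneg (norm_nonneg _) (prod_nonneg fun i _ => pow_nonneg (hρ i) _)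
  rw [MvPowerSeries.coeff_mul_monomial]
  split_ifs with h
  · refine le_trans (le_of_eq ?_) (mul_le_mul_of_nonneg_right (hA (μ - d)) h0)
    conv_lhs => rw [← tsub_add_cancel_of_le h]
    simp only [add_tsub_cancel_right, Finsupp.add_apply, pow_add, prod_mul_distrib, norm_mul]
    ring
  · simpa using mul_nonneg (estA_pos hρ hA) h0

theorem estA_lin (h : ∀ i, ρ i + ‖ξ i‖ ≤ r i) (hA : estA_bd ρ A M) (i : σ) :
    estA_bd ρ (A * (MvPowerSeries.X i + MvPowerSeries.C (ξ i))) (M * r i) := fun μ => by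
  have a1 := estA_mon hρ hA (Finsupp.single i 1) 1 μ
  have a2 := estA_mon hρ hA 0 (ξ i) μ
  have e1 : ∏ j, ρ j ^ (Finsupp.single i 1 : σ →₀ ℕ) j = ρ i := by
    rw [prod_eq_single i] <;> simp +contextual [eq_comm]
  rw [e1, norm_one, one_mul] at a1
  simp only [Finsupp.coe_zero, Pi.zero_apply, pow_zero, prod_const_one, mul_one,
    MvPowerSeries.monomial_zero_eq_C_apply] at a2
  rw [mul_add, map_add]
  refine (mul_le_mul_of_nonneg_right (norm_add_le _ _)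
    (prod_nonneg fun i _ => pow_nonneg (hρ i) _)).trans ?_
  rw [add_mul]
  refine (add_le_add a1 a2).trans ?_
  rw [← mul_add]
  exact mul_le_mul_of_nonneg_left (h i) (estA_pos hρ hA)

theorem estA_pow (h : ∀ i, ρ i + ‖ξ i‖ ≤ r i) (hA : estA_bd ρ A M) (i : σ) (n : ℕ) :
    estA_bd ρ (A * (MvPowerSeries.X i + MvPowerSeries.C (ξ i)) ^ n) (M * r i ^ n) := by
  induction n with
  | zero => simpa using hA
  | succ n ih =>
    rw [pow_succ, pow_succ, ← mul_assoc, ← mul_assoc]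
    exact estA_lin hρ h ih i

theorem estA_prod (h : ∀ i, ρ i + ‖ξ i‖ ≤ r i) (hA : estA_bd ρ A M) (d : σ → ℕ) (s : Finset σ) :
    estA_bd ρ (A * ∏ i ∈ s, (MvPowerSeries.X i + MvPowerSeries.C (ξ i)) ^ d i)
      (M * ∏ i ∈ s, r i ^ d i) := by
  induction s using Finset.induction_on with
  | empty => simpa using hA
  | insert a s ha ih =>
    rw [prod_insert ha, prod_insert ha, mul_comm (_ ^ d a), mul_comm (r a ^ d a), ← mul_assoc,
      ← mul_assoc]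
    exact estA_pow hρ h ih a _

theorem estA_mul (h : ∀ i, ρ i + ‖ξ i‖ ≤ r i) (hA : estA_bd ρ A M) (p : MvPolynomial σ ℚ) :
    estA_bd ρ (A * τg ξ p) (M * nr r p) := by
  rw [← τA_rat, nr, mul_sum]
  conv => lhs; rw [p.as_sum, map_sum, mul_sum]
  refine estA_sum hρ _ fun d _ => ?_
  have a1 := estA_mon hρ hA 0 (algebraMap ℚ ℂ (p.coeff d))
  simp only [Finsupp.coe_zero, Pi.zero_apply, pow_zero, prod_const_one, mul_one,
    MvPowerSeries.monomial_zero_eq_C_apply, eq_ratCast, Complex.norm_ratCast] at a1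
  rw [τA, MvPolynomial.eval₂Hom_monomial, Finsupp.prod_fintype _ _ (by simp), ← mul_assoc,
    ← mul_assoc]
  exact estA_prod hρ h a1 d univ

end bd

omit [Fintype σ] in
theorem estA_lim {f : α → ℚ⟦X⟧} {ξ : σ → ℂ} {F : σ → α → ℂ⟦X⟧} (hF : ∀ i, LimC f (ξ i) (F i))
    (o : Ot σ α) : ∀ ν, Tendsto (fun K => MvPowerSeries.coeff ν (τg ξ (eK f K o))) atTop
      (𝓝 (MvPowerSeries.coeff ν (eA ℚ ξ F o))) := by
  induction o using MvPolynomial.induction_on with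
  | C a =>
    intro ν
    simp only [eK, eA, MvPolynomial.eval_C, MvPolynomial.eval₂Hom_C, τA_rat]
    exact tendsto_const_nhds
  | add p q hp hq =>
    intro ν
    simp only [map_add]
    exact (hp ν).add (hq ν)
  | mul_X p j hp =>
    intro ν
    have e1 : ∀ K, τg ξ (eK f K (MvPolynomial.X j)) = embC j.1 (τK (ξ j.1) (trunc K (f j.2))) :=
      fun K => by rw [eK, MvPolynomial.eval_X, τg_toMv]
    have e2 : eA ℚ ξ F (MvPolynomial.X j) = embC j.1 (F j.1 j.2) := MvPolynomial.eval₂Hom_X' _ _ _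
    simp only [map_mul, e1, e2, MvPowerSeries.coeff_mul]
    refine tendsto_finsetSum _ fun x _ => (hp _).mul ?_
    simp only [embC, est_ren]
    split_ifs
    · exact hF _ _ _
    · simp

theorem est_coreD {I : Type*} [Fintype I] {f : α → ℚ⟦X⟧} {a : ℕ} (hf : GF (2 ^ a) f) {ξ : σ → ℂ}
    {w : σ → ℕ} (hw : ∀ i, 0 < w i) {F : σ → α → ℂ⟦X⟧} (hF : ∀ i, LimC f (ξ i) (F i))
    {ρ : σ → ℝ} (hρ : ∀ i, 0 ≤ ρ i) {θ : ℝ} (h0 : 0 ≤ θ) (h1 : θ ≤ 1)
    (hξ : ∀ i, ρ i + ‖ξ i‖ ≤ θ ^ w i * (2 * 2 ^ a)⁻¹) (o : I → Ot σ α) :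
    ∃ N : ℝ, 0 ≤ N ∧ ∀ (A : MvPowerSeries σ ℂ) (M : ℝ),
      (∀ ν, ‖MvPowerSeries.coeff ν A‖ * ∏ i, ρ i ^ ν i ≤ M) →
      ∀ (P : I → MvPolynomial σ ℚ) (Θ : ℕ) (H : ℝ), (∀ γ, nr 1 (P γ) ≤ H) →
      Vn w Θ (∑ γ, e0 f (o γ) * (P γ : MvPowerSeries σ ℚ)) → ∀ ν,
      ‖MvPowerSeries.coeff ν (A * ∑ γ, eA ℚ ξ F (o γ) * τg ξ (P γ))‖ *
        ∏ i, ρ i ^ ν i ≤ M * (θ ^ Θ * (N * H)) := by
  have hr : ∀ _ : σ, (0 : ℝ) ≤ (2 * 2 ^ a)⁻¹ := fun _ => by positivity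
  have r1 : (1 : ℝ) ≤ 2 * 2 ^ a := by linarith [one_le_pow₀ (n := a) (one_le_two (α := ℝ))]
  choose N hN using fun γ => est_bdd hf (o γ)
  have N0 : ∀ γ, 0 ≤ N γ := fun γ => (nr_nonneg hr _).trans (hN γ 0)
  refine ⟨∑ γ, N γ, sum_nonneg fun γ _ => N0 γ, fun A M hA P Θ H hP hV ν => ?_⟩
  have M0 : 0 ≤ M := estA_pos hρ hA
  have a1 : Tendsto (fun K => MvPowerSeries.coeff ν (A * τg ξ (∑ γ, eK f K (o γ) * P γ))) atTop
      (𝓝 (MvPowerSeries.coeff ν (A * ∑ γ, eA ℚ ξ F (o γ) * τg ξ (P γ)))) := by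
    simp only [map_sum, map_mul, MvPowerSeries.coeff_mul]
    exact tendsto_finsetSum _ fun x _ => (tendsto_finsetSum _ fun γ _ =>
      tendsto_finsetSum _ fun y _ => (estA_lim hF _ _).mul_const _).const_mul _
  refine le_of_tendsto (a1.norm.mul_const _) (eventually_atTop.2 ⟨Θ, fun K hK => ?_⟩)
  refine (estA_mul hρ hξ hA _ ν).trans (mul_le_mul_of_nonneg_left
    ((nr_high (fun i => mul_nonneg (pow_nonneg h0 _) (hr i)) hr h0 h1 (fun _ => le_rfl)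
      (D := Θ) (q := ∑ γ, eK f K (o γ) * P γ) fun d hd => ⟨?_, rfl⟩).trans
      (mul_le_mul_of_nonneg_left ?_ (pow_nonneg h0 _))) M0)
  · by_contra hlt
    have hlt := not_le.1 hlt
    have hd' : ∀ i, d i < K := fun i => lt_of_le_of_lt ((Nat.le_mul_of_pos_right _ (hw i)).trans
      (le_weight w d i)) (hlt.trans_le hK)
    refine hd (Eq.trans ?_ (hV d hlt))
    simp only [MvPolynomial.coeff_sum, map_sum, MvPolynomial.coeff_mul, MvPowerSeries.coeff_mul,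
      MvPolynomial.coeff_coe]
    refine sum_congr rfl fun γ _ => sum_congr rfl fun x hx => ?_
    rw [est_low _ _ fun i => lt_of_le_of_lt (by
      rw [← mem_antidiagonal.1 hx]; exact Nat.le_add_right _ _) (hd' i)]
  · refine (nr_sum hr _ _).trans ?_
    rw [sum_mul]
    refine sum_le_sum fun γ _ => (nr_mul hr _ _).trans (mul_le_mul (hN γ K) ?_ (nr_nonneg hr _)
      (N0 γ))
    have b1 := nr_high hr (r := 1) (fun _ => zero_le_one) zero_le_one le_rfl (w := w)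
      (fun _ => by simpa using inv_le_one_of_one_le₀ r1) (D := 0) (p := P γ) (q := P γ)
      fun _ _ => ⟨Nat.zero_le _, rfl⟩
    rw [pow_zero, one_mul] at b1
    exact b1.trans (hP γ)

end

end Pool.Agent.Lib.MP_5591bc_ag.D
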