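import Pool.Agent.Lib.MP_5591bc_ag.D.Kit
import Pool.Agent.Lib.MP_5591bc_ag.W.GKa
import Pool.Agent.Lib.MP_5591bc_ag.W.SerA

/-! The formal fundamental matrices. -/

namespace Pool.Agent.Lib.MP_5591bc_ag.D

open Matrix Finset Filter Topology PowerSeries G R V Function
open W (GK mpK)

noncomputable section

variable {A : Type*} [Fintype A] [DecidableEq A] {K : Type} [Field K] [Algebra K ℂ]
  {T : Polynomial K} {B : Matrix A A (Polynomial K)}

theorem GbC_one (x : ℂ) : (GbC T B x).map constantCoeff = 1 := by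
  ext i j
  simp [GbC, ← coeff_zero_eq_constantCoeff_apply, iterK, one_apply, apply_ite]

theorem GbC_ode {x : ℂ} (hx : Polynomial.aeval x T ≠ 0) :
    τK x T • (GbC T B x).map (d⁄dX ℂ) = B.map (τK x) * GbC T B x := by
  have h0 : constantCoeff (τK x T) ≠ 0 := by rwa [τK_const]
  obtain ⟨u, hu⟩ := (isUnit_iff_constantCoeff.2 h0.isUnit).exists_right_inv
  obtain ⟨Y, h1, h2⟩ := W.serA_ex (u • B.map (τK x))
  have h3 : τK x T • Y.map (d⁄dX ℂ) = B.map (τK x) * Y := by
    rw [h2, Matrix.smul_mul, smul_smul, hu, one_smul]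
  have e : GbC T B x = Y := by
    ext i j m
    rw [W.serA_coeff (τK_deriv x) h0 h3 h1, τK_const, τK_const, GbC, of_apply, coeff_mk]
  rw [e, h3]

theorem tay_PC {P : ℂ → Matrix A A ℂ} {x : ℂ} (hP : ∀ᶠ t in 𝓝 x, MSol (W.AzK T B) P t)
    (hx : Polynomial.aeval x T ≠ 0) :
    (of fun i j => tay (P · i j) x) = GbC T B x * (P x).map C := by
  have pa : ∀ p : Polynomial K, AnalyticAt ℂ (fun t : ℂ => Polynomial.aeval t p) x := fun p =>
    (p.differentiable_aeval (𝕜 := ℂ)).analyticAt x
  have an : ∀ i j, AnalyticAt ℂ (P · i j) x := fun i j =>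
    analyticAt_of_eventually (hP.mono fun t ht => (ht i j).differentiableAt)
  have h : τK x T • (of fun i j => tay (P · i j) x).map (d⁄dX ℂ) =
      B.map (τK x) * of fun i j => tay (P · i j) x := by
    ext1 i j
    simp only [Matrix.smul_apply, map_apply, of_apply, smul_eq_mul, mul_apply, ← tay_τK]
    rw [← tay_deriv, ← tay_mul (pa T) (an i j).deriv, ← sum_congr rfl fun l _ =>
      tay_mul (pa (B i l)) (an l j), ← tay_sum _ fun l _ => (pa (B i l)).fun_mul (an l j)]
    refine tay_congr ?_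
    filter_upwards [hP, (pa T).continuousAt.eventually_ne hx] with t ht h0
    rw [(ht i j).deriv, mul_apply, mul_sum]
    refine sum_congr rfl fun l _ => ?_
    rw [W.AzK, of_apply, ← mul_assoc, mul_div_cancel₀ _ h0]
  ext i j m
  have h2 := congrArg constantCoeff (congrFun₂ (W.serA_iter (τK_deriv x) h m) i j)
  simp only [map_apply, Matrix.smul_apply, smul_eq_mul, map_mul, map_pow, mul_apply, map_sum,
    constantCoeff_iterate_derivative, τK_const, of_apply, constantCoeff_tay] at h2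
  have h5 : (m.factorial : ℂ) ≠ 0 := by exact_mod_cast m.factorial_ne_zero
  simp only [mul_apply, map_sum, map_apply, coeff_mul_C, GbC, of_apply, coeff_mk,
    div_mul_eq_mul_div, ← sum_div]
  rw [eq_div_iff (mul_ne_zero (pow_ne_zero _ hx) h5), ← h2]
  ring

theorem sysD_Gb [NumberField K] (h : GalK T B) (hT : T ≠ 0) :
    SysD T B {x | Polynomial.aeval x T ≠ 0} (GbC T B) := by
  obtain ⟨c, hc⟩ := W.gf_coreE.{0} h
  refine ⟨hT, fun _ hx => hx, fun x _ => GbC_one x, fun x hx => GbC_ode hx, fun D => ⟨c * D, ?_⟩⟩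
  intro L _ _ _ _ _ hD x hx w hw
  obtain ⟨w0, a, a0, a1, a2, a3⟩ := hw.dn
  have ev : ∀ p : Polynomial K, Polynomial.aeval (algebraMap L ℂ x) p =
      algebraMap L ℂ (Polynomial.aeval x p) := fun p => Polynomial.aeval_algebraMap_apply ℂ x p
  have H2 : (2 : ℝ) ≤ 2 ^ w := le_self_pow₀ one_le_two w0.ne'
  have k := hc L D (2 ^ w) x a hD H2 a0 (by exact_mod_cast a1) a2 a3
    fun e => hx (by rw [ev, e, map_zero])
  have e : ((2 : ℝ) ^ w) ^ (c * D) = ((2 ^ (c * D * w) : ℕ) : ℝ) := by
    rw [← pow_mul, mul_comm w]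
    norm_cast
  rw [e] at k
  refine ⟨of fun i j => PowerSeries.mk fun k => Polynomial.aeval x (iterK T B k i j) /
    (Polynomial.aeval x T ^ k * k.factorial), ?_, 2 ^ (c * D * w), by positivity, fun t => ?_⟩
  · ext i j m
    simp only [GbC, of_apply, map_apply, coeff_map, coeff_mk, ev, map_div₀, map_mul, map_pow,
      map_natCast]
  · obtain ⟨k1, d, d0, d1, d2⟩ := k t
    refine ⟨fun p σ => ?_, d, d0, ?_, fun p j hj => ?_⟩
    · simp only [of_apply, coeff_mk]
      exact (k1 _ _ σ).trans (le_mul_of_one_le_left (by positivity)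
        (by exact_mod_cast Nat.one_le_two_pow))
    · rw [← pow_succ']
      exact_mod_cast d1
    · simp only [of_apply, coeff_mk]
      exact d2 j hj _ _

end

end Pool.Agent.Lib.MP_5591bc_ag.D
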