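import Pool.Agent.Lib.MP_5591bc_ag.D.Defs

/-! Simultaneous lifting of relations. -/

namespace Pool.Agent.Lib.MP_5591bc_ag.D

open Matrix Finset Filter Topology PowerSeries G R V Function
open W (GK mpK)

noncomputable section

/-- a submodule stable under a connection is saturated at an ordinary point -/
theorem sim_sat {M : Type*} [AddCommGroup M] [Module (Polynomial ℂ) M]
    [IsNoetherian (Polynomial ℂ) M] {T : Polynomial ℂ} {x : ℂ} (hT : T.eval x ≠ 0) {D : M → M}
    (hD : ∀ (p : Polynomial ℂ) u, D (p • u) = (T * p.derivative) • u + p • D u)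
    {N : Submodule (Polynomial ℂ) M} (hN : ∀ u ∈ N, D u ∈ N) {u : M}
    (hu : (Polynomial.X - Polynomial.C x) • u ∈ N) : u ∈ N := by
  obtain ⟨h, hh⟩ : ∃ h, h = Polynomial.X - Polynomial.C x := ⟨_, rfl⟩
  have h1 : h.derivative = 1 := by simp [hh]
  obtain ⟨T1, e1⟩ : ∃ T1, T = Polynomial.C (T.eval x) + h * T1 :=
    ⟨T /ₘ h, by rw [hh, ← Polynomial.modByMonic_X_sub_C_eq_C_eval, Polynomial.modByMonic_add_div]⟩
  have e2 : ∀ (k : ℕ) u, D (h ^ (k + 1) • u) =
      (T * (Polynomial.C ((k + 1 : ℕ) : ℂ) * h ^ k)) • u + h ^ (k + 1) • D u := fun k u => by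
    rw [hD, Polynomial.derivative_pow, h1, mul_one, Nat.add_sub_cancel]
  have up : ∀ (k : ℕ) u, h ^ k • u ∈ N → h ^ (k + 1) • u ∈ N := fun k u hk => by
    rw [pow_succ', mul_smul]; exact N.smul_mem _ hk
  have key : ∀ K : ℕ, (∀ u k, h ^ k • u ∈ N → h ^ K • u ∈ N) → ∀ u (k : ℕ), h ^ k • u ∈ N → u ∈ N :=
    fun K => by
    induction K with
    | zero => exact fun H u k hk => by simpa using H u k hk
    | succ K ih =>
      refine fun H => ih fun u k hk => ?_
      have a1 : h ^ (k + 1) • D u ∈ N := by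
        have := hN _ (up k u hk)
        rw [e2, ← mul_assoc, mul_smul] at this
        exact (N.add_mem_iff_right (N.smul_mem _ hk)).1 this
      have a2 := H u k hk
      have a3 := hN _ a2
      rw [e2, N.add_mem_iff_left (H _ _ a1)] at a3
      have a4 : (T.eval x * ((K + 1 : ℕ) : ℂ)) ≠ 0 := mul_ne_zero hT (Nat.cast_ne_zero.2 K.succ_ne_zero)
      have a5 := N.smul_mem (Polynomial.C (T.eval x * ((K + 1 : ℕ) : ℂ))⁻¹) (N.sub_mem a3
        (N.smul_mem (T1 * Polynomial.C ((K + 1 : ℕ) : ℂ)) a2))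
      rw [smul_smul, ← sub_smul, smul_smul] at a5
      convert a5 using 2
      have : T * (Polynomial.C ((K + 1 : ℕ) : ℂ) * h ^ K) -
          T1 * Polynomial.C ((K + 1 : ℕ) : ℂ) * h ^ (K + 1) =
          Polynomial.C (T.eval x * ((K + 1 : ℕ) : ℂ)) * h ^ K := by
        rw [Polynomial.C_mul]
        linear_combination (Polynomial.C ((K + 1 : ℕ) : ℂ) * h ^ K) * e1
      rw [this, ← mul_assoc, ← Polynomial.C_mul, inv_mul_cancel₀ a4, Polynomial.C_1, one_mul]
  obtain ⟨K, hK⟩ := monotone_stabilizes_iff_noetherian.2 ‹_›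
    ⟨fun k => N.comap (LinearMap.lsmul _ M (h ^ k)), monotone_nat_of_le_succ fun k u => up k u⟩
  refine key K (fun u k hk => ?_) u 1 (by rwa [pow_one, hh])
  have a1 : u ∈ N.comap (LinearMap.lsmul _ M (h ^ (K + k))) := by
    change h ^ (K + k) • u ∈ N
    rw [pow_add, mul_smul]; exact N.smul_mem _ hk
  exact (hK (K + k) (Nat.le_add_right _ _)).ge a1

variable {A : Type*} [Fintype A] [DecidableEq A]

/-- the module of relations -/
def simN (x : ℂ) (y : A → ℂ⟦X⟧) : Submodule (Polynomial ℂ) (A → Polynomial ℂ) where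
  carrier := {l | (fun a => τc x (l a)) ⬝ᵥ y = 0}
  add_mem' := fun {l l'} (h : _ = _) (h' : _ = _) => by
    have := add_dotProduct (fun a => τc x (l a)) (fun a => τc x (l' a)) y
    rw [h, h', add_zero] at this
    simpa only [Set.mem_ofPred_eq, Pi.add_def, map_add] using this
  zero_mem' := by simp
  smul_mem' := fun p l (h : _ = _) => by
    have := smul_dotProduct (τc x p) (fun a => τc x (l a)) y
    rw [h, smul_zero] at this
    simpa only [Set.mem_ofPred_eq, Pi.smul_def, smul_eq_mul, map_mul] using this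

omit [DecidableEq A] in
theorem sim_lift {T : Polynomial ℂ} {B : Matrix A A (Polynomial ℂ)} {x : ℂ} {G : Matrix A A ℂ⟦X⟧}
    (hT : T.eval x ≠ 0) (ode : τc x T • G.map (d⁄dX ℂ) = B.map (τc x) * G) {I : Type*} [Finite I]
    (φ : I → A → ℂ) (b : A → ℂ) (h : ∀ j, ∃ l : A → Polynomial ℂ, (∀ a, (l a).eval x = b a) ∧
      (fun a => τc x (l a)) ⬝ᵥ (G *ᵥ fun a => C (φ j a)) = 0) :
    ∃ l : A → Polynomial ℂ, (∀ a, (l a).eval x = b a) ∧
      ∀ j, (fun a => τc x (l a)) ⬝ᵥ (G *ᵥ fun a => C (φ j a)) = 0 := by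
  classical
  have := Fintype.ofFinite I
  let D : (A → Polynomial ℂ) → A → Polynomial ℂ := fun l a => T * (l a).derivative + (l ᵥ* B) a
  have d1 : ∀ (p : Polynomial ℂ) u, D (p • u) = (T * p.derivative) • u + p • D u := fun p u => by
    ext1 a
    simp only [D, Pi.smul_apply, smul_eq_mul, Polynomial.derivative_mul, smul_vecMul, Pi.add_apply]
    ring
  have d2 : ∀ u v, D (u + v) = D u + D v := fun u v => by
    ext1 a
    simp only [D, Pi.add_apply, map_add, add_vecMul]
    ring
  have d3 : ∀ j, ∀ l ∈ simN x (G *ᵥ fun a => C (φ j a)),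
      D l ∈ simN x (G *ᵥ fun a => C (φ j a)) := fun j l (hl : _ = _) => by
    have e1 : ∀ a, τc x T * d⁄dX ℂ ((G *ᵥ fun a => C (φ j a)) a) =
        (B.map (τc x) *ᵥ (G *ᵥ fun a => C (φ j a))) a := fun a => by
      rw [mulVec_mulVec, ← ode]
      simp [mulVec, dotProduct, mul_sum, mul_assoc, mul_comm (C _)]
    generalize (G *ᵥ fun a => C (φ j a)) = y at hl e1
    have e2 := congrArg (fun s => τc x T * d⁄dX ℂ s) hl
    simp only [dotProduct, map_sum, Derivation.leibniz, smul_eq_mul, mul_sum, mul_add, map_zero,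
      mul_zero, mul_left_comm (τc x T) (τc x (l _)), e1, sum_add_distrib] at e2
    change _ = _
    simp only [D, dotProduct, map_add, map_mul, τc_deriv, add_mul, sum_add_distrib, vecMul, map_sum,
      sum_mul]
    rw [← e2, add_comm, sum_comm]
    simp only [mulVec, dotProduct, map_apply, mul_sum, mul_assoc, mul_comm (y _)]
  have key : ∀ s : Finset I, ∃ l : A → Polynomial ℂ, (∀ a, (l a).eval x = b a) ∧
      l ∈ ⨅ j ∈ s, simN x (G *ᵥ fun a => C (φ j a)) := fun s => by
    induction s using Finset.induction_on with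
    | empty => exact ⟨fun a => Polynomial.C (b a), fun a => Polynomial.eval_C, by simp⟩
    | insert j s _ ih =>
      obtain ⟨l1, a1, a2⟩ := ih
      obtain ⟨l2, b1, b2⟩ := h j
      obtain ⟨u, hu⟩ : ∃ u, (Polynomial.X - Polynomial.C x) • u = l1 - l2 :=
        ⟨fun a => (l1 a - l2 a) /ₘ (Polynomial.X - Polynomial.C x), funext fun a =>
          Polynomial.mul_divByMonic_eq_iff_isRoot.2 (by simp [a1, b1])⟩
      obtain ⟨u1, c1, u2, c2, rfl⟩ := Submodule.mem_sup.1 (sim_sat hT d1
        (N := (⨅ j ∈ s, simN x (G *ᵥ fun a => C (φ j a))) ⊔ simN x (G *ᵥ fun a => C (φ j a)))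
        (fun u hu => by
          obtain ⟨u1, c1, u2, c2, rfl⟩ := Submodule.mem_sup.1 hu
          rw [d2]
          refine Submodule.add_mem_sup ?_ (d3 j _ c2)
          simp only [Submodule.mem_iInf] at c1 ⊢
          exact fun i hi => d3 i _ (c1 i hi))
        (hu ▸ sub_mem (Submodule.mem_sup_left a2) (Submodule.mem_sup_right b2)))
      refine ⟨l1 - (Polynomial.X - Polynomial.C x) • u1, fun a => by simp [a1], ?_⟩
      rw [Finset.iInf_insert]
      refine ⟨?_, sub_mem a2 (Submodule.smul_mem _ _ c1)⟩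
      have : l1 - (Polynomial.X - Polynomial.C x) • u1 = l2 + (Polynomial.X - Polynomial.C x) • u2 := by
        rw [smul_add] at hu
        linear_combination (exp := 1) -hu
      rw [this]
      exact add_mem b2 (Submodule.smul_mem _ _ c2)
  obtain ⟨l, a1, a2⟩ := key univ
  simp only [Submodule.mem_iInf] at a2
  exact ⟨l, a1, fun j => a2 j (mem_univ j)⟩

end

end Pool.Agent.Lib.MP_5591bc_ag.D
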