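import Pool.Agent.Lib.MP_5591bc_ag.D.Roth
import Pool.Agent.Lib.MP_5591bc_ag.RZero

/-! The zero estimate at small complex points. -/

namespace Pool.Agent.Lib.MP_5591bc_ag.D

open Matrix Finset R

noncomputable section

section

variable {σ J : Type*} [Fintype J] [DecidableEq J] {T : σ → MvPolynomial σ ℚ}
  {B : σ → Matrix J J (MvPolynomial σ ℚ)} {τ : MvPolynomial σ ℚ →+* MvPowerSeries σ ℂ}
  {y : J → MvPowerSeries σ ℂ}

/-- partial derivative of a vector of series -/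
def pdg (i : σ) (y : J → MvPowerSeries σ ℂ) : J → MvPowerSeries σ ℂ :=
  fun j => MvPowerSeries.pderiv ℂ i (y j)

omit [DecidableEq J] in
theorem pdg_dot (i : σ) (y z : J → MvPowerSeries σ ℂ) :
    MvPowerSeries.pderiv ℂ i (y ⬝ᵥ z) = y ⬝ᵥ pdg i z + pdg i y ⬝ᵥ z := by
  simp [dotProduct, pdg, sum_add_distrib, mul_comm]

omit [DecidableEq J] in
theorem zc_map_Dp (h : ∀ i p, τ (MvPolynomial.pderiv i p) = MvPowerSeries.pderiv ℂ i (τ p)) (i : σ)
    (v : J → MvPolynomial σ ℚ) : (fun j => τ (Dp T B i v j)) =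
      τ (T i) • pdg i (fun j => τ (v j)) - (B i).map τ *ᵥ fun j => τ (v j) := by
  ext1 j
  simp [Dp, pdg, h, mulVec, dotProduct]

theorem zc_psi_Dp (der : ∀ i p, τ (MvPolynomial.pderiv i p) = MvPowerSeries.pderiv ℂ i (τ p))
    (hy : ∀ i, τ (T i) • pdg i y = (B i).map τ *ᵥ y) (i : σ) (u : J → MvPolynomial σ ℚ) :
    (fun j => τ (Dp T (fun i => -(B i)ᵀ) i u j)) ⬝ᵥ y =
      τ (T i) * MvPowerSeries.pderiv ℂ i ((fun j => τ (u j)) ⬝ᵥ y) := by
  have e : (-(B i)ᵀ).map τ = -((B i).map τ)ᵀ := by ext1 a b; simp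
  rw [zc_map_Dp der, pdg_dot, mul_add, ← smul_eq_mul, ← dotProduct_smul, hy, e, neg_mulVec,
    sub_neg_eq_add, add_dotProduct, smul_dotProduct, smul_eq_mul, mulVec_transpose,
    dotProduct_mulVec, add_comm]

theorem zc_psi_vn (der : ∀ i p, τ (MvPolynomial.pderiv i p) = MvPowerSeries.pderiv ℂ i (τ p))
    (hy : ∀ i, τ (T i) • pdg i y = (B i).map τ *ᵥ y) {w : σ → ℕ} {n W : ℕ} (hW : ∀ i, w i ≤ W)
    {P : J → MvPolynomial σ ℚ} (hv : Vg w n ((fun j => τ (P j)) ⬝ᵥ y)) (L : List σ) :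
    Vg w (n - L.length * W) ((fun j => τ (DL T (fun i => -(B i)ᵀ) L P j)) ⬝ᵥ y) := by
  induction L with
  | nil => exact hv.mono (Nat.sub_le _ _)
  | cons i L ih =>
    rw [show DL T (fun i => -(B i)ᵀ) (i :: L) P =
      Dp T (fun i => -(B i)ᵀ) i (DL T (fun i => -(B i)ᵀ) L P) from rfl, zc_psi_Dp der hy]
    refine ((ih.pderiv i).left _).mono ?_
    have := hW i
    simp only [List.length_cons, add_mul]
    omega

/-- a family of series without constant term, stable under `t_i ∂_i` with units `t_i`, is zero -/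
theorem zc_fam_zero {S : Set (MvPowerSeries σ ℂ)} {t : σ → MvPowerSeries σ ℂ}
    (ht : ∀ i, MvPowerSeries.constantCoeff (t i) ≠ 0)
    (hS : ∀ f ∈ S, ∀ i, t i * MvPowerSeries.pderiv ℂ i f ∈ S)
    (h0 : ∀ f ∈ S, MvPowerSeries.constantCoeff f = 0) {f : MvPowerSeries σ ℂ} (hf : f ∈ S) :
    f = 0 := by
  have key : ∀ n, ∀ f ∈ S, Vg (fun _ => 1) n f := fun n => by
    induction n with
    | zero => exact fun _ _ _ h => absurd h (Nat.not_lt_zero _)
    | succ n ih =>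
      intro f hf d
      induction d using fs_ind with
      | h0 => exact fun _ => by simpa using h0 f hf
      | h d i _ =>
        intro hd
        have h1 : Vg (fun _ => 1) (0 + n) (t i * MvPowerSeries.pderiv ℂ i f) := by
          rw [zero_add]; exact ih _ (hS f hf i)
        have h2 := h1.cancel (fun h => ht i (by simpa using h 0 (by simp))) d (by
          rw [map_add, Finsupp.weight_single, one_smul] at hd; omega)
        rw [MvPowerSeries.coeff_pderiv] at h2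
        exact (mul_eq_zero.1 h2).resolve_right (Nat.cast_add_one_ne_zero _)
  exact MvPowerSeries.ext fun d => key _ f hf d (Nat.lt_succ_self _)

theorem zc_zero_core (der : ∀ i p, τ (MvPolynomial.pderiv i p) = MvPowerSeries.pderiv ℂ i (τ p))
    (hy : ∀ i, τ (T i) • pdg i y = (B i).map τ *ᵥ y)
    (hT : ∀ i, MvPowerSeries.constantCoeff (τ (T i)) ≠ 0) {w : σ → ℕ} {n k W : ℕ}
    (hW : ∀ i, w i ≤ W) {P : J → MvPolynomial σ ℚ} (hv : Vg w n ((fun j => τ (P j)) ⬝ᵥ y))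
    (hk : k + 1 + Fintype.card J * W ≤ n)
    (hR : ∀ r ≤ Fintype.card J, ∀ (v : Fin r → J → MvPolynomial σ ℚ) (I : Fin r → J),
      (∀ l, ∃ L : List σ, L.length ≤ Fintype.card J ∧ v l = DL T (fun i => -(B i)ᵀ) L P) →
      mnr v I ≠ 0 → ¬ Vg w (k + 1) (τ (mnr v I))) : (fun j => τ (P j)) ⬝ᵥ y = 0 := by
  obtain ⟨r, hr, v, I, a1, a2, a3⟩ :=
    greedy fun k v => ∃ L : List σ, L.length ≤ k ∧ v = DL T (fun i => -(B i)ᵀ) L P
  have a4 : ∀ l, ∃ L : List σ, L.length ≤ Fintype.card J ∧ v l = DL T (fun i => -(B i)ᵀ) L P :=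
    fun l => (a1 l).imp fun L hL => ⟨hL.1.trans (l.rev.2.le.trans hr), hL.2⟩
  refine zc_fam_zero (S := {f | ∃ u : J → MvPolynomial σ ℚ, (∀ β, bord v I u β = 0) ∧
    f = (fun j => τ (u j)) ⬝ᵥ y}) hT ?_ ?_ ⟨P, a3 P ⟨[], r.zero_le, rfl⟩, rfl⟩
  · rintro _ ⟨u, hu, rfl⟩ i
    refine ⟨_, fun β => ?_, (zc_psi_Dp der hy i u).symm⟩
    exact sat_closed a2 ⟨⟨Dp T (fun i => -(B i)ᵀ) i, by ext1; simp [Dp]⟩, fun x y => by
        ext1; simp [Dp, mulVec_add]; ring⟩ (fun a => T i * MvPolynomial.pderiv i a)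
      (fun a u => by ext1 j; simp [Dp, mulVec_smul]; ring) (fun l β => by
        obtain ⟨L, b1, b2⟩ := a1 l
        exact a3 _ ⟨i :: L, Nat.succ_le_of_lt (b1.trans_lt l.rev.2), by rw [b2]; rfl⟩ β) hu β
  · rintro _ ⟨u, hu, rfl⟩
    obtain ⟨g, hg⟩ := sat_eq hu
    have h2 : (fun j => τ ((mnr v I • u) j)) = fun j => τ ((∑ l, g l • v l) j) := by rw [hg]
    have h3 : τ (mnr v I) • (fun j => τ (u j)) = ∑ l, τ (g l) • fun j => τ (v l j) := by
      ext1 j
      simpa [Finset.sum_apply] using congrFun h2 j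
    have h4 := congrArg (fun z => z ⬝ᵥ y) h3
    simp only [smul_dotProduct, sum_dotProduct, smul_eq_mul] at h4
    have h5 : Vg w (k + 1) (τ (mnr v I) * ((fun j => τ (u j)) ⬝ᵥ y)) := by
      rw [h4]
      refine Vg.sum fun l _ => Vg.left ?_ _
      obtain ⟨L, b1, b2⟩ := a4 l
      rw [b2]
      exact (zc_psi_vn der hy hW hv L).mono (by have := Nat.mul_le_mul_right W b1; omega)
    simpa using h5.cancel (hR r hr v I a4 a2) 0 (by simp)

theorem zc_bd_neg [Fintype σ] {d : σ → ℕ} {h : ℕ} {p : MvPolynomial σ ℚ} (a : Bd d h p) :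
    Bd d h (-p) :=
  ⟨neg_mem a.1, fun i => by simpa using a.2.1 i, by simpa [nr] using a.2.2⟩

/-- the zero estimate for integral systems, uniform in the system -/
theorem zc_zero_int (m N b γ κ : ℕ) (hκ : 0 < κ) : ∃ Λ : ℕ, ∀ (w : Fin m → ℕ) (ξ : Fin m → ℂ),
    (∀ i, Λ ≤ w i) →
    (∀ i j, i < j → Λ * w j ≤ w i) → (∀ i, ξ i ≠ 0 ∧ (2 * ‖ξ i‖) ^ κ * 2 ^ w i ≤ 1) →
    ∃ u0 : ℕ, ∀ u, u0 ≤ u →
    ∀ {T : Fin m → MvPolynomial (Fin m) ℚ} {B : Fin m → Matrix J J (MvPolynomial (Fin m) ℚ)},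
      Fintype.card J ≤ N → (∀ i, Bd (fun _ => b) b (T i)) → (∀ i j k, Bd (fun _ => b) b (B i j k)) →
      (∀ i, MvPowerSeries.constantCoeff (τg ξ (T i)) ≠ 0) → ∀ y : J → MvPowerSeries (Fin m) ℂ,
      (∀ i, τg ξ (T i) • pdg i y = (B i).map (τg ξ) *ᵥ y) →
      ∀ (h : ℕ) (P : J → MvPolynomial (Fin m) ℚ), (∀ j, Bd (fun i => γ * u / w i) h (P j)) →
      Λ * h ≤ u → Vg w (2 * u) ((fun j => τg ξ (P j)) ⬝ᵥ y) →
      (fun j => τg ξ (P j)) ⬝ᵥ y = 0 := by
  obtain ⟨ΛR, -, hR⟩ := rothC m (2 * (N + 1) * (γ + 1)) κ (by positivity) hκ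
  obtain ⟨Λ, hΛ⟩ : ∃ Λ, Λ = ΛR * (N * N * m) + ΛR * N + ΛR + 1 := ⟨_, rfl⟩
  refine ⟨Λ, fun w ξ h1 h2 h3 => ?_⟩
  obtain ⟨W, hW⟩ : ∃ W, ∀ i, w i ≤ W := ⟨univ.sup w, fun i => le_sup (mem_univ i)⟩
  refine ⟨N * W + 1 + N * (N * b * W) + ΛR * (N * (N + N * (m * (N * b) + N + b + 1))),
    fun u hu T B hN hT hB T0 y hy h P hP hh hv => ?_⟩
  refine zc_zero_core (fun i p => (pderiv_τg ξ i p).symm) hy T0 (k := u) hW hv
    (by have := Nat.mul_le_mul_right W hN; omega) fun r hr v I hv h0 => ?_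
  obtain ⟨t, ht⟩ : ∃ t, t = γ * u / Λ := ⟨_, rfl⟩
  have t1 : Λ * t ≤ γ * u := ht ▸ Nat.mul_div_le _ _
  replace hr := hr.trans hN
  have b1 : ∀ l j, Bd (fun i => γ * u / w i + N * b)
      (h + N * (m * (t + N * b) + N + b + 1)) (v l j) := fun l j => by
    obtain ⟨Ls, c1, c2⟩ := hv l
    replace c1 := c1.trans hN
    rw [c2]
    refine (Bd.dL (t := t + N * b) hT (fun i j k => zc_bd_neg (hB i k j)) hP (fun i => by
      have : γ * u / w i ≤ t := ht ▸ Nat.div_le_div_left (h1 i) (by omega)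
      show γ * u / w i + N * b ≤ _
      omega) Ls c1 j).mono (fun i => by gcongr) ?_
    rw [Fintype.card_fin]
    gcongr
  obtain ⟨b2, b3, b4⟩ := Bd.mnr b1 I
  have b5 := hR w ξ (2 * (N + 1) * (γ + 1) * u) (N * (N + (h + N * (m * (t + N * b) + N + b + 1))))
    _ h0 b2 (fun i j h => le_trans (Nat.mul_le_mul_right _ (by omega)) (h2 i j h)) h3
    (fun i => le_trans (by omega) (h1 i)) (fun i => by
      have c1 := Nat.div_mul_le_self (γ * u) (w i)
      have c2 : N * (N * b * w i) ≤ u := le_trans (Nat.mul_le_mul_left _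
        (Nat.mul_le_mul_left _ (hW i))) (le_trans (by omega) hu)
      refine (Nat.mul_le_mul_right _ ((b3 i).trans (Nat.mul_le_mul_right _ hr))).trans ?_
      rw [mul_assoc N, add_mul, mul_add]
      nlinarith [Nat.mul_le_mul_left N c1, Nat.zero_le (N * u), Nat.zero_le (γ * u)])
    (b4.trans (pow_le_pow_right₀ one_le_two (by gcongr))) (by
      have c1 : ΛR * (N * N * m) * t ≤ γ * u := le_trans (Nat.mul_le_mul_right _ (by omega)) t1
      have c2 : ΛR * N * h ≤ u := le_trans (Nat.mul_le_mul_right _ (by omega)) hh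
      have c3 : ΛR * (N * (N + N * (m * (N * b) + N + b + 1))) ≤ u := le_trans (by omega) hu
      nlinarith [Nat.zero_le (N * u), Nat.zero_le (γ * u), Nat.zero_le (N * (γ * u))])
  rwa [Nat.mul_div_cancel_left _ (by positivity)] at b5

end

end

end Pool.Agent.Lib.MP_5591bc_ag.D
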