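import Pool.Agent.Lib.MP_5591bc_ag.D.Kit
import Pool.Agent.Lib.MP_5591bc_ag.D.ZeroA

/-! The zero estimate for systems over a number field. -/

namespace Pool.Agent.Lib.MP_5591bc_ag.D

open Matrix Finset Filter Topology PowerSeries G R V Function
open W (GK mpK)

noncomputable section

variable {J : Type*} [Fintype J] [DecidableEq J]

theorem zero_vQ (T : Polynomial ℚ) (B : Matrix J J (Polynomial ℚ)) (m γ c κ : ℕ) (κ0 : 0 < κ) :
    ∃ Λ, ∀ (ξ : Fin m → ℂ) (w : Fin m → ℕ), (∀ i, Polynomial.aeval (ξ i) T ≠ 0) →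
      (∀ i, Λ ≤ w i) → (∀ i j, i < j → Λ * w j ≤ w i) →
      (∀ i, ξ i ≠ 0 ∧ (2 * ‖ξ i‖) ^ κ * 2 ^ w i ≤ 1) → ∀ y : Fin m → J → ℂ⟦X⟧,
      (∀ i, τK (ξ i) T • (fun j => d⁄dX ℂ (y i j)) = B.map (τK (ξ i)) *ᵥ y i) →
      ∃ t0, ∀ t ≥ t0, ∀ u, Λ * t ≤ u → ∀ P : (Fin m → J) → MvPolynomial (Fin m) ℚ,
      (∀ μ, Bd (fun i => γ * u / w i) (c * t) (P μ)) →
      Vg w (2 * u) ((fun μ => τg ξ (P μ)) ⬝ᵥ tvC y) → (fun μ => τg ξ (P μ)) ⬝ᵥ tvC y = 0 := by
  obtain ⟨d, d0, b, hb⟩ := exists_den (σ := Fin m)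
    (α := Fin m ⊕ (Fin m × (Fin m → J) × (Fin m → J))) (Sum.elim (fun i => toMv i T)
      fun x => piM (update (fun _ => 1) x.1 (B.map (toMv x.1))) x.2.1 x.2.2)
  obtain ⟨Λ, hΛ⟩ := zc_zero_int (J := Fin m → J) m (Fintype.card (Fin m → J)) b γ κ κ0
  have l1 : Λ ≤ Λ * c + Λ + 1 := by omega
  refine ⟨Λ * c + Λ + 1, fun ξ w T0 h1 h2 h3 y hy => (hΛ w ξ (fun i => l1.trans (h1 i))
    (fun i j k => (Nat.mul_le_mul_right _ l1).trans (h2 i j k)) h3).imp
      fun u0 h4 t ht u hu P hP => ?_⟩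
  have hC : τg ξ (MvPolynomial.C d) = MvPowerSeries.C (d : ℂ) := by
    rw [← τA_rat, τA_C, eq_ratCast]
  refine h4 u (ht.trans ((Nat.le_mul_of_pos_left _ (Nat.succ_pos _)).trans hu))
    (T := fun i => d • toMv i T) (B := fun i => d • piM (update (fun _ => 1) i (B.map (toMv i))))
    le_rfl (fun i => hb (.inl i)) (fun i j k => hb (.inr (i, j, k))) (fun i => ?_) _ (fun i => ?_)
    _ P hP (le_trans (by rw [← mul_assoc]; exact Nat.mul_le_mul_right _ (by omega)) hu)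
  · rw [MvPolynomial.smul_eq_C_mul, map_mul, hC, τg_toMv, map_mul, embC_const, τK_const,
      MvPowerSeries.constantCoeff_C]
    exact mul_ne_zero (by exact_mod_cast d0) (T0 i)
  · have e1 : (d • piM (update (fun _ => 1) i (B.map (toMv i)))).map (τg ξ) =
        (MvPowerSeries.C (d : ℂ) : MvPowerSeries (Fin m) ℂ) •
          (piM (update (fun _ => 1) i (B.map (toMv i)))).map (τg ξ) := by
      ext1 μ ν
      rw [map_apply, Matrix.smul_apply, MvPolynomial.smul_eq_C_mul, map_mul, hC]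
      rfl
    rw [e1, smul_mulVec, MvPolynomial.smul_eq_C_mul, map_mul, hC, mul_smul, piM_map, tvC,
      piM_mulVec]
    congr 1
    ext1 μ
    rw [Pi.smul_apply, pdg, tens, pderiv_prod_embC, tens, ← prod_erase_mul _ _ (mem_univ i),
      ← prod_erase_mul _ _ (mem_univ i), update_self, update_self, smul_eq_mul, mul_left_comm,
      τg_toMv, ← map_mul]
    congr 1
    · exact prod_congr rfl fun j hj => by
        simp [ne_of_mem_erase hj, Matrix.map_one _ (map_zero _) (map_one _)]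
    · refine (congrArg _ (congrFun (hy i) (μ i))).trans ?_
      simp [mulVec, dotProduct, τg_toMv]

theorem zero_vD {K : Type} [Field K] [NumberField K] [Algebra K ℂ] {T : Polynomial K}
    (hT : T ≠ 0) (B : Matrix J J (Polynomial K)) (m γ c κ : ℕ) (κ0 : 0 < κ) :
    ∃ Λ, ∀ (ξ : Fin m → ℂ) (w : Fin m → ℕ),
      (∀ i, Λ ≤ w i) → (∀ i j, i < j → Λ * w j ≤ w i) →
      (∀ i, ξ i ≠ 0 ∧ (2 * ‖ξ i‖) ^ κ * 2 ^ w i ≤ 1) → ∀ y : Fin m → J → ℂ⟦X⟧,
      (∀ i, τK (ξ i) T • (fun j => d⁄dX ℂ (y i j)) = B.map (τK (ξ i)) *ᵥ y i) →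
      ∃ t0, ∀ t ≥ t0, ∀ u, Λ * t ≤ u → ∀ P : (Fin m → J) → MvPolynomial (Fin m) ℚ,
      (∀ μ, Bd (fun i => γ * u / w i) (c * t) (P μ)) →
      Vg w (2 * u) ((fun μ => τg ξ (P μ)) ⬝ᵥ tvC y) → (fun μ => τg ξ (P μ)) ⬝ᵥ tvC y = 0 := by
  classical
  obtain ⟨T1, t1, t2⟩ := Polynomial.exists_eq_pow_rootMultiplicity_mul_and_not_dvd T hT 0
  obtain ⟨N, v, N0, hN1⟩ := exists_norm (Polynomial.dvd_iff_isRoot.not.1 t2)
  obtain ⟨k, hN⟩ : ∃ k, (Polynomial.X ^ k * N).map (algebraMap ℚ K) = T * v := ⟨_, by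
    rw [t1, Polynomial.map_mul, hN1, Polynomial.map_pow, Polynomial.map_X, map_zero, sub_zero,
      mul_assoc]⟩
  obtain ⟨Λ, hΛ⟩ := zero_vQ (Polynomial.X ^ k * N) (of fun x y : J × Ix K => ρX (v * B x.1 y.1) y.2 x.2) m γ c κ κ0
  obtain ⟨ε, ε0, hε⟩ := Metric.eventually_nhds_iff.1
    ((N.continuous_aeval (A := ℂ)).continuousAt.eventually_ne (x := 0) (y := 0) (by
      rw [← Rat.cast_zero, aeval_rat]
      exact_mod_cast N0))
  obtain ⟨n, hn⟩ := pow_unbounded_of_one_lt ((2 * ε) ^ κ)⁻¹ (one_lt_two (α := ℝ))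
  obtain ⟨ω, hω⟩ : ∃ ω : Ix K → ℂ, ∀ a, ω a = algebraMap K ℂ (NumberField.integralBasis K a) :=
    ⟨_, fun _ => rfl⟩
  have e1 : ∀ (z : ℂ) (p : Polynomial K) b,
      ∑ a, C (ω a) * τK z (ρX p a b) = τK z p * C (ω b) := fun z p b => by
    have a1 : ∑ a, Polynomial.C (ω a) * (ρX p a b).map (algebraMap ℚ ℂ) =
        p.map (algebraMap K ℂ) * Polynomial.C (ω b) := Polynomial.funext fun z => by
      simpa [Polynomial.eval_finsetSum, Polynomial.eval_map_algebraMap, hω] using ρX_eval z p b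
    have a2 : ∀ a, τc z (Polynomial.C a) = C a := fun a => by simp [τc]
    have a3 := congrArg (τc z) a1
    simp only [map_sum, map_mul, a2] at a3
    exact a3
  have h5 : ∀ (ξ : Fin m → ℂ) (w : Fin m → ℕ), (∀ i, Λ + n ≤ w i) →
      (∀ i, ξ i ≠ 0 ∧ (2 * ‖ξ i‖) ^ κ * 2 ^ w i ≤ 1) → ∀ i, Polynomial.aeval (ξ i) N ≠ 0 :=
    fun ξ w h1 h3 i => hε (by
    by_contra h
    rw [dist_zero_right, not_lt] at h
    rw [inv_lt_iff_one_lt_mul₀' (by positivity)] at hn
    refine absurd (h3 i).2 (not_le.2 (hn.trans_le ?_))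
    have := (Nat.le_add_left _ _).trans (h1 i)
    gcongr
    exact one_le_two)
  refine ⟨Λ + n, fun ξ w h1 h2 h3 y hy => (hΛ ξ w (fun i => by
      rw [map_mul, map_pow, Polynomial.aeval_X]
      exact mul_ne_zero (pow_ne_zero _ (h3 i).1) (h5 ξ w h1 h3 i))
    (fun i => (Nat.le_add_right _ _).trans (h1 i))
    (fun i j k => (Nat.mul_le_mul_right _ (Nat.le_add_right _ _)).trans (h2 i j k)) h3
    (fun i x => C (ω x.2) * y i x.1) fun i => ?_).imp fun t0 h4 t ht u hu P hP hv => ?_⟩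
  · ext1 x
    have a1 : τK (ξ i) (Polynomial.X ^ k * N) = τK (ξ i) v * τK (ξ i) T := by
      rw [← map_mul, mul_comm v, ← hN]
      simp only [τK, RingHom.comp_apply, Polynomial.coe_mapRingHom, Polynomial.map_map]
      congr 2
      exact Subsingleton.elim _ _
    have a2 := congrFun (hy i) x.1
    simp only [Pi.smul_apply, smul_eq_mul, mulVec, dotProduct, map_apply, of_apply,
      Fintype.sum_prod_type, Derivation.leibniz, derivative_C, add_zero, mul_zero,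
      ← mul_assoc, mul_comm _ (C (ω _)), ← sum_mul, e1, a1] at a2 ⊢
    rw [mul_assoc, a2, mul_sum]
    exact sum_congr rfl fun _ _ => by rw [map_mul]; ring
  · obtain ⟨a0⟩ := (NumberField.integralBasis K).index_nonempty
    have e2 : MvPowerSeries.C (ω a0 ^ m) * ((fun μ => τg ξ (P μ)) ⬝ᵥ tvC y) =
        (fun μ : Fin m → J × Ix K => τg ξ (if ∀ i, (μ i).2 = a0 then P fun i => (μ i).1 else 0)) ⬝ᵥ
          tvC fun i x => C (ω x.2) * y i x.1 := by
      rw [dotProduct, mul_sum]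
      refine Fintype.sum_of_injective (fun μ i => (μ i, a0))
        (fun _ _ e => funext fun i => congrArg Prod.fst (congrFun e i)) _ _ (fun μ h => ?_)
        fun μ => ?_
      · beta_reduce
        rw [if_neg fun e => h ⟨fun i => (μ i).1, funext fun i => Prod.ext rfl (e i).symm⟩,
          map_zero, zero_mul]
      · simp [tvC, tens, prod_mul_distrib, embC_C, mul_left_comm]
    have a1 := h4 t ht u ((Nat.mul_le_mul_right _ (Nat.le_add_right _ _)).trans hu) _ (fun μ => by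
      split_ifs
      exacts [hP _, ⟨zero_mem _, fun _ => by simp, by simp [nr]⟩]) (e2 ▸ hv.left _)
    rw [← e2] at a1
    refine (mul_eq_zero.1 a1).resolve_left fun e => ?_
    have := congrArg MvPowerSeries.constantCoeff e
    rw [MvPowerSeries.constantCoeff_C, map_zero, hω] at this
    exact (NumberField.integralBasis K).ne_zero a0 (by simpa using eq_zero_of_pow_eq_zero this)

end

end Pool.Agent.Lib.MP_5591bc_ag.D
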